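import Pool.Agent.V8H31.TP.Model

set_option autoImplicit false

/-!
# The probability of a pattern in the model
-/

namespace Pool.Agent.V8H31.TP

open Finset Filter
open Pool.Agent.V11146.MK

lemma pr_nonneg (p : ℝ) (hp : 0 ≤ p) (hp1 : p ≤ 1) (κ : ℕ → ℕ) (G : ℕ → Prop) (T : ℕ) (β : List (ℕ × ℕ))
    (s s' : ℕ) : 0 ≤ pr p κ G T β s s' := by
  unfold pr
  exact Ex_nonneg p hp hp1 _ _ (Fi_nonneg κ β s)

lemma pr_le_one (p : ℝ) (hp : 0 ≤ p) (hp1 : p ≤ 1) (κ : ℕ → ℕ) (G : ℕ → Prop) (T : ℕ) (β : List (ℕ × ℕ))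
    (s s' : ℕ) : pr p κ G T β s s' ≤ 1 := by
  unfold pr
  exact (le_abs_self _).trans (Ex_bound p hp hp1 _ _ (Fi_bound κ β s))

lemma Ex_zero (p : ℝ) (L : List ℕ) (F : List ℕ → ℝ) (h : ∀ t : List ℕ, (∀ x ∈ t, x ∈ L) → F t = 0) :
    Ex p L F = 0 := by
  induction L generalizing F with
  | nil => exact h [] (by simp)
  | cons b L ih =>
    simp only [Ex]
    rw [ih F (fun t ht => h t (fun x hx => List.mem_cons_of_mem _ (ht x hx))),
      ih (fun t => F (b :: t)) (fun t ht => h (b :: t) (fun x hx => by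
        rw [List.mem_cons] at hx ⊢
        rcases hx with rfl | hx
        · exact Or.inl rfl
        · exact Or.inr (ht x hx)))]
    ring

lemma pr_zero (p : ℝ) (κ : ℕ → ℕ) (G : ℕ → Prop) (T : ℕ) (c : ℕ × ℕ) (β : List (ℕ × ℕ))
    (s v : ℕ) (hv : s + c.1 ≤ v) : pr p κ G T (c :: β) s v = 0 := by
  classical
  unfold pr
  apply Ex_zero
  intro t ht
  unfold Fi
  rw [if_neg]
  cases t with
  | nil => exact fun h => h
  | cons x t =>
    simp only [Pt]
    rintro ⟨h1, _, _⟩
    have h2 := ht x (by simp)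
    rw [mem_res] at h2
    obtain ⟨h, hh, h3⟩ := h2
    have h4 := (mem_Ioc.1 (mem_filter.1 hh).1).1
    simp only [id] at h3
    omega

section
variable {G : ℕ → Prop} {κ : ℕ → ℕ} {cl : Finset ℕ} {M D : ℕ}

lemma blk_lo (H : Blk G κ cl M D) (p : ℝ) (hp : 0 ≤ p) (hp1 : p ≤ 1) (T : ℕ) (c : ℕ × ℕ) (hc : c.2 ∈ cl)
    (β : List (ℕ × ℕ)) (s : ℕ) (a : ℝ) (ha : 0 ≤ a) (U : ℕ) (hU1 : U * M ≤ c.1) (hU2 : s + U * M ≤ T)
    (hβ : ∀ x, s < x → x ≤ s + c.1 → a ≤ pr p κ G T β x x) :
    ∀ d i : ℕ, i + d = U → p * (1 - p) ^ (cl.card * D) * (D * a) * ∑ j ∈ range d, ((1 - p) ^ (cl.card * D)) ^ j ≤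
      pr p κ G T (c :: β) s (s + i * M) := by
  intro d
  induction d with
  | zero =>
    intro i _
    simpa using pr_nonneg p hp hp1 κ G T (c :: β) s (s + i * M)
  | succ d ih =>
    intro i hi
    have ih' := ih (i + 1) (by omega)
    have h1 : (i + 1) * M ≤ U * M := Nat.mul_le_mul_right _ (by omega)
    have h2 : (i + 1) * M = i * M + M := by ring
    have h3 := step_lo p hp hp1 κ G T c β s a ha (s + (i + 1) * M) (by omega) (by omega) hβ (s + i * M)
      (by omega) (by omega)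
    have h4 : s + (i + 1) * M = s + i * M + M := by omega
    rw [h4] at h3 ih'
    rw [H.tot, H.cnt c.2 hc] at h3
    rw [geom_sum_succ]
    obtain ⟨r, hr⟩ : ∃ r, r = (1 - p) ^ (cl.card * D) := ⟨_, rfl⟩
    rw [← hr] at h3 ih' ⊢
    have hr0 : 0 ≤ r := by rw [hr]; exact pow_nonneg (by linarith) _
    have h5 := mul_le_mul_of_nonneg_left ih' hr0
    obtain ⟨S, hS⟩ : ∃ S, S = ∑ j ∈ range d, r ^ j := ⟨_, rfl⟩
    rw [← hS] at h5 ⊢
    nlinarith

lemma blk_up (H : Blk G κ cl M D) (p : ℝ) (hp : 0 ≤ p) (hp1 : p ≤ 1) (T : ℕ) (c : ℕ × ℕ) (hc : c.2 ∈ cl)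
    (β : List (ℕ × ℕ)) (s : ℕ) (a : ℝ) (ha : 0 ≤ a) (U : ℕ) (hU1 : c.1 ≤ U * M) (hU2 : s + U * M ≤ T)
    (hβ : ∀ x, s < x → x ≤ s + c.1 → pr p κ G T β x x ≤ a) :
    ∀ d i : ℕ, i + d = U → pr p κ G T (c :: β) s (s + i * M) ≤
      p * (D * a) * ∑ j ∈ range d, ((1 - p) ^ (cl.card * D)) ^ j := by
  intro d
  induction d with
  | zero =>
    intro i hi
    have : i = U := by omega
    subst this
    rw [pr_zero p κ G T c β s (s + i * M) (by omega)]
    simp
  | succ d ih =>
    intro i hi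
    have ih' := ih (i + 1) (by omega)
    have h1 : (i + 1) * M ≤ U * M := Nat.mul_le_mul_right _ (by omega)
    have h2 : (i + 1) * M = i * M + M := by ring
    have h3 := step_up p hp hp1 κ G T c β s a ha (s + (i + 1) * M) (by omega) hβ (s + i * M)
      (by omega) (by omega)
    have h4 : s + (i + 1) * M = s + i * M + M := by omega
    rw [h4] at h3 ih'
    rw [H.tot, H.cnt c.2 hc] at h3
    rw [geom_sum_succ]
    obtain ⟨r, hr⟩ : ∃ r, r = (1 - p) ^ (cl.card * D) := ⟨_, rfl⟩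
    rw [← hr] at h3 ih' ⊢
    have hr0 : 0 ≤ r := by rw [hr]; exact pow_nonneg (by linarith) _
    have h5 := mul_le_mul_of_nonneg_left ih' hr0
    obtain ⟨S, hS⟩ : ∃ S, S = ∑ j ∈ range d, r ^ j := ⟨_, rfl⟩
    rw [← hS] at h5 ⊢
    nlinarith

/-- geometric sums -/
lemma geo (r δ : ℝ) (hr0 : 0 ≤ r) (hr1 : r ≤ 1) (n : ℕ) : (1 - r) * ∑ j ∈ range n, r ^ j = 1 - r ^ n := by
  have := mul_neg_geom_sum r n
  linarith

lemma one_step (H : Blk G κ cl M D) (p : ℝ) (hp : 0 ≤ p) (hp2 : p ≤ 1 / 2) (hcl : cl.Nonempty) (hD : 1 ≤ D)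
    (δ Λ : ℝ) (hδ : δ = cl.card * D * p) (hδ1 : δ ≤ 1) (T : ℕ) (c : ℕ × ℕ) (hc : c.2 ∈ cl)
    (hcΛ : c.1 * δ / M ≤ Λ) (β : List (ℕ × ℕ)) (s : ℕ) (hT : s + c.1 + M ≤ T) (B e : ℝ) (hB0 : 0 ≤ B) (hB1 : B ≤ 1)
    (he : 0 ≤ e) (hβ : ∀ x, s < x → x ≤ s + c.1 → |pr p κ G T β x x - B| ≤ e) :
    |pr p κ G T (c :: β) s s - (1 - Real.exp (-(c.1 * δ / M))) / cl.card * B| ≤ e + δ * (7 + 4 * Λ) := by
  have hp1 : p ≤ 1 := by linarith
  have hM := H.hM
  have hMr : (0 : ℝ) < M := by exact_mod_cast hM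
  obtain ⟨A, hA⟩ : ∃ A : ℝ, A = cl.card := ⟨_, rfl⟩
  have hA1 : 1 ≤ A := by rw [hA]; exact_mod_cast hcl.card_pos
  have hA0 : 0 < A := by linarith
  have hDr : (1 : ℝ) ≤ D := by exact_mod_cast hD
  obtain ⟨lam, hlam⟩ : ∃ lam : ℝ, lam = c.1 * δ / M := ⟨_, rfl⟩
  have hδ0 : 0 ≤ δ := by rw [hδ]; positivity
  have hlam0 : 0 ≤ lam := by rw [hlam]; positivity
  obtain ⟨n0, hn0⟩ : ∃ n0, n0 = cl.card * D := ⟨_, rfl⟩
  have hδn : δ = n0 * p := by
    rw [hδ, hn0]
    push_cast
    ring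
  have hn01 : 1 ≤ n0 := by
    rw [hn0]
    exact Nat.mul_pos hcl.card_pos hD
  have hn0r : (1 : ℝ) ≤ n0 := by exact_mod_cast hn01
  have hpδ : p ≤ δ := by
    rw [hδn]
    nlinarith
  obtain ⟨r, hr⟩ : ∃ r, r = (1 - p) ^ n0 := ⟨_, rfl⟩
  have hr0 : 0 ≤ r := by rw [hr]; exact pow_nonneg (by linarith) _
  have hr1 : r ≤ 1 := by rw [hr]; exact pow_le_one₀ (by linarith) (by linarith)
  have hrlo : 1 - δ ≤ r := by
    rw [hr, hδn]
    have := one_add_mul_le_pow (show (-2 : ℝ) ≤ -p by linarith) n0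
    calc 1 - n0 * p = 1 + n0 * -p := by ring
      _ ≤ (1 + -p) ^ n0 := this
      _ = (1 - p) ^ n0 := by ring
  have hexpup : ∀ U : ℕ, r ^ U ≤ Real.exp (-(δ * U)) := by
    intro U
    rw [hr, ← pow_mul]
    have h1 : 1 - p ≤ Real.exp (-p) := by
      have := Real.add_one_le_exp (-p)
      linarith
    calc (1 - p) ^ (n0 * U) ≤ Real.exp (-p) ^ (n0 * U) := pow_le_pow_left₀ (by linarith) h1 _
      _ = Real.exp (-(δ * U)) := by
          rw [← Real.exp_nat_mul, hδn]
          congr 1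
          push_cast
          ring
  have hexplo : ∀ U : ℕ, Real.exp (-(δ * U) * (1 + 2 * p)) ≤ r ^ U := by
    intro U
    rw [hr, ← pow_mul]
    have h1 : Real.exp (-(p * (1 + 2 * p))) ≤ 1 - p := by
      rw [Real.exp_neg]
      have h2 := Real.add_one_le_exp (p * (1 + 2 * p))
      have h3 : 0 < 1 - p := by linarith
      rw [inv_le_comm₀ (Real.exp_pos _) h3]
      refine le_trans ?_ h2
      rw [inv_le_iff_one_le_mul₀ h3]
      nlinarith [mul_nonneg hp hp]
    calc Real.exp (-(δ * U) * (1 + 2 * p)) = Real.exp (-(p * (1 + 2 * p))) ^ (n0 * U) := by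
          rw [← Real.exp_nat_mul, hδn]
          congr 1
          push_cast
          ring
      _ ≤ (1 - p) ^ (n0 * U) := pow_le_pow_left₀ (Real.exp_pos _).le h1 _
  have hcardD : cl.card * D = n0 := hn0.symm
  obtain ⟨X, hX⟩ : ∃ X, X = 1 - Real.exp (-lam) := ⟨_, rfl⟩
  have hel0 : 0 < Real.exp (-lam) := Real.exp_pos _
  have hel1 : Real.exp (-lam) ≤ 1 := Real.exp_le_one_iff.2 (by linarith)
  have hX0 : 0 ≤ X := by rw [hX]; linarith
  have hX1 : X ≤ 1 := by rw [hX]; linarith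
  -- the floor
  obtain ⟨U, hU⟩ : ∃ U, U = c.1 / M := ⟨_, rfl⟩
  have hU1 : U * M ≤ c.1 := by rw [hU]; exact Nat.div_mul_le_self _ _
  have hU2 : c.1 ≤ (U + 1) * M := by
    have h1 := Nat.div_add_mod c.1 M
    have h2 := Nat.mod_lt c.1 hM
    rw [← hU] at h1
    calc c.1 = M * U + c.1 % M := h1.symm
      _ ≤ M * U + M := by omega
      _ = (U + 1) * M := by ring
  have hUr1 : δ * U ≤ lam := by
    have : (U : ℝ) * M ≤ c.1 := by exact_mod_cast hU1
    rw [hlam, le_div_iff₀ hMr]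
    nlinarith
  have hUr2 : lam ≤ δ * (U + 1) := by
    have : (c.1 : ℝ) ≤ (U + 1) * M := by exact_mod_cast hU2
    rw [hlam, div_le_iff₀ hMr]
    nlinarith
  have hΛ0 : 0 ≤ Λ := hlam0.trans (by rw [hlam]; exact hcΛ)
  have hlamΛ : lam ≤ Λ := by rw [hlam]; exact hcΛ
  have hδΛ : 0 ≤ δ * (7 + 4 * Λ) := by positivity
  have hpos := pr_nonneg p hp hp1 κ G T (c :: β) s s
  rw [← hlam, ← hX, ← hA, abs_le]
  constructor
  · -- lower bound
    rcases le_total B e with h | h
    · have h1 : X / A * B ≤ e := by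
        have h2 : X / A ≤ 1 := by
          rw [div_le_one hA0]
          linarith
        calc X / A * B ≤ 1 * B := by gcongr
          _ ≤ e := by linarith
      linarith
    · have h1 := blk_lo H p hp hp1 T c hc β s (B - e) (by linarith) U hU1 (by omega) (by
        intro x hx1 hx2
        have := (abs_le.1 (hβ x hx1 hx2)).1
        linarith) U 0 (by omega)
      rw [zero_mul, add_zero, hcardD, ← hr] at h1
      obtain ⟨S, hS⟩ : ∃ S, S = ∑ j ∈ range U, r ^ j := ⟨_, rfl⟩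
      have hS0 : 0 ≤ S := by rw [hS]; exact Finset.sum_nonneg fun _ _ => by positivity
      have hg := geo r δ hr0 hr1 U
      rw [← hS] at h1 hg
      have h2 : 1 - r ^ U ≤ δ * S := by
        rw [← hg]
        apply mul_le_mul_of_nonneg_right _ hS0
        linarith
      have h3 : r ^ U ≤ Real.exp (-lam) + 2 * δ := by
        refine (hexpup U).trans ?_
        have h4 : Real.exp (-(δ * U)) ≤ Real.exp (-lam) * Real.exp δ := by
          rw [← Real.exp_add]
          apply Real.exp_le_exp.2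
          linarith
        have h5 : Real.exp δ ≤ 1 + 2 * δ := by
          have := Real.exp_bound_div_one_sub_of_interval hδ0
          have h6 := Real.abs_exp_sub_one_sub_id_le (x := δ) (by rw [abs_of_nonneg hδ0]; exact hδ1)
          have := (abs_le.1 h6).2
          nlinarith
        nlinarith
      have h4 : X - 2 * δ ≤ δ * S := by rw [hX]; linarith
      -- `p D S = δ S / A`
      have h5 : p * r * (D * (B - e)) * S = r * (B - e) * (δ * S) / A := by
        rw [hδ, ← hA]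
        field_simp
      rw [h5] at h1
      refine le_trans ?_ (sub_le_sub_right h1 _)
      have h6 : 0 ≤ B - e := by linarith
      have h7 : (1 - δ) * (B - e) * (X - 2 * δ) ≤ r * (B - e) * (δ * S) := by
        by_cases h8 : 0 ≤ X - 2 * δ
        · have h9 : 0 ≤ δ * S := by positivity
          have h10 : (1 - δ) * (B - e) ≤ r * (B - e) := by gcongr
          have h11 : 0 ≤ r * (B - e) := by positivity
          calc (1 - δ) * (B - e) * (X - 2 * δ) ≤ r * (B - e) * (X - 2 * δ) := by gcongr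
            _ ≤ _ := by gcongr
        · have h9 : (1 - δ) * (B - e) * (X - 2 * δ) ≤ 0 := by
            apply mul_nonpos_of_nonneg_of_nonpos
            · have : 0 ≤ 1 - δ := by linarith
              positivity
            · linarith
          refine h9.trans ?_
          have : 0 ≤ δ * S := by positivity
          positivity
      have h8 : (B - e) * X - 3 * δ ≤ (1 - δ) * (B - e) * (X - 2 * δ) := by
        have h9 : B - e ≤ 1 := by linarith
        nlinarith [mul_nonneg h6 hδ0, mul_nonneg (mul_nonneg h6 hδ0) hδ0, mul_nonneg (mul_nonneg h6 hδ0) (sub_nonneg.2 hX1)]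
      have h9 : ((B - e) * X - 3 * δ) / A ≤ r * (B - e) * (δ * S) / A := by
        gcongr
        linarith
      have h10 : X / A * B - e - 3 * δ ≤ ((B - e) * X - 3 * δ) / A := by
        rw [le_div_iff₀ hA0]
        have e1 : (X / A * B - e - 3 * δ) * A = X * B - e * A - 3 * δ * A := by
          field_simp
        rw [e1]
        nlinarith [mul_nonneg he (sub_nonneg.2 hX1)]
      nlinarith
  · -- upper bound
    obtain ⟨a, ha⟩ : ∃ a, a = min (B + e) 1 := ⟨_, rfl⟩
    have ha0 : 0 ≤ a := by rw [ha]; apply le_min <;> linarith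
    have ha1 : a ≤ 1 := by rw [ha]; exact min_le_right _ _
    have ha2 : a ≤ B + e := by rw [ha]; exact min_le_left _ _
    have h1 := blk_up H p hp hp1 T c hc β s a ha0 (U + 1) hU2 (by
      have : (U + 1) * M = U * M + M := by ring
      omega) (by
      intro x hx1 hx2
      have := (abs_le.1 (hβ x hx1 hx2)).2
      rw [ha]
      apply le_min
      · linarith
      · exact pr_le_one p hp hp1 κ G T β x x) (U + 1) 0 (by omega)
    rw [zero_mul, add_zero, hcardD, ← hr] at h1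
    obtain ⟨S, hS⟩ : ∃ S, S = ∑ j ∈ range (U + 1), r ^ j := ⟨_, rfl⟩
    have hS0 : 0 ≤ S := by rw [hS]; exact Finset.sum_nonneg fun _ _ => by positivity
    have hg := geo r δ hr0 hr1 (U + 1)
    rw [← hS] at h1 hg
    have h2 : δ * S ≤ (1 + δ) * (1 - r ^ (U + 1)) := by
      rw [← hg, ← mul_assoc]
      apply mul_le_mul_of_nonneg_right _ hS0
      have h3 : r ≤ Real.exp (-δ) := by
        have := hexpup 1
        simpa using this
      have h4 : Real.exp (-δ) * (1 + δ) ≤ 1 := by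
        have h5 := Real.add_one_le_exp δ
        calc Real.exp (-δ) * (1 + δ) ≤ Real.exp (-δ) * Real.exp δ := by gcongr; linarith
          _ = 1 := by rw [← Real.exp_add]; simp
      nlinarith
    have h3 : Real.exp (-lam) - δ * (3 + 2 * Λ) ≤ r ^ (U + 1) := by
      refine le_trans ?_ (hexplo (U + 1))
      push_cast
      have h4 : Real.exp (-lam) * Real.exp (-(δ * (3 + 2 * Λ))) ≤ Real.exp (-(δ * (U + 1)) * (1 + 2 * p)) := by
        rw [← Real.exp_add]
        apply Real.exp_le_exp.2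
        have h5 : δ * (U + 1) ≤ lam + δ := by linarith
        have h6 : δ * (U + 1) * (1 + 2 * p) ≤ (lam + δ) * (1 + 2 * δ) := by
          have h60 : (0 : ℝ) ≤ U := Nat.cast_nonneg U
          have : 0 ≤ δ * ((U : ℝ) + 1) := by positivity
          apply mul_le_mul h5 (by linarith) (by linarith) (by linarith)
        have h7 : (lam + δ) * (1 + 2 * δ) ≤ lam + δ * (3 + 2 * Λ) := by
          nlinarith [mul_nonneg hδ0 (sub_nonneg.2 hδ1), mul_nonneg hδ0 (sub_nonneg.2 hlamΛ)]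
        linarith
      refine le_trans ?_ h4
      have h5 := Real.add_one_le_exp (-(δ * (3 + 2 * Λ)))
      have h6 : 0 ≤ δ * (3 + 2 * Λ) := by positivity
      nlinarith
    have h4 : p * (D * a) * S = a * (δ * S) / A := by
      rw [hδ, ← hA]
      field_simp
    rw [h4] at h1
    have h5 : δ * S ≤ X + δ * (7 + 4 * Λ) := by
      refine h2.trans ?_
      have h6 : 1 - r ^ (U + 1) ≤ X + δ * (3 + 2 * Λ) := by rw [hX]; linarith
      have h7 : (1 + δ) * (1 - r ^ (U + 1)) ≤ (1 + δ) * (X + δ * (3 + 2 * Λ)) := by gcongr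
      refine h7.trans ?_
      have h8 : 0 ≤ δ * (3 + 2 * Λ) := by positivity
      nlinarith [mul_nonneg h8 (sub_nonneg.2 hδ1), mul_nonneg hδ0 (sub_nonneg.2 hX1)]
    have h6 : a * (δ * S) / A ≤ (B + e) * X / A + δ * (7 + 4 * Λ) := by
      rw [div_add' _ _ _ hA0.ne']
      gcongr
      calc a * (δ * S) ≤ a * (X + δ * (7 + 4 * Λ)) := by gcongr
        _ = a * X + a * (δ * (7 + 4 * Λ)) := by ring
        _ ≤ (B + e) * X + 1 * (δ * (7 + 4 * Λ)) := by gcongr
        _ ≤ _ := by nlinarith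
    have h7 : (B + e) * X / A ≤ X / A * B + e := by
      rw [div_le_iff₀ hA0]
      have e1 : (X / A * B + e) * A = X * B + e * A := by field_simp
      rw [e1]
      nlinarith [mul_nonneg he (sub_nonneg.2 hX1)]
    linarith

/-- **The probability of a pattern in the model.** -/
theorem model_est (H : Blk G κ cl M D) (p : ℝ) (hp : 0 ≤ p) (hp2 : p ≤ 1 / 2) (hcl : cl.Nonempty) (hD : 1 ≤ D)
    (δ Λ : ℝ) (hδ : δ = cl.card * D * p) (hδ1 : δ ≤ 1) (hΛ : 0 ≤ Λ) (T : ℕ) (β : List (ℕ × ℕ)) :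
    (∀ c ∈ β, c.2 ∈ cl ∧ c.1 * δ / M ≤ Λ) → ∀ s : ℕ, s + (β.map Prod.fst).sum + M * β.length ≤ T →
    |pr p κ G T β s s - (β.map (fun c => (1 - Real.exp (-(c.1 * δ / M))) / (cl.card : ℝ))).prod| ≤
      β.length * (δ * (7 + 4 * Λ)) := by
  have hδ0 : 0 ≤ δ := by rw [hδ]; positivity
  have hA1 : (1 : ℝ) ≤ cl.card := by exact_mod_cast hcl.card_pos
  have hMr : (0 : ℝ) < M := by exact_mod_cast H.hM
  induction β with
  | nil =>
    intro _ s _
    unfold pr
    rw [Ex_nil]
    simp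
  | cons c β ih =>
    intro hc s hs
    simp only [List.map_cons, List.sum_cons, List.length_cons, List.prod_cons] at hs ⊢
    have hfac : ∀ c' : ℕ × ℕ, 0 ≤ (1 - Real.exp (-(c'.1 * δ / M))) / (cl.card : ℝ) ∧
        (1 - Real.exp (-(c'.1 * δ / M))) / (cl.card : ℝ) ≤ 1 := by
      intro c'
      have h1 : Real.exp (-(c'.1 * δ / M)) ≤ 1 := Real.exp_le_one_iff.2 (by
        have : 0 ≤ (c'.1 : ℝ) * δ / M := by positivity
        linarith)
      have h2 := Real.exp_pos (-(c'.1 * δ / M))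
      refine ⟨div_nonneg (by linarith) (by linarith), ?_⟩
      rw [div_le_one (by linarith)]
      linarith
    have hB0 : 0 ≤ (β.map (fun c => (1 - Real.exp (-(c.1 * δ / M))) / (cl.card : ℝ))).prod := by
      apply List.prod_nonneg
      intro x hx
      rw [List.mem_map] at hx
      obtain ⟨c', _, rfl⟩ := hx
      exact (hfac c').1
    have hB1 : (β.map (fun c => (1 - Real.exp (-(c.1 * δ / M))) / (cl.card : ℝ))).prod ≤ 1 := by
      have : ∀ β' : List (ℕ × ℕ), 0 ≤ (β'.map (fun c => (1 - Real.exp (-(c.1 * δ / M))) / (cl.card : ℝ))).prod ∧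
          (β'.map (fun c => (1 - Real.exp (-(c.1 * δ / M))) / (cl.card : ℝ))).prod ≤ 1 := by
        intro β'
        induction β' with
        | nil => simp
        | cons c' β' ih' =>
          simp only [List.map_cons, List.prod_cons]
          exact ⟨mul_nonneg (hfac c').1 ih'.1, mul_le_one₀ (hfac c').2 ih'.1 ih'.2⟩
      exact (this β).2
    have h1 := one_step H p hp hp2 hcl hD δ Λ hδ hδ1 T c (hc c (by simp)).1 (hc c (by simp)).2 β s (by
      have : M * (β.length + 1) = M * β.length + M := by ring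
      omega) _ (β.length * (δ * (7 + 4 * Λ))) hB0 hB1 (by positivity) (by
        intro x _ hx2
        apply ih (fun c' hc' => hc c' (by simp [hc'])) x
        have : M * (β.length + 1) = M * β.length + M := by ring
        omega)
    refine h1.trans (le_of_eq ?_)
    push_cast
    ring

end

end Pool.Agent.V8H31.TP
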