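import Pool.Agent.V11146.MK.Lst

set_option autoImplicit false

/-!
# Comparison of a random set with a random thinning
-/

namespace Pool.Agent.V8H31.TP

open Finset Filter
open Pool.Agent.V11146.MK

/-- the expectation of `F` of a random sub-list: every element is kept with probability `p`, independently -/
noncomputable def Ex (p : ℝ) : List ℕ → (List ℕ → ℝ) → ℝ
  | [], F => F []
  | b :: L, F => (1 - p) * Ex p L F + p * Ex p L (fun t => F (b :: t))

lemma sub_smul (L : List ℕ) (c : ℝ) (G : List ℕ → ℝ) : sub L (fun t => c * G t) = c * sub L G := by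
  induction L generalizing G with
  | nil => rfl
  | cons b L ih =>
    simp only [sub]
    rw [ih, ih (fun t => G (b :: t))]
    ring

lemma Ex_eq (p : ℝ) (L : List ℕ) (F : List ℕ → ℝ) : Ex p L F = sub L (fun t => p ^ t.length * mu t F) := by
  induction L generalizing F with
  | nil => simp [Ex, sub, mu]
  | cons b L ih =>
    simp only [Ex, sub, mu, List.length_cons]
    rw [ih F, ih (fun t => F (b :: t))]
    have h : (fun t : List ℕ => p ^ (t.length + 1) * (mu t (fun t => F (b :: t)) - mu t F)) =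
        fun t => p * (p ^ t.length * mu t (fun t => F (b :: t))) - p * (p ^ t.length * mu t F) := by
      funext t
      ring
    rw [h, sub_sub, sub_smul, sub_smul]
    ring

lemma Ex_bound (p : ℝ) (hp : 0 ≤ p) (hp1 : p ≤ 1) (L : List ℕ) (F : List ℕ → ℝ) (hF : ∀ t, |F t| ≤ 1) :
    |Ex p L F| ≤ 1 := by
  induction L generalizing F with
  | nil => exact hF []
  | cons b L ih =>
    simp only [Ex]
    have h1 := ih F hF
    have h2 := ih (fun t => F (b :: t)) (fun t => hF _)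
    rw [abs_le] at h1 h2 ⊢
    constructor <;> nlinarith [h1.1, h1.2, h2.1, h2.2]

lemma Ex_nonneg (p : ℝ) (hp : 0 ≤ p) (hp1 : p ≤ 1) (L : List ℕ) (F : List ℕ → ℝ) (hF : ∀ t, 0 ≤ F t) :
    0 ≤ Ex p L F := by
  induction L generalizing F with
  | nil => exact hF []
  | cons b L ih =>
    simp only [Ex]
    have h1 := ih F hF
    have h2 := ih (fun t => F (b :: t)) (fun t => hF _)
    have h3 : 0 ≤ 1 - p := by linarith
    positivity

/-- the exact expansion of the expectation -/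
lemma Ex_expand (p : ℝ) (B : Finset ℕ) (F : List ℕ → ℝ) :
    Ex p (res id B) F = ∑ H ∈ B.powerset, p ^ H.card * mu (res id H) F := by
  rw [Ex_eq, ← sum_powerset_res]
  apply Finset.sum_congr rfl
  intro H _
  rw [res_length]

lemma mu_res_bound (H : Finset ℕ) (F : List ℕ → ℝ) (hF : ∀ t, |F t| ≤ 1) : |mu (res id H) F| ≤ 2 ^ H.card := by
  have := mu_bound (res id H) F hF
  rwa [res_length] at this

/-- the truncated expansion of the expectation -/
lemma Ex_trunc (p x0 : ℝ) (hp : 0 ≤ p) (J : ℕ) (B : Finset ℕ) (hB : B.card * p ≤ x0) (F : List ℕ → ℝ)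
    (hF : ∀ t, |F t| ≤ 1) :
    |Ex p (res id B) F - ∑ j ∈ range (J + 1), ∑ H ∈ powersetCard j B, p ^ j * mu (res id H) F| ≤
      Real.exp (4 * x0) * (1 / 2) ^ J := by
  obtain ⟨n, hn⟩ : ∃ n, n = B.card := ⟨_, rfl⟩
  have hx0 : 0 ≤ x0 := le_trans (by positivity) hB
  have h0 : Ex p (res id B) F = ∑ j ∈ range (n + 1), ∑ H ∈ powersetCard j B, p ^ j * mu (res id H) F := by
    rw [Ex_expand, Finset.sum_powerset, hn]
    apply Finset.sum_congr rfl
    intro j _
    apply Finset.sum_congr rfl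
    intro H hH
    rw [(mem_powersetCard.1 hH).2]
  have hterm : ∀ j, |∑ H ∈ powersetCard j B, p ^ j * mu (res id H) F| ≤ Real.exp (4 * x0) * (1 / 2) ^ j := by
    intro j
    refine (Finset.abs_sum_le_sum_abs _ _).trans ?_
    have h1 : ∀ H ∈ powersetCard j B, |p ^ j * mu (res id H) F| ≤ p ^ j * 2 ^ j := by
      intro H hH
      rw [abs_mul, abs_of_nonneg (pow_nonneg hp j)]
      apply mul_le_mul_of_nonneg_left _ (pow_nonneg hp j)
      have := mu_res_bound H F hF
      rwa [(mem_powersetCard.1 hH).2] at this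
    refine (Finset.sum_le_card_nsmul _ _ _ h1).trans ?_
    rw [card_powersetCard, nsmul_eq_mul, ← hn]
    have h2 : (n.choose j : ℝ) ≤ (n : ℝ) ^ j / j.factorial := Nat.choose_le_pow_div j n
    rw [← hn] at hB
    have hnp : 0 ≤ (n : ℝ) * p := by positivity
    calc (n.choose j : ℝ) * (p ^ j * 2 ^ j) ≤ (n : ℝ) ^ j / j.factorial * (p ^ j * 2 ^ j) := by gcongr
      _ = (4 * (n * p)) ^ j / j.factorial * (1 / 2) ^ j := by
          rw [mul_pow, mul_pow, show (4 : ℝ) = 2 * 2 by norm_num, mul_pow, one_div, inv_pow]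
          field_simp
      _ ≤ Real.exp (4 * (n * p)) * (1 / 2) ^ j := by
          gcongr
          exact Real.pow_div_factorial_le_exp _ (by positivity) j
      _ ≤ Real.exp (4 * x0) * (1 / 2) ^ j := by gcongr
  rcases Nat.lt_or_ge J n with h | h
  · obtain ⟨d, hd⟩ : ∃ d, n = J + d := ⟨n - J, by omega⟩
    rw [h0, hd, show J + d + 1 = (J + 1) + d by ring, Finset.sum_range_add, add_sub_cancel_left]
    refine (Finset.abs_sum_le_sum_abs _ _).trans ?_
    refine (Finset.sum_le_sum fun j _ => hterm (J + 1 + j)).trans ?_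
    rw [← Finset.mul_sum]
    apply mul_le_mul_of_nonneg_left _ (Real.exp_pos _).le
    have h3 : ∀ j ∈ range d, ((1 : ℝ) / 2) ^ (J + 1 + j) = (1 / 2) ^ (J + 1) * (1 / 2) ^ j := by
      intro j _
      rw [pow_add]
    rw [Finset.sum_congr rfl h3, ← Finset.mul_sum]
    have h4 : ∑ j ∈ range d, ((1 : ℝ) / 2) ^ j ≤ 2 := by
      have := geom_sum_eq (show (1 : ℝ) / 2 ≠ 1 by norm_num) d
      rw [this]
      have h5 : (0 : ℝ) ≤ (1 / 2) ^ d := by positivity
      rw [div_le_iff_of_neg (by norm_num)]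
      linarith
    calc ((1 : ℝ) / 2) ^ (J + 1) * ∑ j ∈ range d, ((1 : ℝ) / 2) ^ j ≤ (1 / 2) ^ (J + 1) * 2 := by gcongr
      _ = (1 / 2) ^ J := by rw [pow_succ]; ring
  · have h1 : ∑ j ∈ range (J + 1), ∑ H ∈ powersetCard j B, p ^ j * mu (res id H) F = Ex p (res id B) F := by
      rw [h0]
      symm
      apply Finset.sum_subset
      · intro j hj
        rw [mem_range] at hj ⊢
        omega
      · intro j _ hj
        rw [mem_range, not_lt] at hj
        rw [Finset.powersetCard_eq_empty.2 (by omega), Finset.sum_empty]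
    rw [h1, sub_self, abs_zero]
    positivity

/-- the truncated expansion of `F` -/
lemma F_trunc (J : ℕ) (Ω : Finset ℕ) (F : List ℕ → ℝ) (hF : ∀ t, |F t| ≤ 1) :
    |F (res id Ω) - ∑ j ∈ range (J + 1), ∑ H ∈ powersetCard j Ω, mu (res id H) F| ≤
      2 * (3 ^ (J + 1) * (Ω.card.choose (J + 1) : ℝ)) := by
  obtain ⟨n, hn⟩ : ∃ n, n = Ω.card := ⟨_, rfl⟩
  have h0 : F (res id Ω) = ∑ j ∈ range (n + 1), ∑ H ∈ powersetCard j Ω, mu (res id H) F := by
    rw [← sub_mu (res id Ω) F, ← sum_powerset_res, Finset.sum_powerset, hn]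
  rw [← hn]
  rcases Nat.lt_or_ge J n with h | h
  · have h1 : |∑ j ∈ range (J + 1), ∑ H ∈ powersetCard j Ω, mu (res id H) F| ≤
        ∑ j ∈ range (J + 1), (n.choose j : ℝ) * 2 ^ j := by
      refine (Finset.abs_sum_le_sum_abs _ _).trans ?_
      apply Finset.sum_le_sum
      intro j _
      refine (Finset.abs_sum_le_sum_abs _ _).trans ?_
      have h2 : ∀ H ∈ powersetCard j Ω, |mu (res id H) F| ≤ 2 ^ j := by
        intro H hH
        have := mu_res_bound H F hF
        rwa [(mem_powersetCard.1 hH).2] at this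
      refine (Finset.sum_le_card_nsmul _ _ _ h2).trans (le_of_eq ?_)
      rw [card_powersetCard, nsmul_eq_mul, ← hn]
    have h3 := trunc_bound n J h
    have h4 := hF (res id Ω)
    have h6 : (1 : ℝ) ≤ ∑ j ∈ range (J + 1), (n.choose j : ℝ) * 2 ^ j := by
      have : (n.choose 0 : ℝ) * 2 ^ 0 ≤ ∑ j ∈ range (J + 1), (n.choose j : ℝ) * 2 ^ j :=
        Finset.single_le_sum (f := fun j => (n.choose j : ℝ) * 2 ^ j) (fun j _ => by positivity)
          (mem_range.2 (by omega))
      simpa using this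
    rw [abs_le] at h1 h4 ⊢
    constructor <;> linarith [h1.1, h1.2, h4.1, h4.2]
  · have h1 : ∑ j ∈ range (J + 1), ∑ H ∈ powersetCard j Ω, mu (res id H) F = F (res id Ω) := by
      rw [h0]
      symm
      apply Finset.sum_subset
      · intro j hj
        rw [mem_range] at hj ⊢
        omega
      · intro j _ hj
        rw [mem_range, not_lt] at hj
        rw [Finset.powersetCard_eq_empty.2 (by omega), Finset.sum_empty]
    rw [h1, sub_self, abs_zero]
    positivity

open Classical in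
/-- exchange of the sums -/
lemma swap (Om : Finset ℕ) (Ω : ℕ → Finset ℕ) (X : Finset ℕ) (hX : ∀ g ∈ Om, Ω g ⊆ X) (j : ℕ)
    (G : Finset ℕ → ℝ) :
    ∑ g ∈ Om, ∑ H ∈ powersetCard j (Ω g), G H =
      ∑ H ∈ powersetCard j X, G H * ((Om.filter (fun g => H ⊆ Ω g)).card : ℝ) := by
  have h1 : ∀ g ∈ Om, ∑ H ∈ powersetCard j (Ω g), G H =
      ∑ H ∈ powersetCard j X, if H ⊆ Ω g then G H else 0 := by
    intro g hg
    rw [← Finset.sum_filter]
    apply Finset.sum_congr _ fun _ _ => rfl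
    ext H
    rw [mem_filter, mem_powersetCard, mem_powersetCard]
    constructor
    · rintro ⟨h2, h3⟩
      exact ⟨⟨h2.trans (hX g hg), h3⟩, h2⟩
    · rintro ⟨⟨_, h3⟩, h2⟩
      exact ⟨h2, h3⟩
  rw [Finset.sum_congr rfl h1, Finset.sum_comm]
  apply Finset.sum_congr rfl
  intro H _
  rw [← Finset.sum_filter, Finset.sum_const, nsmul_eq_mul, mul_comm]

open Classical in
/-- **Comparison with a random thinning.** -/
theorem cmp (x0 ε : ℝ) (hx0 : 0 ≤ x0) (hε : 0 < ε) :
    ∃ (J : ℕ) (η : ℝ), 0 < η ∧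
    ∀ (Om R : Finset ℕ) (Ω B : ℕ → Finset ℕ) (X : Finset ℕ) (κ p N : ℝ), 0 ≤ κ → 0 ≤ p → 0 ≤ N →
      (∀ g ∈ Om, Ω g ⊆ X) → (∀ m ∈ R, B m ⊆ X) → κ * R.card ≤ N → (∀ m ∈ R, (B m).card * p ≤ x0) →
      (∀ j ≤ J, ∑ H ∈ powersetCard j X, |((Om.filter (fun g => H ⊆ Ω g)).card : ℝ) -
        κ * p ^ j * ((R.filter (fun m => H ⊆ B m)).card : ℝ)| ≤ η * N) →
      ∀ F : List ℕ → ℝ, (∀ t, |F t| ≤ 1) →
        |∑ g ∈ Om, F (res id (Ω g)) - κ * ∑ m ∈ R, Ex p (res id (B m)) F| ≤ ε * N := by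
  have hten : Tendsto (fun n : ℕ => (3 * x0) ^ n / (n.factorial : ℝ)) atTop (nhds 0) :=
    FloorSemiring.tendsto_pow_div_factorial_atTop (3 * x0)
  have hten2 : Tendsto (fun n : ℕ => ((1 : ℝ) / 2) ^ n) atTop (nhds 0) :=
    tendsto_pow_atTop_nhds_zero_of_lt_one (by norm_num) (by norm_num)
  obtain ⟨E, hE⟩ : ∃ E : ℝ, E = Real.exp (4 * x0) := ⟨_, rfl⟩
  have hE0 : 0 < E := by rw [hE]; exact Real.exp_pos _
  have hev := ((hten.eventually (gt_mem_nhds (show (0 : ℝ) < ε / 16 by positivity))).and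
    (hten2.eventually (gt_mem_nhds (show (0 : ℝ) < ε / (16 * E) by positivity)))).and
    (eventually_ge_atTop 1)
  obtain ⟨J', ⟨hJ1, hJ3⟩, hJ2⟩ := hev.exists
  obtain ⟨J, rfl⟩ : ∃ J, J' = J + 1 := ⟨J' - 1, by omega⟩
  have hJ3' : E * (1 / 2) ^ J ≤ ε / 8 := by
    rw [pow_succ, lt_div_iff₀ (by positivity)] at hJ3
    nlinarith
  obtain ⟨C1, hC1⟩ : ∃ B : ℝ, B = ∑ j ∈ range (J + 1), (2 : ℝ) ^ j := ⟨_, rfl⟩
  have hC10 : 0 ≤ C1 := by rw [hC1]; exact Finset.sum_nonneg fun _ _ => by positivity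
  obtain ⟨C2, hC2⟩ : ∃ B : ℝ, B = 2 * 3 ^ (J + 1) := ⟨_, rfl⟩
  have hC20 : 0 ≤ C2 := by rw [hC2]; positivity
  refine ⟨J + 1, ε / (2 * (C1 + C2 + 1)), by positivity, ?_⟩
  intro Om R Ω B X κ p N hκ hp hN hOm hR hκN hBx hmom F hF
  obtain ⟨η, hη⟩ : ∃ η : ℝ, η = ε / (2 * (C1 + C2 + 1)) := ⟨_, rfl⟩
  rw [← hη] at hmom
  have hη0 : 0 < η := by rw [hη]; positivity
  have hηC : η * (C1 + C2) ≤ ε / 2 := by
    rw [hη, div_mul_eq_mul_div, div_le_div_iff₀ (by positivity) (by norm_num)]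
    nlinarith
  -- the moments
  obtain ⟨m, hm⟩ : ∃ m : Finset ℕ → ℝ, m = fun H => ((Om.filter (fun g => H ⊆ Ω g)).card : ℝ) := ⟨_, rfl⟩
  obtain ⟨m', hm'⟩ : ∃ m' : Finset ℕ → ℝ, m' = fun H => ((R.filter (fun g => H ⊆ B g)).card : ℝ) := ⟨_, rfl⟩
  have hmom' : ∀ j ≤ J + 1, ∑ H ∈ powersetCard j X, |m H - κ * p ^ j * m' H| ≤ η * N := by
    intro j hj
    rw [hm, hm']
    exact hmom j hj
  -- the next moment
  have hnext : ∑ H ∈ powersetCard (J + 1) X, m H ≤ N * (x0 ^ (J + 1) / (J + 1).factorial) + η * N := by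
    have h1 : ∑ H ∈ powersetCard (J + 1) X, m H ≤
        ∑ H ∈ powersetCard (J + 1) X, (|m H - κ * p ^ (J + 1) * m' H| + κ * p ^ (J + 1) * m' H) := by
      apply Finset.sum_le_sum
      intro H _
      have := le_abs_self (m H - κ * p ^ (J + 1) * m' H)
      linarith
    rw [Finset.sum_add_distrib] at h1
    have h2 : ∑ H ∈ powersetCard (J + 1) X, κ * p ^ (J + 1) * m' H =
        κ * ∑ g ∈ R, p ^ (J + 1) * ((B g).card.choose (J + 1) : ℝ) := by
      have h3 := swap R B X hR (J + 1) (fun _ => κ * p ^ (J + 1))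
      rw [hm']
      rw [← h3, Finset.mul_sum]
      apply Finset.sum_congr rfl
      intro g _
      rw [Finset.sum_const, card_powersetCard, nsmul_eq_mul]
      ring
    have h4 : ∑ g ∈ R, p ^ (J + 1) * ((B g).card.choose (J + 1) : ℝ) ≤ R.card * (x0 ^ (J + 1) / (J + 1).factorial) := by
      have h5 : ∀ g ∈ R, p ^ (J + 1) * ((B g).card.choose (J + 1) : ℝ) ≤ x0 ^ (J + 1) / (J + 1).factorial := by
        intro g hg
        have h6 : ((B g).card.choose (J + 1) : ℝ) ≤ ((B g).card : ℝ) ^ (J + 1) / (J + 1).factorial :=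
          Nat.choose_le_pow_div (J + 1) (B g).card
        calc p ^ (J + 1) * ((B g).card.choose (J + 1) : ℝ) ≤
            p ^ (J + 1) * (((B g).card : ℝ) ^ (J + 1) / (J + 1).factorial) := by gcongr
          _ = ((B g).card * p) ^ (J + 1) / (J + 1).factorial := by rw [mul_pow]; ring
          _ ≤ x0 ^ (J + 1) / (J + 1).factorial := by
              gcongr
              exact hBx g hg
      refine (Finset.sum_le_card_nsmul _ _ _ h5).trans (le_of_eq ?_)
      rw [nsmul_eq_mul]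
    have h7 : κ * ∑ g ∈ R, p ^ (J + 1) * ((B g).card.choose (J + 1) : ℝ) ≤ N * (x0 ^ (J + 1) / (J + 1).factorial) := by
      calc κ * ∑ g ∈ R, p ^ (J + 1) * ((B g).card.choose (J + 1) : ℝ) ≤
          κ * (R.card * (x0 ^ (J + 1) / (J + 1).factorial)) := by gcongr
        _ = (κ * R.card) * (x0 ^ (J + 1) / (J + 1).factorial) := by ring
        _ ≤ _ := by gcongr
    have h8 := hmom' (J + 1) le_rfl
    linarith
  -- the random set
  have h1 : |∑ g ∈ Om, F (res id (Ω g)) - ∑ j ∈ range (J + 1), ∑ H ∈ powersetCard j X, mu (res id H) F * m H| ≤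
      2 * 3 ^ (J + 1) * ∑ H ∈ powersetCard (J + 1) X, m H := by
    have e1 : ∑ j ∈ range (J + 1), ∑ H ∈ powersetCard j X, mu (res id H) F * m H =
        ∑ g ∈ Om, ∑ j ∈ range (J + 1), ∑ H ∈ powersetCard j (Ω g), mu (res id H) F := by
      rw [Finset.sum_comm]
      apply Finset.sum_congr rfl
      intro j _
      rw [swap Om Ω X hOm j (fun H => mu (res id H) F), hm]
    have e2 : ∑ H ∈ powersetCard (J + 1) X, m H = ∑ g ∈ Om, ((Ω g).card.choose (J + 1) : ℝ) := by
      have h3 := swap Om Ω X hOm (J + 1) (fun _ => 1)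
      simp only [one_mul, Finset.sum_const, card_powersetCard, nsmul_eq_mul, mul_one] at h3
      rw [hm]
      exact h3.symm
    rw [e1, e2, ← Finset.sum_sub_distrib, Finset.mul_sum]
    refine (Finset.abs_sum_le_sum_abs _ _).trans ?_
    apply Finset.sum_le_sum
    intro g _
    refine (F_trunc J (Ω g) F hF).trans (le_of_eq ?_)
    ring
  -- the model
  have h2 : |κ * ∑ g ∈ R, Ex p (res id (B g)) F -
      ∑ j ∈ range (J + 1), ∑ H ∈ powersetCard j X, mu (res id H) F * (κ * p ^ j * m' H)| ≤ N * (E * (1 / 2) ^ J) := by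
    have e1 : ∑ j ∈ range (J + 1), ∑ H ∈ powersetCard j X, mu (res id H) F * (κ * p ^ j * m' H) =
        κ * ∑ g ∈ R, ∑ j ∈ range (J + 1), ∑ H ∈ powersetCard j (B g), p ^ j * mu (res id H) F := by
      rw [Finset.sum_comm, Finset.mul_sum]
      apply Finset.sum_congr rfl
      intro j _
      rw [swap R B X hR j (fun H => p ^ j * mu (res id H) F), hm', Finset.mul_sum]
      apply Finset.sum_congr rfl
      intro H _
      ring
    rw [e1, ← mul_sub, ← Finset.sum_sub_distrib, abs_mul, abs_of_nonneg hκ]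
    have h3 : |∑ g ∈ R, (Ex p (res id (B g)) F -
        ∑ j ∈ range (J + 1), ∑ H ∈ powersetCard j (B g), p ^ j * mu (res id H) F)| ≤ R.card * (E * (1 / 2) ^ J) := by
      refine (Finset.abs_sum_le_sum_abs _ _).trans ?_
      refine (Finset.sum_le_card_nsmul _ _ _ (fun g hg => ?_)).trans (le_of_eq (nsmul_eq_mul _ _))
      rw [hE]
      exact Ex_trunc p x0 hp J (B g) (hBx g hg) F hF
    calc κ * |∑ g ∈ R, (Ex p (res id (B g)) F -
        ∑ j ∈ range (J + 1), ∑ H ∈ powersetCard j (B g), p ^ j * mu (res id H) F)| ≤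
        κ * (R.card * (E * (1 / 2) ^ J)) := by gcongr
      _ = (κ * R.card) * (E * (1 / 2) ^ J) := by ring
      _ ≤ _ := by gcongr
  -- the main terms
  have h3 : |∑ j ∈ range (J + 1), ∑ H ∈ powersetCard j X, mu (res id H) F * m H -
      ∑ j ∈ range (J + 1), ∑ H ∈ powersetCard j X, mu (res id H) F * (κ * p ^ j * m' H)| ≤ C1 * (η * N) := by
    rw [← Finset.sum_sub_distrib, hC1, Finset.sum_mul]
    refine (Finset.abs_sum_le_sum_abs _ _).trans ?_
    apply Finset.sum_le_sum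
    intro j hj
    rw [mem_range] at hj
    rw [← Finset.sum_sub_distrib]
    refine (Finset.abs_sum_le_sum_abs _ _).trans ?_
    calc ∑ H ∈ powersetCard j X, |mu (res id H) F * m H - mu (res id H) F * (κ * p ^ j * m' H)| ≤
        ∑ H ∈ powersetCard j X, 2 ^ j * |m H - κ * p ^ j * m' H| := by
          apply Finset.sum_le_sum
          intro H hH
          rw [← mul_sub, abs_mul]
          apply mul_le_mul_of_nonneg_right _ (abs_nonneg _)
          have := mu_res_bound H F hF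
          rwa [(mem_powersetCard.1 hH).2] at this
      _ = 2 ^ j * ∑ H ∈ powersetCard j X, |m H - κ * p ^ j * m' H| := by rw [Finset.mul_sum]
      _ ≤ 2 ^ j * (η * N) := by
          apply mul_le_mul_of_nonneg_left (hmom' j (by omega)) (by positivity)
  have h4 : 2 * 3 ^ (J + 1) * ∑ H ∈ powersetCard (J + 1) X, m H ≤ N * (ε / 8) + C2 * (η * N) := by
    calc 2 * 3 ^ (J + 1) * ∑ H ∈ powersetCard (J + 1) X, m H ≤
        2 * 3 ^ (J + 1) * (N * (x0 ^ (J + 1) / (J + 1).factorial) + η * N) := by gcongr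
      _ = N * (2 * ((3 * x0) ^ (J + 1) / (J + 1).factorial)) + C2 * (η * N) := by
          rw [hC2, mul_pow]
          ring
      _ ≤ N * (2 * (ε / 16)) + C2 * (η * N) := by gcongr
      _ = _ := by ring
  have h5 : N * (E * (1 / 2) ^ J) ≤ N * (ε / 8) := by gcongr
  have h6 : (C1 + C2) * (η * N) ≤ ε / 2 * N := by
    calc (C1 + C2) * (η * N) = η * (C1 + C2) * N := by ring
      _ ≤ ε / 2 * N := by gcongr
  have h7 : 0 ≤ ε * N := by positivity
  rw [abs_le] at h1 h2 h3 ⊢
  constructor <;> linarith [h1.1, h1.2, h2.1, h2.2, h3.1, h3.2]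

end Pool.Agent.V8H31.TP
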