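import Pool.Agent.V11146.MK.Count
import Pool.Agent.V8H31.TP.Lst

set_option autoImplicit false

/-!
# The singular series is `L¹`-close to its small prime part
-/

namespace Pool.Agent.V8H31.TP

open Finset Filter
open Pool.Agent.W123.RP Pool.Agent.H373R2.T7 Pool.Agent.W123.RU Pool.Agent.TH464.PO
open Pool.Agent.Y879.PR Pool.Agent.V11146.MK

open Classical in
/-- the shifts whose class is not sifted -/
noncomputable def Xs (Q : ℕ → ℕ → Prop) (l a T : ℕ) : Finset ℕ :=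
  (Icc 1 T).filter (fun h => (a + h) % l ∈ cls Q l)

open Classical in
lemma sum_X (Q : ℕ → ℕ → Prop) (l a T j : ℕ) (f : Finset ℕ → ℝ) :
    ∑ H ∈ powersetCard j (Xs Q l a T), f H = ∑ t ∈ Ls (cls Q l) j,
      ∑ H ∈ (powersetCard t.length (Icc 1 T)).filter (fun H => res (fun h => (a + h) % l) H = t), f H := by
  have h1 : ∀ t ∈ Ls (cls Q l) j,
      (powersetCard t.length (Icc 1 T)).filter (fun H => res (fun h => (a + h) % l) H = t) =
      (powersetCard j (Xs Q l a T)).filter (fun H => res (fun h => (a + h) % l) H = t) := by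
    intro t ht
    rw [mem_Ls] at ht
    ext H
    rw [mem_filter, mem_filter, mem_powersetCard, mem_powersetCard, ht.1]
    constructor
    · rintro ⟨⟨h2, h3⟩, h4⟩
      refine ⟨⟨?_, h3⟩, h4⟩
      intro h hh
      unfold Xs
      rw [mem_filter]
      refine ⟨h2 hh, ht.2 _ ?_⟩
      rw [← h4, mem_res]
      exact ⟨h, hh, rfl⟩
    · rintro ⟨⟨h2, h3⟩, h4⟩
      exact ⟨⟨h2.trans (filter_subset _ _), h3⟩, h4⟩
  have h0 : ∑ t ∈ Ls (cls Q l) j,
      ∑ H ∈ (powersetCard t.length (Icc 1 T)).filter (fun H => res (fun h => (a + h) % l) H = t), f H =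
      ∑ t ∈ Ls (cls Q l) j,
      ∑ H ∈ (powersetCard j (Xs Q l a T)).filter (fun H => res (fun h => (a + h) % l) H = t), f H := by
    apply Finset.sum_congr rfl
    intro t ht
    rw [h1 t ht]
  rw [h0]
  symm
  apply Finset.sum_fiberwise_of_maps_to
  intro H hH
  rw [mem_powersetCard] at hH
  rw [mem_Ls, res_length]
  refine ⟨hH.2, ?_⟩
  intro b hb
  obtain ⟨h, hh, rfl⟩ := (mem_res _ H b).1 hb
  exact (mem_filter.1 (hH.1 hh)).2

lemma SL_sum (Q : ℕ → ℕ → Prop) (l a y T j : ℕ) :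
    ∑ H ∈ powersetCard j (Xs Q l a T), Vq (QB Q l a H) y = ∑ t ∈ Ls (cls Q l) j, SL Q l a y T t := by
  rw [sum_X]
  rfl

lemma X_sub (Q : ℕ → ℕ → Prop) (l a T : ℕ) : Xs Q l a T ⊆ Icc 1 T := by
  unfold Xs
  exact filter_subset _ _

/-- the termwise lower bound -/
lemma term_lo (Q : ℕ → ℕ → Prop) (c : ℕ) (hQ : PerB Q c) (l a w y T j : ℕ) (η : ℝ) (hη : 0 < η) (hlw : l ≤ w)
    (hwy : w ≤ y) (hw1 : 1 ≤ w) (hw2 : 2 * ((j + 1) * c) ≤ w) (hw3 : (((j + 1) * c : ℕ) : ℝ) ^ 2 / η ≤ w)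
    (H : Finset ℕ) (hH : H ∈ powersetCard j (Icc 1 T)) :
    Vt Q w y ^ (j + 1) * (1 - η) * Vq (QB Q l a H) w ≤ Vq (QB Q l a H) y := by
  rw [mem_powersetCard] at hH
  rw [Vq_split (QB Q l a H) w y hwy, mul_comm]
  apply mul_le_mul_of_nonneg_left _ (Vq_nonneg _ _)
  have h0 : (0 : ℕ) ∉ H := fun h => by
    have := mem_Icc.1 (hH.1 h)
    omega
  have hcard : (insert 0 H).card = j + 1 := by
    rw [card_insert_of_notMem h0, hH.2]
  have h2 := tail_lo Q c hQ (insert 0 H) w y hw1 (by rw [hcard]; omega)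
  rw [hcard] at h2
  have h3 : Vt (QB Q l a H) w y = Vt (QH Q (insert 0 H)) w y := by
    unfold Vt
    apply Finset.prod_congr rfl
    intro p hp
    rw [mem_filter] at hp
    rw [nuB_QB_ne Q l a H p (by omega)]
  rw [h3]
  refine le_trans ?_ h2
  apply mul_le_mul_of_nonneg_left _ (pow_nonneg (Vt_nonneg Q w y) _)
  have hwr : (0 : ℝ) < w := by exact_mod_cast hw1
  rw [div_le_iff₀ hη] at hw3
  have : (((j + 1) * c : ℕ) : ℝ) ^ 2 / w ≤ η := by
    rw [div_le_iff₀ hwr]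
    linarith
  linarith

open Classical in
/-- **The singular series is `L¹`-close to its small prime part.** -/
theorem LOne (c j l : ℕ) (hl : l.Prime) (η : ℝ) (hη : 0 < η) (hη1 : η ≤ 1) :
    ∃ (w0 : ℕ) (η' : ℝ), 0 < η' ∧ l ≤ w0 ∧ ∀ w : ℕ, w0 ≤ w → ∃ T0 : ℕ, ∀ T : ℕ, T0 ≤ T →
      ∀ Q : ℕ → ℕ → Prop, PerB Q c → (∀ p : ℕ, p.Prime → nuB Q p < p) → ∀ y : ℕ, w ≤ y →
      (∀ T' : ℕ, T ≤ 2 * T' → T' ≤ 2 * T →
        ∀ t ∈ Icc 1 T', ((((pz y).filter (fun p : ℕ => T' < p ∧ CoG Q p t)).card : ℕ) : ℝ) ≤ η' * T') →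
      ∀ a ∈ cls Q l,
        ∑ H ∈ powersetCard j (Xs Q l a T), |Vq (QB Q l a H) y - Vt Q w y ^ (j + 1) * Vq (QB Q l a H) w| ≤
          η * (Vq Q y * ((T * Vq Q y) ^ j / j.factorial)) ∧
        ∑ H ∈ powersetCard j (Xs Q l a T), Vq (QB Q l a H) y ≤
          2 * (Vq Q y * ((T * Vq Q y) ^ j / j.factorial)) := by
  have hl0 : (0 : ℝ) < (l : ℝ) ^ j := by
    have := hl.pos
    positivity
  have hl1 : (1 : ℝ) ≤ (l : ℝ) ^ j := one_le_pow₀ (by exact_mod_cast hl.pos)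
  obtain ⟨w1, η', T1, hη', hlw1, hmark⟩ := mark_avg c j l hl (η / (8 * l ^ j)) (by positivity) (by
    rw [div_le_one (by positivity)]
    linarith)
  obtain ⟨w2, hw2⟩ : ∃ w2 : ℕ, (((j + 1) * c : ℕ) : ℝ) ^ 2 / (η / 8) ≤ w2 := exists_nat_ge _
  refine ⟨w1 + w2 + 2 * ((j + 1) * c) + 1, η', hη', by omega, ?_⟩
  intro w hw
  have hlw : l ≤ w := by omega
  obtain ⟨T2, hsmall⟩ := small_mark j w l hl hlw (η / 8) (by positivity)
  refine ⟨T1 + T2, ?_⟩
  intro T hT Q hQ hadm y hwy hlarge a ha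
  have hAcard : 0 < (cls Q l).card := Finset.card_pos.2 ⟨a, ha⟩
  obtain ⟨A, hA⟩ : ∃ A : ℝ, A = ((cls Q l).card : ℝ) := ⟨_, rfl⟩
  have hA0 : 0 < A := by rw [hA]; exact_mod_cast hAcard
  have hA1 : 1 ≤ A := by rw [hA]; exact_mod_cast hAcard
  have hAl : A ≤ l := by
    rw [hA]
    have := card_cls Q l
    exact_mod_cast (by omega : (cls Q l).card ≤ l)
  obtain ⟨m, hm⟩ : ∃ m : ℝ, m = Vq Q y * ((T * Vq Q y) ^ j / j.factorial) := ⟨_, rfl⟩
  have hm0 : 0 ≤ m := by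
    rw [hm]
    have := Vq_nonneg Q y
    positivity
  obtain ⟨R, hR⟩ : ∃ R, R = Vt Q w y ^ (j + 1) := ⟨_, rfl⟩
  have hR0 : 0 ≤ R := by rw [hR]; exact pow_nonneg (Vt_nonneg Q w y) _
  obtain ⟨Sy, hSy⟩ : ∃ S, S = ∑ H ∈ powersetCard j (Xs Q l a T), Vq (QB Q l a H) y := ⟨_, rfl⟩
  obtain ⟨Sw, hSw⟩ : ∃ S, S = ∑ H ∈ powersetCard j (Xs Q l a T), Vq (QB Q l a H) w := ⟨_, rfl⟩
  have hV : Vq Q y = Vq Q w * Vt Q w y := Vq_split Q w y hwy
  -- the large level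
  have h1 : Sy ≤ m / A + η / 8 * m := by
    rw [hSy, SL_sum]
    have h2 : ∀ t ∈ Ls (cls Q l) j, SL Q l a y T t ≤ m / A ^ (j + 1) + η / (8 * l ^ j) * m := by
      intro t ht
      have := (abs_le.1 (hmark T (by omega) Q hQ hadm y (by omega) hlarge a ha t ht)).2
      rw [← hm, ← hA] at this
      linarith
    refine (Finset.sum_le_card_nsmul _ _ _ h2).trans ?_
    rw [card_Ls, nsmul_eq_mul]
    push_cast
    rw [← hA, mul_add]
    have e1 : A ^ j * (m / A ^ (j + 1)) = m / A := by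
      rw [pow_succ]
      field_simp
    have e2 : A ^ j * (η / (8 * l ^ j) * m) ≤ η / 8 * m := by
      have h3 : A ^ j ≤ (l : ℝ) ^ j := pow_le_pow_left₀ hA0.le hAl j
      calc A ^ j * (η / (8 * l ^ j) * m) ≤ (l : ℝ) ^ j * (η / (8 * l ^ j) * m) := by gcongr
        _ = η / 8 * m := by field_simp
    linarith
  -- the small level
  have h2 : (1 - η / 8) * (m / A) ≤ R * Sw := by
    have h3 : A ^ j * ((1 - η / 8) * ((Vq Q w / A) ^ (j + 1) * ((T : ℝ) ^ j / j.factorial))) ≤ Sw := by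
      rw [hSw, SL_sum]
      have h4 : ∀ t ∈ Ls (cls Q l) j,
          (1 - η / 8) * ((Vq Q w / A) ^ (j + 1) * ((T : ℝ) ^ j / j.factorial)) ≤ SL Q l a w T t := by
        intro t ht
        have := hsmall T (by omega) Q c hQ hadm a ha t ht
        rwa [← hA] at this
      have h5 := Finset.card_nsmul_le_sum _ _ _ h4
      rw [card_Ls, nsmul_eq_mul] at h5
      push_cast at h5
      rwa [← hA] at h5
    have h6 := mul_le_mul_of_nonneg_left h3 hR0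
    refine le_trans (le_of_eq ?_) h6
    rw [hm, hR, hV, div_pow, mul_pow, mul_pow, pow_succ (Vt Q w y), pow_succ (Vq Q w), pow_succ A]
    field_simp
  -- termwise
  have hterm : ∀ H ∈ powersetCard j (Xs Q l a T), R * (1 - η / 8) * Vq (QB Q l a H) w ≤ Vq (QB Q l a H) y := by
    intro H hH
    rw [hR]
    refine term_lo Q c hQ l a w y T j (η / 8) (by positivity) hlw hwy (by omega) (by omega) ?_ H
      (powersetCard_mono (X_sub Q l a T) hH)
    exact hw2.trans (by exact_mod_cast (by omega : w2 ≤ w))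
  have hsum : ∑ H ∈ powersetCard j (Xs Q l a T), |Vq (QB Q l a H) y - R * Vq (QB Q l a H) w| ≤
      Sy - (1 - η / 4) * (R * Sw) := by
    rw [hSy, hSw, Finset.mul_sum, Finset.mul_sum, ← Finset.sum_sub_distrib]
    apply Finset.sum_le_sum
    intro H hH
    have h3 := hterm H hH
    have h4 := Vq_nonneg (QB Q l a H) w
    have h5 : 0 ≤ R * Vq (QB Q l a H) w := mul_nonneg hR0 h4
    rw [abs_le]
    constructor <;> nlinarith
  have hmA : m / A ≤ m := div_le_self hm0 hA1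
  have hmA0 : 0 ≤ m / A := by positivity
  have h3 : (1 - η / 4) * ((1 - η / 8) * (m / A)) ≤ (1 - η / 4) * (R * Sw) :=
    mul_le_mul_of_nonneg_left h2 (by linarith)
  rw [← hm, ← hR, ← hSy]
  refine ⟨?_, ?_⟩
  · refine hsum.trans ?_
    have h4 : (1 - η / 4) * ((1 - η / 8) * (m / A)) ≥ (1 - 3 * η / 8) * (m / A) := by
      have : 0 ≤ η ^ 2 / 32 * (m / A) := by positivity
      nlinarith
    nlinarith
  · nlinarith

open Classical in
/-- the moments of the model -/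
lemma model_moment (Q : ℕ → ℕ → Prop) (c : ℕ) (hQ : PerB Q c) (l a w T : ℕ) (hl : l.Prime) (hlw : l ≤ w)
    (H : Finset ℕ) (hH : H ⊆ Icc 1 T) :
    ((((range (Mw w)).filter (fun m => Sf Q w m ∧ m % l = a)).filter (fun m => H ⊆ Og Q w T m)).card : ℝ) =
      Mw w * Vq (QB Q l a H) w := by
  rw [← exact (QB Q l a H) _ (perB_QB Q c hQ l a H) w, Finset.filter_filter]
  congr 2
  apply Finset.filter_congr
  intro m _
  rw [sf_QB Q l a w m H hl hlw]
  constructor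
  · rintro ⟨⟨h1, h2⟩, h3⟩
    exact ⟨⟨h1, fun h hh => (mem_filter.1 (h3 hh)).2⟩, h2⟩
  · rintro ⟨⟨h1, h2⟩, h3⟩
    refine ⟨⟨h1, h3⟩, ?_⟩
    intro h hh
    unfold Og
    rw [mem_filter]
    exact ⟨hH hh, h2 h hh⟩

open Classical in
/-- the moments of the random set -/
lemma true_moment (Q : ℕ → ℕ → Prop) (l a y T Z Y : ℕ) (hl : l.Prime) (hly : l ≤ y)
    (H : Finset ℕ) (hH : H ⊆ Icc 1 T) :
    ((Oa Q l a y Z Y).filter (fun g => H ⊆ Og Q y T g)).card =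
      ((Ioc Z (Z + Y)).filter (fun g => Sf (QB Q l a H) y g)).card := by
  unfold Oa
  rw [Finset.filter_filter]
  congr 1
  apply Finset.filter_congr
  intro m _
  rw [sf_QB Q l a y m H hl hly]
  constructor
  · rintro ⟨⟨h1, h2⟩, h3⟩
    exact ⟨⟨h1, fun h hh => (mem_filter.1 (h3 hh)).2⟩, h2⟩
  · rintro ⟨⟨h1, h2⟩, h3⟩
    refine ⟨⟨h1, h3⟩, ?_⟩
    intro h hh
    unfold Og
    rw [mem_filter]
    exact ⟨hH hh, h2 h hh⟩

open Classical in
/-- **The moments, in `L¹`.** -/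
theorem mom_LOne (c j l : ℕ) (hl : l.Prime) (η : ℝ) (hη : 0 < η) (hη1 : η ≤ 1) :
    ∃ (w0 K0 y0 : ℕ) (η' : ℝ), 0 < η' ∧ l ≤ w0 ∧ ∀ w : ℕ, w0 ≤ w → ∃ T0 : ℕ, ∀ Z Y y T : ℕ, T0 ≤ T →
      y0 ≤ y → y ^ K0 ≤ Y → w ≤ y →
      ∀ Q : ℕ → ℕ → Prop, PerB Q c → (∀ p : ℕ, p.Prime → nuB Q p < p) →
      (∀ T' : ℕ, T ≤ 2 * T' → T' ≤ 2 * T →
        ∀ t ∈ Icc 1 T', ((((pz y).filter (fun p : ℕ => T' < p ∧ CoG Q p t)).card : ℕ) : ℝ) ≤ η' * T') →
      ∀ a ∈ cls Q l,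
        ∑ H ∈ powersetCard j (Xs Q l a T), |(((Oa Q l a y Z Y).filter (fun g => H ⊆ Og Q y T g)).card : ℝ) -
          Y * Vt Q w y ^ (j + 1) * Vq (QB Q l a H) w| ≤
          η * (Y * (Vq Q y * ((T * Vq Q y) ^ j / j.factorial))) + T ^ j * √(Y : ℝ) := by
  obtain ⟨K0, x0, hK0, hfund⟩ := sys_fund ((j + 1) * c + l) (by have := hl.pos; omega) (η / 4) (by positivity)
  obtain ⟨w0, η', hη', hlw0, hL⟩ := LOne c j l hl (η / 4) (by positivity) (by linarith)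
  refine ⟨w0, K0, x0, η', hη', hlw0, ?_⟩
  intro w hw
  obtain ⟨T0, hT0⟩ := hL w hw
  refine ⟨T0, ?_⟩
  intro Z Y y T hT hy hyY hwy Q hQ hadm hlarge a ha
  obtain ⟨h1, h2⟩ := hT0 T hT Q hQ hadm y hwy hlarge a ha
  have hly : l ≤ y := by omega
  obtain ⟨m, hm⟩ : ∃ m : ℝ, m = Vq Q y * ((T * Vq Q y) ^ j / j.factorial) := ⟨_, rfl⟩
  rw [← hm] at h1 h2 ⊢
  have hY0 : (0 : ℝ) ≤ Y := Nat.cast_nonneg Y
  have hm0 : 0 ≤ m := by
    rw [hm]
    have := Vq_nonneg Q y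
    positivity
  have hterm : ∀ H ∈ powersetCard j (Xs Q l a T),
      |(((Oa Q l a y Z Y).filter (fun g => H ⊆ Og Q y T g)).card : ℝ) -
          Y * Vt Q w y ^ (j + 1) * Vq (QB Q l a H) w| ≤
      (η / 4 * (Y * Vq (QB Q l a H) y) + √(Y : ℝ)) +
        Y * |Vq (QB Q l a H) y - Vt Q w y ^ (j + 1) * Vq (QB Q l a H) w| := by
    intro H hH
    rw [mem_powersetCard] at hH
    rw [true_moment Q l a y T Z Y hl hly H (hH.1.trans (X_sub Q l a T))]
    have hper := perB_QB Q c hQ l a H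
    rw [hH.2] at hper
    have h3 := hfund Y y hy hyY (Qt (QB Q l a H) Z) (perB_Qt _ _ hper Z) Y
    have e1 : ∏ p ∈ pz y, (1 - (nuB (Qt (QB Q l a H) Z) p : ℝ) / p) = Vq (QB Q l a H) y :=
      Vq_Qt _ _ hper Z y
    rw [e1, ← count_shift] at h3
    have h4 : (Y : ℝ) * |Vq (QB Q l a H) y - Vt Q w y ^ (j + 1) * Vq (QB Q l a H) w| =
        |Y * Vq (QB Q l a H) y - Y * Vt Q w y ^ (j + 1) * Vq (QB Q l a H) w| := by
      rw [← abs_of_nonneg hY0, ← abs_mul, abs_of_nonneg hY0]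
      congr 1
      ring
    rw [h4]
    refine (abs_sub_le _ (Y * Vq (QB Q l a H) y) _).trans ?_
    linarith
  refine (Finset.sum_le_sum hterm).trans ?_
  rw [Finset.sum_add_distrib, Finset.sum_add_distrib, ← Finset.mul_sum, ← Finset.mul_sum, ← Finset.mul_sum,
    Finset.sum_const, nsmul_eq_mul, card_powersetCard]
  have h5 : ((Xs Q l a T).card.choose j : ℝ) ≤ (T : ℝ) ^ j := by
    have h6 : (Xs Q l a T).card ≤ T := by
      have := card_le_card (X_sub Q l a T)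
      rwa [Nat.card_Icc, Nat.add_sub_cancel] at this
    have h7 : (Xs Q l a T).card.choose j ≤ T ^ j :=
      (Nat.choose_le_pow _ j).trans (Nat.pow_le_pow_left h6 j)
    exact_mod_cast h7
  have h8 := mul_le_mul_of_nonneg_right h5 (Real.sqrt_nonneg (Y : ℝ))
  have h9 : η / 4 * (Y * ∑ H ∈ powersetCard j (Xs Q l a T), Vq (QB Q l a H) y) ≤ η / 4 * (Y * (2 * m)) := by
    gcongr
  have h10 : (Y : ℝ) * ∑ H ∈ powersetCard j (Xs Q l a T),
      |Vq (QB Q l a H) y - Vt Q w y ^ (j + 1) * Vq (QB Q l a H) w| ≤ Y * (η / 4 * m) := by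
    gcongr
  have h11 : 0 ≤ η * (Y * m) := by positivity
  linarith

end Pool.Agent.V8H31.TP
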