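import Pool.Agent.V8H31.TP.Trans

set_option autoImplicit false

/-!
# The joint law of gaps and classes, for arbitrary thresholds
-/

namespace Pool.Agent.V8H31.TP

open Polynomial Finset Filter
open Pool.Agent.W123.RP Pool.Agent.H373R2.T7 Pool.Agent.W123.RU Pool.Agent.W123.RU.Poly
open Pool.Agent.TH464.PW Pool.Agent.TH464.PO Pool.Agent.V11146.MK

/-- `g` is followed by `k` elements of `S`, the consecutive steps being related by `R i` -/
def PR (S : ℕ → Prop) (R : ℕ → ℕ → ℕ → Prop) : ℕ → ℕ → ℕ → Prop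
  | 0, _, _ => True
  | k + 1, i, g => ∃ g', g < g' ∧ S g' ∧ (∀ n, g < n → n < g' → ¬ S n) ∧ R i g g' ∧ PR S R k (i + 1) g'

lemma PR_mono (S : ℕ → Prop) (R R' : ℕ → ℕ → ℕ → Prop) (h : ∀ j g g', g < g' → R j g g' → R' j g g') (k : ℕ) :
    ∀ i g, PR S R k i g → PR S R' k i g := by
  induction k with
  | zero => exact fun _ _ _ => trivial
  | succ k ih =>
    rintro i g ⟨g', h1, h2, h3, h4, h5⟩
    exact ⟨g', h1, h2, h3, h i g g' h1 h4, ih (i + 1) g' h5⟩

lemma PR_congr (S : ℕ → Prop) (R R' : ℕ → ℕ → ℕ → Prop) (h : ∀ j g g', g < g' → (R j g g' ↔ R' j g g')) (k i g : ℕ) :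
    PR S R k i g ↔ PR S R' k i g :=
  ⟨PR_mono S R R' (fun j g g' hg => (h j g g' hg).1) k i g, PR_mono S R' R (fun j g g' hg => (h j g g' hg).2) k i g⟩

lemma succ_unique (S : ℕ → Prop) (g u v : ℕ) (hu1 : g < u) (hu2 : S u) (hu3 : ∀ n, g < n → n < u → ¬ S n)
    (hv1 : g < v) (hv2 : S v) (hv3 : ∀ n, g < n → n < v → ¬ S n) : u = v := by
  rcases Nat.lt_trichotomy u v with h | h | h
  · exact absurd hu2 (hv3 u hu1 h)
  · exact h
  · exact absurd hv2 (hu3 v hv1 h)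

lemma PR_and (S : ℕ → Prop) (R R' : ℕ → ℕ → ℕ → Prop) (k : ℕ) :
    ∀ i g, PR S R k i g → PR S R' k i g → PR S (fun j g g' => R j g g' ∧ R' j g g') k i g := by
  induction k with
  | zero => exact fun _ _ _ _ => trivial
  | succ k ih =>
    rintro i g ⟨u, h1, h2, h3, h4, h5⟩ ⟨v, k1, k2, k3, k4, k5⟩
    have : u = v := succ_unique S g u v h1 h2 h3 k1 k2 k3
    subst this
    exact ⟨u, h1, h2, h3, ⟨h4, k4⟩, ih (i + 1) u h5 k5⟩

/-- `g` and the `k` elements of `S` after `g` have the classes `a 0, …, a k`, and the gaps among them, each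
multiplied by the weight `w` of its left end, are at most `lam 0, …, lam (k - 1)` -/
def Fol (S : ℕ → Prop) (κ : ℕ → ℕ) (w : ℕ → ℝ) (a : ℕ → ℕ) (lam : ℕ → ℝ) (k g : ℕ) : Prop :=
  ∃ n : ℕ → ℕ, n 0 = g ∧ ((∀ i ≤ k, S (n i)) ∧ ∀ i < k, n i < n (i + 1) ∧ ∀ m, n i < m → m < n (i + 1) → ¬ S m) ∧
    (∀ i ≤ k, κ (n i) = a i) ∧ ∀ i < k, ((n (i + 1) : ℝ) - n i) * w (n i) ≤ lam i

/-- the relation of the steps -/
def Rr (κ : ℕ → ℕ) (w : ℕ → ℝ) (a : ℕ → ℕ) (lam : ℕ → ℝ) (j g g' : ℕ) : Prop :=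
  κ g' = a (j + 1) ∧ ((g' : ℝ) - g) * w g ≤ lam j

lemma seq_iff (S : ℕ → Prop) (R : ℕ → ℕ → ℕ → Prop) (k : ℕ) : ∀ i g : ℕ,
    (∃ n : ℕ → ℕ, n 0 = g ∧ ∀ j < k, (n j < n (j + 1) ∧ ∀ m, n j < m → m < n (j + 1) → ¬ S m) ∧ S (n (j + 1)) ∧
      R (i + j) (n j) (n (j + 1))) ↔ PR S R k i g := by
  induction k with
  | zero =>
    intro i g
    constructor
    · intro _
      trivial
    · intro _
      exact ⟨fun _ => g, rfl, fun j hj => absurd hj (Nat.not_lt_zero j)⟩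
  | succ k ih =>
    intro i g
    constructor
    · rintro ⟨n, h1, h2⟩
      obtain ⟨⟨a1, a2⟩, a3, a4⟩ := h2 0 (Nat.succ_pos k)
      rw [h1] at a1 a2 a4
      rw [add_zero] at a4
      refine ⟨n 1, a1, a3, a2, a4, (ih (i + 1) (n 1)).1 ⟨fun j => n (j + 1), rfl, ?_⟩⟩
      intro j hj
      obtain ⟨b1, b3, b4⟩ := h2 (j + 1) (by omega)
      refine ⟨b1, b3, ?_⟩
      rwa [show i + 1 + j = i + (j + 1) by ring]
    · rintro ⟨g', h1, h2, h3, h4, h5⟩
      obtain ⟨n, e1, e2⟩ := (ih (i + 1) g').2 h5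
      refine ⟨fun j => if j = 0 then g else n (j - 1), by simp, ?_⟩
      intro j hj
      rcases Nat.eq_zero_or_pos j with rfl | h0
      · simp only [if_true, zero_add, one_ne_zero, if_false, Nat.sub_self, e1, add_zero]
        exact ⟨⟨h1, h3⟩, h2, h4⟩
      · simp only [Nat.pos_iff_ne_zero.1 h0, if_false, Nat.succ_ne_zero, Nat.add_sub_cancel]
        have := e2 (j - 1) (by omega)
        rw [show j - 1 + 1 = j by omega, show i + 1 + (j - 1) = i + j by omega] at this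
        exact this

lemma fol_iff (S : ℕ → Prop) (κ : ℕ → ℕ) (w : ℕ → ℝ) (a : ℕ → ℕ) (lam : ℕ → ℝ) (k g : ℕ) :
    Fol S κ w a lam k g ↔ S g ∧ κ g = a 0 ∧ PR S (Rr κ w a lam) k 0 g := by
  rw [← seq_iff]
  constructor
  · rintro ⟨n, h1, ⟨h2, h3⟩, h4, h5⟩
    refine ⟨?_, ?_, n, h1, ?_⟩
    · rw [← h1]
      exact h2 0 (Nat.zero_le k)
    · rw [← h1]
      exact h4 0 (Nat.zero_le k)
    · intro j hj
      refine ⟨h3 j hj, h2 (j + 1) (by omega), ?_⟩
      unfold Rr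
      rw [zero_add]
      exact ⟨h4 (j + 1) (by omega), h5 j hj⟩
  · rintro ⟨h1, h2, n, h3, h4⟩
    refine ⟨n, h3, ⟨?_, fun j hj => (h4 j hj).1⟩, ?_, ?_⟩
    · intro i hi
      rcases Nat.eq_zero_or_pos i with rfl | h0
      · rw [h3]
        exact h1
      · have := (h4 (i - 1) (by omega)).2.1
        rwa [show i - 1 + 1 = i by omega] at this
    · intro i hi
      rcases Nat.eq_zero_or_pos i with rfl | h0
      · rw [h3]
        exact h2
      · have := (h4 (i - 1) (by omega)).2.2.1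
        rwa [zero_add, show i - 1 + 1 = i by omega] at this
    · intro i hi
      have := (h4 i hi).2.2.2
      rwa [zero_add] at this

/-- the thresholds and classes as a list -/
def lstT (τ : ℕ → ℕ) (a : ℕ → ℕ) : ℕ → ℕ → List (ℕ × ℕ)
  | 0, _ => []
  | k + 1, i => (τ i, a (i + 1)) :: lstT τ a k (i + 1)

lemma lstT_length (τ a : ℕ → ℕ) (k : ℕ) : ∀ i, (lstT τ a k i).length = k := by
  induction k with
  | zero => exact fun _ => rfl
  | succ k ih =>
    intro i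
    simp [lstT, ih]

lemma mem_lstT (τ a : ℕ → ℕ) (k : ℕ) : ∀ (i : ℕ) (b : ℕ × ℕ), b ∈ lstT τ a k i →
    ∃ j, i ≤ j ∧ j < i + k ∧ b = (τ j, a (j + 1)) := by
  induction k with
  | zero =>
    intro i b hb
    simp [lstT] at hb
  | succ k ih =>
    intro i b hb
    simp only [lstT, List.mem_cons] at hb
    rcases hb with rfl | hb
    · exact ⟨i, le_rfl, by omega, rfl⟩
    · obtain ⟨j, h1, h2, h3⟩ := ih (i + 1) b hb
      exact ⟨j, by omega, by omega, h3⟩

lemma patT_pr (S : ℕ → Prop) (κ τ a : ℕ → ℕ) (k : ℕ) : ∀ i g,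
    PatT S κ (lstT τ a k i) g ↔ PR S (fun j g g' => g' ≤ g + τ j ∧ κ g' = a (j + 1)) k i g := by
  induction k with
  | zero => exact fun _ _ => Iff.rfl
  | succ k ih =>
    intro i g
    simp only [lstT]
    unfold PatT PR
    constructor
    · rintro ⟨g', h1, h2, h3, h4, h5, h6⟩
      exact ⟨g', h1, h3, h4, ⟨h2, h5⟩, (ih (i + 1) g').1 h6⟩
    · rintro ⟨g', h1, h3, h4, ⟨h2, h5⟩, h6⟩
      exact ⟨g', h1, h2, h3, h4, h5, (ih (i + 1) g').2 h6⟩

lemma prod_lstT (τ a : ℕ → ℕ) (F : ℕ → ℝ) (k : ℕ) : ∀ i,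
    ((lstT τ a k i).map (fun b => F b.1)).prod = ∏ j ∈ range k, F (τ (i + j)) := by
  induction k with
  | zero => simp [lstT]
  | succ k ih =>
    intro i
    simp only [lstT, List.map_cons, List.prod_cons]
    rw [ih, Finset.prod_range_succ', add_zero, mul_comm]
    congr 1
    apply Finset.prod_congr rfl
    intro j _
    rw [show i + 1 + j = i + (j + 1) by ring]

/-- products of factors in `[0, 1]` -/
lemma prod_sub (k : ℕ) (x y : ℕ → ℝ) (hx : ∀ j < k, 0 ≤ x j ∧ x j ≤ 1) (hy : ∀ j < k, 0 ≤ y j ∧ y j ≤ 1) (ρ : ℝ)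
    (h : ∀ j < k, |x j - y j| ≤ ρ) :
    |∏ j ∈ range k, x j - ∏ j ∈ range k, y j| ≤ k * ρ ∧ (0 ≤ ∏ j ∈ range k, x j ∧ ∏ j ∈ range k, x j ≤ 1) ∧
      (0 ≤ ∏ j ∈ range k, y j ∧ ∏ j ∈ range k, y j ≤ 1) := by
  induction k with
  | zero => simp
  | succ k ih =>
    obtain ⟨i1, ⟨i2, i3⟩, ⟨i4, i5⟩⟩ := ih (fun j hj => hx j (by omega)) (fun j hj => hy j (by omega))
      (fun j hj => h j (by omega))
    rw [Finset.prod_range_succ, Finset.prod_range_succ]
    obtain ⟨x1, x2⟩ := hx k (by omega)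
    obtain ⟨y1, y2⟩ := hy k (by omega)
    have h1 := h k (by omega)
    refine ⟨?_, ⟨mul_nonneg i2 x1, mul_le_one₀ i3 x1 x2⟩, ⟨mul_nonneg i4 y1, mul_le_one₀ i5 y1 y2⟩⟩
    obtain ⟨P, hP⟩ : ∃ P, P = ∏ j ∈ range k, x j := ⟨_, rfl⟩
    obtain ⟨R, hR⟩ : ∃ P, P = ∏ j ∈ range k, y j := ⟨_, rfl⟩
    rw [← hP, ← hR] at i1 ⊢
    rw [← hP] at i2 i3
    have e : P * x k - R * y k = P * (x k - y k) + (P - R) * y k := by ring
    rw [e]
    refine (abs_add_le _ _).trans ?_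
    rw [abs_mul, abs_mul, abs_of_nonneg i2, abs_of_nonneg y1]
    push_cast
    have hρ : 0 ≤ ρ := (abs_nonneg _).trans h1
    have h5 : P * |x k - y k| ≤ 1 * ρ := mul_le_mul i3 h1 (abs_nonneg _) (by norm_num)
    have h6 : |P - R| * y k ≤ k * ρ * 1 := mul_le_mul i1 y2 y1 (by positivity)
    linarith

open Classical in
/-- **The joint law of gaps and classes**, for arbitrary thresholds. -/
theorem law_all {ι : Type} [Fintype ι] [Nonempty ι] (f : ι → ℤ[X]) (hf : Sys f) (hT : NoTr f) (l k : ℕ)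
    (hl : l.Prime) (M c : ℕ) (hM : 0 < M) (S : ℕ → ℕ → Prop) (y1 : ℕ)
    (hS : ∀ y, y1 ≤ y → ∀ n, S y n ↔ ∃ m, n = M * m + c ∧ Sf (Q f) y m)
    (κ enc : ℕ → ℕ) (cl : Finset ℕ)
    (hκ : ∀ b ∈ cl, ∀ m, κ (M * m + c) = b ↔ m % l = enc b) (henc : ∀ b ∈ cl, enc b ∈ cls (Q f) l)
    (ε : ℝ) (hε : 0 < ε) :
    ∃ K y0 : ℕ, ∀ y : ℕ, y0 ≤ y → ∀ W : ℝ, W = Vq (Q f) y / M → 0 < W ∧ W ≤ ε ∧
      ∀ Z Y : ℕ, y ^ K ≤ Y → (c ≤ Z ∨ ¬ S y c) →
      |(((Ioc Z (Z + Y)).filter (S y)).card : ℝ) - Y * W| ≤ ε * (Y * W) ∧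
      ∀ a : ℕ → ℕ, (∀ i ≤ k, a i ∈ cl) → ∀ lam : ℕ → ℝ, (∀ i < k, 0 ≤ lam i) →
        |(((Ioc Z (Z + Y)).filter (fun g => Fol (S y) κ (fun _ => W) a lam k g)).card : ℝ) -
          Y * W * ((∏ j ∈ range k, (1 - Real.exp (-lam j))) / ((cls (Q f) l).card : ℝ) ^ (k + 1))| ≤
          ε * (Y * W) := by
  obtain ⟨A, hA⟩ : ∃ A, A = (cls (Q f) l).card := ⟨_, rfl⟩
  have hA1 : 1 ≤ A := by
    have h1 := card_cls (Q f) l
    have h2 := Poly.adm f hf l hl
    omega
  have hAr : (1 : ℝ) ≤ A := by exact_mod_cast hA1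
  have hk0 : (0 : ℝ) ≤ k := Nat.cast_nonneg k
  obtain ⟨e, he⟩ : ∃ e : ℝ, e = min (ε / (16 * (k + 1))) 1 := ⟨_, rfl⟩
  have he0 : 0 < e := by rw [he]; positivity
  have he1 : e ≤ 1 := by rw [he]; exact min_le_right _ _
  have he2 : e * (k + 1) ≤ ε / 16 := by
    have : e ≤ ε / (16 * (k + 1)) := by rw [he]; exact min_le_left _ _
    rw [le_div_iff₀ (by positivity)] at this
    linarith
  obtain ⟨Λ, hΛ0, hΛe⟩ : ∃ Λ : ℝ, 0 ≤ Λ ∧ Real.exp (-Λ) ≤ e := by
    refine ⟨-Real.log e, ?_, ?_⟩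
    · have := Real.log_nonpos he0.le he1
      linarith
    · rw [neg_neg, Real.exp_log he0]
  obtain ⟨K1, y01, h1⟩ := rel_patW f hf hT l k hl M c hM S y1 hS κ enc cl hκ henc Λ e hΛ0 he0
  obtain ⟨K2, y02, h2⟩ := rel_pat f hf hT l k hl M c hM S y1 hS κ enc cl hκ henc e he0
  refine ⟨K1 + K2, y01 + y02 + y1 + 1, ?_⟩
  intro y hy W hW
  obtain ⟨hW0, hWe, h3⟩ := h1 y (by omega) W hW
  have heε : e ≤ ε := by nlinarith
  refine ⟨hW0, hWe.trans heε, ?_⟩
  intro Z Y hyY hcZ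
  have hy1 : 1 ≤ y := by omega
  obtain ⟨h4, h5⟩ := h3 Z Y ((Nat.pow_le_pow_right hy1 (by omega)).trans hyY) hcZ
  obtain ⟨h6, h7⟩ := h2 y (by omega) Z Y ((Nat.pow_le_pow_right hy1 (by omega)).trans hyY) hcZ
  obtain ⟨B, hB⟩ : ∃ B : ℝ, B = Y * W := ⟨_, rfl⟩
  have hYr : (0 : ℝ) < Y := by
    have : 0 < Y := lt_of_lt_of_le (by positivity) hyY
    exact_mod_cast this
  have hB0 : 0 < B := by rw [hB]; positivity
  rw [← hB] at h4 h5 ⊢
  refine ⟨h4.trans (by gcongr), ?_⟩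
  intro a ha lam hlam
  -- bounded thresholds
  have hbd : ∀ mu : ℕ → ℝ, (∀ i < k, 0 ≤ mu i ∧ mu i ≤ Λ) →
      |(((Ioc Z (Z + Y)).filter (fun g => Fol (S y) κ (fun _ => W) a mu k g)).card : ℝ) -
          B * ((∏ j ∈ range k, (1 - Real.exp (-mu j))) / (A : ℝ) ^ (k + 1))| ≤ (e * (k + 1)) * B := by
    intro mu hmu
    obtain ⟨τ, hτ⟩ : ∃ τ : ℕ → ℕ, τ = fun j => ⌊mu j / W⌋₊ := ⟨_, rfl⟩
    have hτ1 : ∀ j < k, (τ j : ℝ) * W ≤ mu j := by
      intro j hj
      have := Nat.floor_le (show 0 ≤ mu j / W from div_nonneg (hmu j hj).1 hW0.le)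
      rw [le_div_iff₀ hW0] at this
      rw [hτ]
      exact this
    have hτ2 : ∀ j < k, mu j ≤ (τ j : ℝ) * W + W := by
      intro j hj
      have := Nat.lt_floor_add_one (mu j / W)
      rw [div_lt_iff₀ hW0] at this
      rw [hτ]
      simp only
      linarith
    have h8 := h5 (a 0) (ha 0 (Nat.zero_le k)) (lstT τ a k 0) (lstT_length τ a k 0) (by
      intro b hb
      obtain ⟨j, _, hj, rfl⟩ := mem_lstT τ a k 0 b hb
      exact ha (j + 1) (by omega)) (by
      intro b hb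
      obtain ⟨j, _, hj, rfl⟩ := mem_lstT τ a k 0 b hb
      exact (hτ1 j (by omega)).trans (hmu j (by omega)).2)
    rw [← hA] at h8
    have e1 : ((lstT τ a k 0).map (fun b => (1 - Real.exp (-(b.1 * W))) / (A : ℝ))).prod =
        (∏ j ∈ range k, (1 - Real.exp (-(τ j * W)))) / (A : ℝ) ^ k := by
      rw [prod_lstT τ a (fun t => (1 - Real.exp (-((t : ℝ) * W))) / (A : ℝ)) k 0]
      simp only [zero_add]
      rw [Finset.prod_div_distrib, Finset.prod_const, card_range]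
    rw [e1] at h8
    have e2 : ((Ioc Z (Z + Y)).filter (fun g => S y g ∧ κ g = a 0 ∧ PatT (S y) κ (lstT τ a k 0) g)).card =
        ((Ioc Z (Z + Y)).filter (fun g => Fol (S y) κ (fun _ => W) a mu k g)).card := by
      congr 1
      apply Finset.filter_congr
      intro g _
      rw [fol_iff, patT_pr]
      apply and_congr_right
      intro _
      apply and_congr_right
      intro _
      -- on the first `k` steps only
      have : ∀ (k' i : ℕ) (g : ℕ), i + k' ≤ k →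
          (PR (S y) (fun j g g' => g' ≤ g + τ j ∧ κ g' = a (j + 1)) k' i g ↔
          PR (S y) (Rr κ (fun _ => W) a mu) k' i g) := by
        intro k'
        induction k' with
        | zero => exact fun _ _ _ => Iff.rfl
        | succ k' ih =>
          intro i g hik
          unfold PR
          apply exists_congr
          intro g'
          apply and_congr_right
          intro hgg
          apply and_congr_right
          intro _
          apply and_congr_right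
          intro _
          apply and_congr
          · unfold Rr
            rw [and_comm]
            apply and_congr_right
            intro _
            have hi : i < k := by omega
            rw [hτ]
            have h9 : (g' : ℝ) - g = ((g' - g : ℕ) : ℝ) := by
              rw [Nat.cast_sub hgg.le]
            rw [h9, ← le_div_iff₀ hW0, ← Nat.le_floor_iff (div_nonneg (hmu i hi).1 hW0.le)]
            simp only
            omega
          · exact ih (i + 1) g' (by omega)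
      exact this k 0 g (by omega)
    rw [e2] at h8
    have h9 := prod_sub k (fun j => 1 - Real.exp (-(τ j * W))) (fun j => 1 - Real.exp (-mu j))
      (fun j hj => by
        have h10 : Real.exp (-(τ j * W)) ≤ 1 := Real.exp_le_one_iff.2 (by
          have : 0 ≤ (τ j : ℝ) * W := by positivity
          linarith)
        have h11 := Real.exp_pos (-(τ j * W))
        constructor <;> linarith)
      (fun j hj => by
        have h10 : Real.exp (-mu j) ≤ 1 := Real.exp_le_one_iff.2 (by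
          have := (hmu j hj).1
          linarith)
        have h11 := Real.exp_pos (-mu j)
        constructor <;> linarith) e
      (fun j hj => by
        have h10 := exp_lip (mu j) (τ j * W) (hmu j hj).1 (by positivity)
        have h11 : 1 - Real.exp (-(τ j * W)) - (1 - Real.exp (-mu j)) = Real.exp (-mu j) - Real.exp (-(τ j * W)) := by
          ring
        rw [h11]
        refine h10.trans ?_
        have := hτ1 j hj
        have := hτ2 j hj
        rw [abs_of_nonneg (by linarith)]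
        linarith)
    obtain ⟨i1, ⟨i2, i3⟩, ⟨i4, i5⟩⟩ := h9
    obtain ⟨P, hP⟩ : ∃ P, P = ∏ j ∈ range k, (1 - Real.exp (-(τ j * W))) := ⟨_, rfl⟩
    obtain ⟨R, hR⟩ : ∃ P, P = ∏ j ∈ range k, (1 - Real.exp (-mu j)) := ⟨_, rfl⟩
    rw [← hP, ← hR] at i1
    rw [← hP] at h8
    rw [← hR]
    have hA0 : (0 : ℝ) < A := by linarith
    have h10 : |B / A * (P / (A : ℝ) ^ k) - B * (R / (A : ℝ) ^ (k + 1))| ≤ B * (k * e) := by
      have e3 : B / A * (P / (A : ℝ) ^ k) - B * (R / (A : ℝ) ^ (k + 1)) = B * (P - R) / (A : ℝ) ^ (k + 1) := by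
        rw [pow_succ]
        field_simp
      rw [e3, abs_div, abs_mul, abs_of_pos hB0, abs_of_pos (pow_pos hA0 _)]
      refine (div_le_self (by positivity) (one_le_pow₀ hAr)).trans ?_
      gcongr
    have h11 := abs_sub_le (((Ioc Z (Z + Y)).filter (fun g => Fol (S y) κ (fun _ => W) a mu k g)).card : ℝ)
      (B / A * (P / (A : ℝ) ^ k)) (B * (R / (A : ℝ) ^ (k + 1)))
    linarith
  -- the truncated thresholds
  have hb1 := hbd (fun j => min (lam j) Λ) (fun i hi => ⟨le_min (hlam i hi) hΛ0, min_le_right _ _⟩)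
  have hb2 := hbd (fun _ => Λ) (fun i _ => ⟨hΛ0, le_rfl⟩)
  have hb3 := h7 a ha
  rw [← hA] at hb3 ⊢
  -- the sets
  obtain ⟨X1, hX1⟩ : ∃ X, X = (Ioc Z (Z + Y)).filter (fun g => Fol (S y) κ (fun _ => W) a (fun j => min (lam j) Λ) k g) :=
    ⟨_, rfl⟩
  obtain ⟨X2, hX2⟩ : ∃ X, X = (Ioc Z (Z + Y)).filter (fun g => Fol (S y) κ (fun _ => W) a (fun _ => Λ) k g) :=
    ⟨_, rfl⟩
  obtain ⟨X3, hX3⟩ : ∃ X, X = (Ioc Z (Z + Y)).filter (fun g => Runs (S y) κ k a g) := ⟨_, rfl⟩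
  obtain ⟨X4, hX4⟩ : ∃ X, X = (Ioc Z (Z + Y)).filter (fun g => Fol (S y) κ (fun _ => W) a lam k g) := ⟨_, rfl⟩
  rw [← hX1] at hb1
  rw [← hX2] at hb2
  rw [← hX3] at hb3
  rw [← hX4]
  have hsub1 : X1 ⊆ X4 := by
    intro g hg
    rw [hX1, mem_filter] at hg
    rw [hX4, mem_filter]
    refine ⟨hg.1, ?_⟩
    rw [fol_iff] at hg ⊢
    refine ⟨hg.2.1, hg.2.2.1, PR_mono _ _ _ ?_ k 0 g hg.2.2.2⟩
    rintro j u v _ ⟨h8, h9⟩
    exact ⟨h8, h9.trans (min_le_left _ _)⟩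
  have hsub2 : X2 ⊆ X3 := by
    intro g hg
    rw [hX2, mem_filter] at hg
    rw [hX3, mem_filter]
    refine ⟨hg.1, ?_⟩
    obtain ⟨n, h8, h9, h10, _⟩ := hg.2
    exact ⟨n, h8, h9, h10⟩
  have hsub3 : X4 ∪ X2 ⊆ X3 := by
    apply Finset.union_subset _ hsub2
    intro g hg
    rw [hX4, mem_filter] at hg
    rw [hX3, mem_filter]
    refine ⟨hg.1, ?_⟩
    obtain ⟨n, h8, h9, h10, _⟩ := hg.2
    exact ⟨n, h8, h9, h10⟩
  have hinter : X4 ∩ X2 ⊆ X1 := by
    intro g hg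
    rw [mem_inter, hX4, hX2, mem_filter, mem_filter] at hg
    rw [hX1, mem_filter]
    refine ⟨hg.1.1, ?_⟩
    obtain ⟨⟨_, h8⟩, _, h9⟩ := hg
    rw [fol_iff] at h8 h9 ⊢
    refine ⟨h8.1, h8.2.1, PR_mono _ _ _ ?_ k 0 g (PR_and _ _ _ k 0 g h8.2.2 h9.2.2)⟩
    rintro j u v _ ⟨⟨h10, h11⟩, ⟨_, h12⟩⟩
    exact ⟨h10, le_min h11 h12⟩
  have hc1 : (X1.card : ℝ) ≤ X4.card := by exact_mod_cast card_le_card hsub1
  have hc2 : (X4.card : ℝ) + X2.card ≤ X3.card + X1.card := by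
    have h8 := card_union_add_card_inter X4 X2
    have h9 := card_le_card hsub3
    have h10 := card_le_card hinter
    exact_mod_cast (by omega : X4.card + X2.card ≤ X3.card + X1.card)
  -- the main terms
  have hApow : (1 : ℝ) ≤ (A : ℝ) ^ (k + 1) := one_le_pow₀ hAr
  have hA0 : (0 : ℝ) < (A : ℝ) ^ (k + 1) := by linarith
  obtain ⟨P, hP⟩ : ∃ P, P = ∏ j ∈ range k, (1 - Real.exp (-lam j)) := ⟨_, rfl⟩
  obtain ⟨R, hR⟩ : ∃ P, P = ∏ j ∈ range k, (1 - Real.exp (-(min (lam j) Λ))) := ⟨_, rfl⟩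
  have hPR : |R - P| ≤ k * e := by
    rw [hP, hR]
    refine (prod_sub k (fun j => 1 - Real.exp (-(min (lam j) Λ))) (fun j => 1 - Real.exp (-lam j))
      (fun j hj => ?_) (fun j hj => ?_) e (fun j hj => ?_)).1
    · have h10 : Real.exp (-(min (lam j) Λ)) ≤ 1 := Real.exp_le_one_iff.2 (by
        have := le_min (hlam j hj) hΛ0
        linarith)
      have h11 := Real.exp_pos (-(min (lam j) Λ))
      constructor <;> linarith
    · have h10 : Real.exp (-lam j) ≤ 1 := Real.exp_le_one_iff.2 (by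
        have := hlam j hj
        linarith)
      have h11 := Real.exp_pos (-lam j)
      constructor <;> linarith
    · rcases le_total (lam j) Λ with h8 | h8
      · rw [min_eq_left h8, sub_self, abs_zero]
        exact he0.le
      · rw [min_eq_right h8]
        have h9 : Real.exp (-lam j) ≤ Real.exp (-Λ) := Real.exp_le_exp.2 (by linarith)
        have h10 := Real.exp_pos (-lam j)
        rw [abs_le]
        constructor <;> linarith
  have hpow : 1 - k * e ≤ ∏ _j ∈ range k, (1 - Real.exp (-Λ)) := by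
    rw [Finset.prod_const, card_range]
    have h8 := one_add_mul_le_pow (show (-2 : ℝ) ≤ -e by linarith) k
    have h9 : 1 + -e ≤ 1 - Real.exp (-Λ) := by linarith
    have h10 : (1 + -e) ^ k ≤ (1 - Real.exp (-Λ)) ^ k := pow_le_pow_left₀ (by linarith) h9 k
    linarith
  have htot : |(((Ioc Z (Z + Y)).filter (S y)).card : ℝ)| ≤ 2 * B := by
    have := abs_le.1 h4
    rw [abs_le]
    constructor
    · have : (0 : ℝ) ≤ (((Ioc Z (Z + Y)).filter (S y)).card : ℝ) := Nat.cast_nonneg _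
      linarith
    · nlinarith [this.2]
  obtain ⟨tot, htotd⟩ : ∃ t : ℝ, t = (((Ioc Z (Z + Y)).filter (S y)).card : ℝ) := ⟨_, rfl⟩
  rw [← htotd] at hb3 htot h4
  have h8 : |tot / (A : ℝ) ^ (k + 1) - B / (A : ℝ) ^ (k + 1)| ≤ e * B := by
    rw [← sub_div, abs_div, abs_of_pos hA0]
    exact (div_le_self (abs_nonneg _) hApow).trans h4
  have h9 : (X3.card : ℝ) ≤ B / (A : ℝ) ^ (k + 1) + 3 * e * B := by
    have h10 := (abs_le.1 hb3).2
    have h11 := (abs_le.1 h8).2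
    have h12 := (abs_le.1 htot).2
    nlinarith
  have h10 : B / (A : ℝ) ^ (k + 1) - k * e * B - e * (k + 1) * B ≤ X2.card := by
    have h11 := (abs_le.1 hb2).1
    have h12 : B / (A : ℝ) ^ (k + 1) - k * e * B ≤
        B * ((∏ _j ∈ range k, (1 - Real.exp (-Λ))) / (A : ℝ) ^ (k + 1)) := by
      have h13 : B * ((1 - k * e) / (A : ℝ) ^ (k + 1)) ≤ B * ((∏ _j ∈ range k, (1 - Real.exp (-Λ))) / (A : ℝ) ^ (k + 1)) := by
        gcongr
      refine le_trans ?_ h13
      have h14 : B * ((1 - k * e) / (A : ℝ) ^ (k + 1)) = B / (A : ℝ) ^ (k + 1) - k * e * B / (A : ℝ) ^ (k + 1) := by ring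
      rw [h14]
      have h15 : k * e * B / (A : ℝ) ^ (k + 1) ≤ k * e * B := div_le_self (by positivity) hApow
      linarith
    linarith
  have h11 : |B * (R / (A : ℝ) ^ (k + 1)) - B * (P / (A : ℝ) ^ (k + 1))| ≤ k * e * B := by
    have e1 : B * (R / (A : ℝ) ^ (k + 1)) - B * (P / (A : ℝ) ^ (k + 1)) = B * (R - P) / (A : ℝ) ^ (k + 1) := by ring
    rw [e1, abs_div, abs_mul, abs_of_pos hB0, abs_of_pos hA0]
    refine (div_le_self (by positivity) hApow).trans ?_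
    calc B * |R - P| ≤ B * (k * e) := by gcongr
      _ = _ := by ring
  rw [← hR] at hb1
  have h12 : (8 * (e * (k + 1))) * B ≤ ε * B := by
    apply mul_le_mul_of_nonneg_right _ hB0.le
    linarith
  have h13 : 0 ≤ e * B := by positivity
  have h14 : 0 ≤ k * e * B := by positivity
  rw [← hP]
  rw [abs_le] at hb1 h11 ⊢
  constructor <;> nlinarith [hb1.1, hb1.2, h11.1, h11.2]

end Pool.Agent.V8H31.TP
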