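import Pool.Agent.V8H31.TP.Lst

set_option autoImplicit false

/-!
# Patterns of a random thinning of a periodic set
-/

namespace Pool.Agent.V8H31.TP

open Finset Filter
open Pool.Agent.V11146.MK

open Classical in
/-- every block of length `M` contains `D` elements of each class -/
structure Blk (G : ℕ → Prop) (κ : ℕ → ℕ) (cl : Finset ℕ) (M D : ℕ) : Prop where
  hM : 0 < M
  cnt : ∀ b ∈ cl, ∀ s : ℕ, ((Ioc s (s + M)).filter (fun h => G h ∧ κ h = b)).card = D
  cls : ∀ h, G h → κ h ∈ cl

open Classical in
lemma Blk.tot {G : ℕ → Prop} {κ : ℕ → ℕ} {cl : Finset ℕ} {M D : ℕ} (H : Blk G κ cl M D) (s : ℕ) :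
    ((Ioc s (s + M)).filter G).card = cl.card * D := by
  rw [Finset.card_eq_sum_card_fiberwise (f := κ) (t := cl)]
  · rw [← smul_eq_mul, ← Finset.sum_const]
    apply Finset.sum_congr rfl
    intro b hb
    rw [← H.cnt b hb s, Finset.filter_filter]
  · intro g hg
    rw [Finset.mem_coe, mem_filter] at hg
    exact H.cls g hg.2

open Classical in
lemma Blk.totU {G : ℕ → Prop} {κ : ℕ → ℕ} {cl : Finset ℕ} {M D : ℕ} (H : Blk G κ cl M D) (U s : ℕ) :
    ((Ioc s (s + U * M)).filter G).card = U * (cl.card * D) := by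
  induction U with
  | zero => simp
  | succ U ih =>
    have h1 : Ioc s (s + (U + 1) * M) = Ioc s (s + U * M) ∪ Ioc (s + U * M) (s + U * M + M) := by
      rw [Finset.Ioc_union_Ioc_eq_Ioc (by omega) (by omega)]
      congr 1
      ring
    have h2 : Disjoint ((Ioc s (s + U * M)).filter G) ((Ioc (s + U * M) (s + U * M + M)).filter G) := by
      apply Finset.disjoint_filter_filter
      rw [Finset.disjoint_left]
      intro x h3 h4
      rw [mem_Ioc] at h3 h4
      omega
    rw [h1, Finset.filter_union, card_union_of_disjoint h2, ih, H.tot]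
    ring

open Classical in
/-- the thresholds and the classes -/
def Pt (κ : ℕ → ℕ) : List (ℕ × ℕ) → ℕ → List ℕ → Prop
  | [], _, _ => True
  | _ :: _, _, [] => False
  | c :: β, s, x :: L => x ≤ s + c.1 ∧ κ x = c.2 ∧ Pt κ β x L

open Classical in
/-- the indicator of the pattern -/
noncomputable def Fi (κ : ℕ → ℕ) (β : List (ℕ × ℕ)) (s : ℕ) (L : List ℕ) : ℝ := if Pt κ β s L then 1 else 0

lemma Fi_bound (κ : ℕ → ℕ) (β : List (ℕ × ℕ)) (s : ℕ) (L : List ℕ) : |Fi κ β s L| ≤ 1 := by
  unfold Fi
  split_ifs <;> simp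

lemma Fi_nonneg (κ : ℕ → ℕ) (β : List (ℕ × ℕ)) (s : ℕ) (L : List ℕ) : 0 ≤ Fi κ β s L := by
  unfold Fi
  split_ifs <;> simp

lemma Ex_const (p : ℝ) (L : List ℕ) (c : ℝ) : Ex p L (fun _ => c) = c := by
  induction L with
  | nil => rfl
  | cons b L ih =>
    simp only [Ex]
    rw [ih]
    ring

lemma Ex_nil (p : ℝ) (κ : ℕ → ℕ) (s : ℕ) (L : List ℕ) : Ex p L (Fi κ [] s) = 1 := by
  have : Fi κ [] s = fun _ => (1 : ℝ) := by
    funext t
    unfold Fi
    cases t <;> simp [Pt]
  rw [this, Ex_const]

open Classical in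
/-- the probability of the pattern, for the elements of `G` in `(s, T]` -/
noncomputable def pr (p : ℝ) (κ : ℕ → ℕ) (G : ℕ → Prop) (T : ℕ) (β : List (ℕ × ℕ)) (s s' : ℕ) : ℝ :=
  Ex p (res id ((Ioc s' T).filter G)) (Fi κ β s)

open Classical in
/-- one block step: the sum over the elements of `(u, v]` of the class `b`, in terms of general weights -/
lemma step_lo (p : ℝ) (hp : 0 ≤ p) (hp1 : p ≤ 1) (κ : ℕ → ℕ) (G : ℕ → Prop) (T : ℕ) (c : ℕ × ℕ) (β : List (ℕ × ℕ))
    (s : ℕ) (a : ℝ) (ha : 0 ≤ a) (v : ℕ) (hvs : v ≤ s + c.1) (hvT : v ≤ T)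
    (hβ : ∀ x, s < x → x ≤ s + c.1 → a ≤ pr p κ G T β x x) :
    ∀ u : ℕ, s ≤ u → u ≤ v →
      (1 - p) ^ ((Ioc u v).filter G).card * pr p κ G T (c :: β) s v +
        p * (1 - p) ^ ((Ioc u v).filter G).card * (((Ioc u v).filter (fun x => G x ∧ κ x = c.2)).card * a) ≤
      pr p κ G T (c :: β) s u := by
  intro u
  obtain ⟨d, hd⟩ : ∃ d, d = v - u := ⟨_, rfl⟩
  induction d generalizing u with
  | zero =>
    intro _ hu
    have : u = v := by omega
    subst this
    simp
  | succ d ih =>
    intro hsu huv
    have ih' := ih (u + 1) (by omega) (by omega) (by omega)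
    have hI : Ioc u v = insert (u + 1) (Ioc (u + 1) v) := by
      ext x
      rw [mem_insert, mem_Ioc, mem_Ioc]
      omega
    have hIT : Ioc u T = insert (u + 1) (Ioc (u + 1) T) := by
      ext x
      rw [mem_insert, mem_Ioc, mem_Ioc]
      omega
    have hn : u + 1 ∉ Ioc (u + 1) v := by simp
    have hq0 : 0 ≤ 1 - p := by linarith
    have hnG : u + 1 ∉ (Ioc (u + 1) v).filter G := fun h => hn (mem_filter.1 h).1
    have hnG2 : u + 1 ∉ (Ioc (u + 1) v).filter (fun x => G x ∧ κ x = c.2) := fun h => hn (mem_filter.1 h).1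
    by_cases hG : G (u + 1)
    · -- the element `u + 1`
      have e1 : ((Ioc u v).filter G).card = ((Ioc (u + 1) v).filter G).card + 1 := by
        rw [hI, Finset.filter_insert, if_pos hG, card_insert_of_notMem hnG]
      have e2 : pr p κ G T (c :: β) s u = (1 - p) * pr p κ G T (c :: β) s (u + 1) +
          p * (if κ (u + 1) = c.2 then pr p κ G T β (u + 1) (u + 1) else 0) := by
        unfold pr
        rw [hIT, Finset.filter_insert, if_pos hG, res_insert id (u + 1) _ (fun x hx => by
          have := mem_Ioc.1 (mem_filter.1 hx).1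
          omega)]
        simp only [Ex, id]
        congr 1
        congr 1
        split_ifs with hκ
        · congr 1
          funext t
          unfold Fi
          congr 1
          simp only [Pt, eq_iff_iff]
          constructor
          · exact fun h => h.2.2
          · exact fun h => ⟨by omega, hκ, h⟩
        · have : (fun t => Fi κ (c :: β) s ((u + 1) :: t)) = fun _ => (0 : ℝ) := by
            funext t
            unfold Fi
            rw [if_neg]
            simp only [Pt]
            exact fun h => hκ h.2.1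
          rw [this, Ex_const]
      obtain ⟨n, hn'⟩ : ∃ n, n = ((Ioc (u + 1) v).filter G).card := ⟨_, rfl⟩
      obtain ⟨k, hk⟩ : ∃ k, k = ((Ioc (u + 1) v).filter (fun x => G x ∧ κ x = c.2)).card := ⟨_, rfl⟩
      obtain ⟨P, hP⟩ : ∃ P, P = pr p κ G T (c :: β) s v := ⟨_, rfl⟩
      rw [e1, e2, ← hn', ← hP]
      rw [← hn', ← hk, ← hP] at ih'
      have h1 := mul_le_mul_of_nonneg_left ih' hq0
      have hqn : (1 - p) ^ (n + 1) ≤ 1 := pow_le_one₀ hq0 (by linarith)
      have hqn0 : 0 ≤ (1 - p) ^ (n + 1) := pow_nonneg hq0 _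
      split_ifs with hκ
      · have e3 : ((Ioc u v).filter (fun x => G x ∧ κ x = c.2)).card = k + 1 := by
          rw [hI, Finset.filter_insert, if_pos ⟨hG, hκ⟩, card_insert_of_notMem hnG2, hk]
        rw [e3]
        push_cast
        have h2 := hβ (u + 1) (by omega) (by omega)
        have h3 : p * ((1 - p) ^ (n + 1) * a) ≤ p * pr p κ G T β (u + 1) (u + 1) := by
          apply mul_le_mul_of_nonneg_left _ hp
          refine le_trans ?_ h2
          nlinarith
        have e4 : (1 - p) ^ (n + 1) * P + p * (1 - p) ^ (n + 1) * ((k + 1) * a) =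
            (1 - p) * ((1 - p) ^ n * P + p * (1 - p) ^ n * (k * a)) + p * ((1 - p) ^ (n + 1) * a) := by
          rw [pow_succ]
          ring
        rw [e4]
        linarith
      · have e3 : ((Ioc u v).filter (fun x => G x ∧ κ x = c.2)).card = k := by
          rw [hI, Finset.filter_insert, if_neg (fun h => hκ h.2), hk]
        rw [e3]
        have e4 : (1 - p) ^ (n + 1) * P + p * (1 - p) ^ (n + 1) * (k * a) =
            (1 - p) * ((1 - p) ^ n * P + p * (1 - p) ^ n * (k * a)) := by
          rw [pow_succ]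
          ring
        rw [e4]
        linarith
    · have e1 : (Ioc u v).filter G = (Ioc (u + 1) v).filter G := by
        rw [hI, Finset.filter_insert, if_neg hG]
      have e3 : (Ioc u v).filter (fun x => G x ∧ κ x = c.2) = (Ioc (u + 1) v).filter (fun x => G x ∧ κ x = c.2) := by
        rw [hI, Finset.filter_insert, if_neg (fun h => hG h.1)]
      have e2 : pr p κ G T (c :: β) s u = pr p κ G T (c :: β) s (u + 1) := by
        unfold pr
        rw [hIT, Finset.filter_insert, if_neg hG]
      rw [e1, e2, e3]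
      exact ih'

open Classical in
lemma step_up (p : ℝ) (hp : 0 ≤ p) (hp1 : p ≤ 1) (κ : ℕ → ℕ) (G : ℕ → Prop) (T : ℕ) (c : ℕ × ℕ) (β : List (ℕ × ℕ))
    (s : ℕ) (a : ℝ) (ha : 0 ≤ a) (v : ℕ) (hvT : v ≤ T)
    (hβ : ∀ x, s < x → x ≤ s + c.1 → pr p κ G T β x x ≤ a) :
    ∀ u : ℕ, s ≤ u → u ≤ v →
      pr p κ G T (c :: β) s u ≤
      (1 - p) ^ ((Ioc u v).filter G).card * pr p κ G T (c :: β) s v +
        p * (((Ioc u v).filter (fun x => G x ∧ κ x = c.2)).card * a) := by
  intro u
  obtain ⟨d, hd⟩ : ∃ d, d = v - u := ⟨_, rfl⟩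
  induction d generalizing u with
  | zero =>
    intro _ hu
    have : u = v := by omega
    subst this
    simp
  | succ d ih =>
    intro hsu huv
    have ih' := ih (u + 1) (by omega) (by omega) (by omega)
    have hI : Ioc u v = insert (u + 1) (Ioc (u + 1) v) := by
      ext x
      rw [mem_insert, mem_Ioc, mem_Ioc]
      omega
    have hIT : Ioc u T = insert (u + 1) (Ioc (u + 1) T) := by
      ext x
      rw [mem_insert, mem_Ioc, mem_Ioc]
      omega
    have hn : u + 1 ∉ Ioc (u + 1) v := by simp
    have hq0 : 0 ≤ 1 - p := by linarith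
    have hnG : u + 1 ∉ (Ioc (u + 1) v).filter G := fun h => hn (mem_filter.1 h).1
    have hnG2 : u + 1 ∉ (Ioc (u + 1) v).filter (fun x => G x ∧ κ x = c.2) := fun h => hn (mem_filter.1 h).1
    by_cases hG : G (u + 1)
    · -- the element `u + 1`
      have e1 : ((Ioc u v).filter G).card = ((Ioc (u + 1) v).filter G).card + 1 := by
        rw [hI, Finset.filter_insert, if_pos hG, card_insert_of_notMem hnG]
      have e2 : pr p κ G T (c :: β) s u ≤ (1 - p) * pr p κ G T (c :: β) s (u + 1) +
          p * (if κ (u + 1) = c.2 then a else 0) := by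
        unfold pr
        rw [hIT, Finset.filter_insert, if_pos hG, res_insert id (u + 1) _ (fun x hx => by
          have := mem_Ioc.1 (mem_filter.1 hx).1
          omega)]
        simp only [Ex, id]
        apply add_le_add le_rfl
        apply mul_le_mul_of_nonneg_left _ hp
        by_cases hx : u + 1 ≤ s + c.1 ∧ κ (u + 1) = c.2
        · rw [if_pos hx.2]
          refine le_trans (le_of_eq ?_) (hβ (u + 1) (by omega) hx.1)
          unfold pr
          congr 1
          funext t
          unfold Fi
          congr 1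
          simp only [Pt, eq_iff_iff]
          constructor
          · exact fun h => h.2.2
          · exact fun h => ⟨hx.1, hx.2, h⟩
        · have : (fun t => Fi κ (c :: β) s ((u + 1) :: t)) = fun _ => (0 : ℝ) := by
            funext t
            unfold Fi
            rw [if_neg]
            simp only [Pt]
            exact fun h => hx ⟨h.1, h.2.1⟩
          rw [this, Ex_const]
          split_ifs
          · exact ha
          · exact le_rfl
      obtain ⟨n, hn'⟩ : ∃ n, n = ((Ioc (u + 1) v).filter G).card := ⟨_, rfl⟩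
      obtain ⟨k, hk⟩ : ∃ k, k = ((Ioc (u + 1) v).filter (fun x => G x ∧ κ x = c.2)).card := ⟨_, rfl⟩
      obtain ⟨P, hP⟩ : ∃ P, P = pr p κ G T (c :: β) s v := ⟨_, rfl⟩
      rw [e1, ← hn', ← hP]
      rw [← hn', ← hk, ← hP] at ih'
      have h1 := mul_le_mul_of_nonneg_left ih' hq0
      have hka : 0 ≤ p * (k * a) := by positivity
      split_ifs at e2 with hκ
      · have e3 : ((Ioc u v).filter (fun x => G x ∧ κ x = c.2)).card = k + 1 := by
          rw [hI, Finset.filter_insert, if_pos ⟨hG, hκ⟩, card_insert_of_notMem hnG2, hk]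
        rw [e3]
        push_cast
        have e4 : (1 - p) ^ (n + 1) * P + p * ((k + 1) * a) =
            (1 - p) * ((1 - p) ^ n * P + p * (k * a)) + p * a + p * (p * (k * a)) := by
          rw [pow_succ]
          ring
        rw [e4]
        have : 0 ≤ p * (p * (k * a)) := by positivity
        linarith
      · have e3 : ((Ioc u v).filter (fun x => G x ∧ κ x = c.2)).card = k := by
          rw [hI, Finset.filter_insert, if_neg (fun h => hκ h.2), hk]
        rw [e3]
        have e4 : (1 - p) ^ (n + 1) * P + p * (k * a) =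
            (1 - p) * ((1 - p) ^ n * P + p * (k * a)) + p * (p * (k * a)) := by
          rw [pow_succ]
          ring
        rw [e4]
        have : 0 ≤ p * (p * (k * a)) := by positivity
        linarith
    · have e1 : (Ioc u v).filter G = (Ioc (u + 1) v).filter G := by
        rw [hI, Finset.filter_insert, if_neg hG]
      have e3 : (Ioc u v).filter (fun x => G x ∧ κ x = c.2) = (Ioc (u + 1) v).filter (fun x => G x ∧ κ x = c.2) := by
        rw [hI, Finset.filter_insert, if_neg (fun h => hG h.1)]
      have e2 : pr p κ G T (c :: β) s u = pr p κ G T (c :: β) s (u + 1) := by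
        unfold pr
        rw [hIT, Finset.filter_insert, if_neg hG]
      rw [e1, e2, e3]
      exact ih'

end Pool.Agent.V8H31.TP
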