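import Pool.Agent.V8H31.TP.Law

set_option autoImplicit false

/-!
# One infinite sequence: the level of the sieve grows slowly with `n`
-/

namespace Pool.Agent.V8H31.TP

open Finset Filter

/-- locality of the pattern -/
lemma PR_local (S S' : ℕ → Prop) (R R' : ℕ → ℕ → ℕ → Prop) (Z E : ℕ)
    (hS : ∀ n, Z < n → n ≤ E → (S n ↔ S' n)) (hR : ∀ j g g', Z < g → g < g' → g' ≤ E → (R j g g' ↔ R' j g g'))
    (k : ℕ) : ∀ i g, Z < g → (∃ A : Finset ℕ, k ≤ A.card ∧ ∀ h ∈ A, g < h ∧ h ≤ E ∧ S h) →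
      PR S R k i g → PR S' R' k i g := by
  induction k with
  | zero => exact fun _ _ _ _ _ => trivial
  | succ k ih =>
    rintro i g hg ⟨A, hA1, hA2⟩ ⟨g', h1, h2, h3, h4, h5⟩
    have hg'E : g' ≤ E := by
      obtain ⟨h, hh⟩ : A.Nonempty := Finset.card_pos.1 (by omega)
      obtain ⟨a1, a2, a3⟩ := hA2 h hh
      by_contra hcon
      exact h3 h a1 (by omega) a3
    refine ⟨g', h1, (hS g' (by omega) hg'E).1 h2, ?_, (hR i g g' hg h1 hg'E).1 h4, ih (i + 1) g' (by omega) ?_ h5⟩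
    · intro n hn1 hn2 hn3
      exact h3 n hn1 hn2 ((hS n (by omega) (by omega)).2 hn3)
    · refine ⟨A.erase g', ?_, ?_⟩
      · have := Finset.pred_card_le_card_erase (s := A) (a := g')
        omega
      · intro h hh
        rw [mem_erase] at hh
        obtain ⟨a1, a2, a3⟩ := hA2 h hh.2
        refine ⟨?_, a2, a3⟩
        by_contra hcon
        exact h3 h a1 (by omega) a3

open Classical in
/-- few elements have few successors -/
lemma few_last (A : Finset ℕ) (k : ℕ) : (A.filter (fun g => (A.filter (fun h => g < h)).card < k)).card ≤ k := by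
  have h1 := Finset.card_le_card_of_injOn (s := A.filter (fun g => (A.filter (fun h => g < h)).card < k))
    (t := range k) (fun g => (A.filter (fun h => g < h)).card) (by
      intro g hg
      rw [Finset.mem_coe, mem_filter] at hg
      rw [Finset.mem_coe, mem_range]
      exact hg.2) (by
      have key : ∀ u v : ℕ, u ∈ A → v ∈ A → u < v →
          (A.filter (fun h => v < h)).card < (A.filter (fun h => u < h)).card := by
        intro u v _ hv huv
        apply Finset.card_lt_card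
        rw [Finset.ssubset_iff_of_subset]
        · exact ⟨v, mem_filter.2 ⟨hv, huv⟩, fun h => lt_irrefl v (mem_filter.1 h).2⟩
        · intro x hx
          rw [mem_filter] at hx ⊢
          exact ⟨hx.1, huv.trans hx.2⟩
      intro u hu v hv huv
      rw [Finset.mem_coe, mem_filter] at hu hv
      simp only at huv
      rcases Nat.lt_trichotomy u v with h | h | h
      · have := key u v hu.1 hv.1 h
        omega
      · exact h
      · have := key v u hv.1 hu.1 h
        omega)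
  rwa [card_range] at h1

open Classical in
/-- the number of the elements of `A` in `(u, v]` -/
noncomputable def ct (A : ℕ → Prop) (u v : ℕ) : ℕ := ((Ioc u v).filter A).card

lemma ct_add (A : ℕ → Prop) (u v w : ℕ) (huv : u ≤ v) (hvw : v ≤ w) : ct A u w = ct A u v + ct A v w := by
  classical
  unfold ct
  rw [← Finset.card_union_of_disjoint]
  · rw [← Finset.filter_union, Finset.Ioc_union_Ioc_eq_Ioc huv hvw]
  · apply Finset.disjoint_filter_filter
    rw [Finset.disjoint_left]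
    intro x h3 h4
    rw [mem_Ioc] at h3 h4
    omega

lemma ct_le (A : ℕ → Prop) (u v : ℕ) : ct A u v ≤ v - u := by
  classical
  unfold ct
  refine (card_filter_le _ _).trans ?_
  rw [Nat.card_Ioc]

lemma ct_sum (A : ℕ → Prop) (L m : ℕ) : ct A 0 (m * L) = ∑ i ∈ range m, ct A (i * L) (i * L + L) := by
  induction m with
  | zero => simp [ct]
  | succ m ih =>
    rw [Finset.sum_range_succ, ← ih, show (m + 1) * L = m * L + L by ring]
    exact ct_add A 0 (m * L) (m * L + L) (Nat.zero_le _) (by omega)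

/-- one block -/
lemma one_block (S S' : ℕ → Prop) (κ : ℕ → ℕ) (w : ℕ → ℝ) (W : ℝ) (a : ℕ → ℕ) (lam : ℕ → ℝ) (k Z E : ℕ)
    (hS : ∀ n, Z < n → n ≤ E → (S n ↔ S' n)) (hw : ∀ n, Z < n → n ≤ E → w n = W) :
    |(ct (Fol S κ w a lam k) Z E : ℝ) - ct (Fol S' κ (fun _ => W) a lam k) Z E| ≤ k ∧ ct S Z E = ct S' Z E := by
  classical
  have hN : (Ioc Z E).filter S = (Ioc Z E).filter S' := by
    apply Finset.filter_congr
    intro n hn
    rw [mem_Ioc] at hn
    exact hS n hn.1 hn.2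
  obtain ⟨A, hA⟩ : ∃ A, A = (Ioc Z E).filter S := ⟨_, rfl⟩
  obtain ⟨B, hB⟩ : ∃ B, B = A.filter (fun g => (A.filter (fun h => g < h)).card < k) := ⟨_, rfl⟩
  have hBk : B.card ≤ k := by rw [hB]; exact few_last A k
  have hR : ∀ j g g', Z < g → g < g' → g' ≤ E → (Rr κ w a lam j g g' ↔ Rr κ (fun _ => W) a lam j g g') := by
    intro j g g' h1 h2 h3
    unfold Rr
    rw [hw g h1 (by omega)]
  have h1 : (Ioc Z E).filter (Fol S κ w a lam k) ⊆ (Ioc Z E).filter (Fol S' κ (fun _ => W) a lam k) ∪ B := by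
    intro g hg
    rw [mem_filter, fol_iff] at hg
    rw [mem_union, mem_filter]
    have hgI := mem_Ioc.1 hg.1
    have hgA : g ∈ A := by rw [hA, mem_filter]; exact ⟨hg.1, hg.2.1⟩
    by_cases h2 : (A.filter (fun h => g < h)).card < k
    · right
      rw [hB, mem_filter]
      exact ⟨hgA, h2⟩
    · left
      refine ⟨hg.1, ?_⟩
      rw [fol_iff]
      refine ⟨(hS g hgI.1 hgI.2).1 hg.2.1, hg.2.2.1, ?_⟩
      refine PR_local S S' _ _ Z E hS hR k 0 g hgI.1 ⟨A.filter (fun h => g < h), by omega, ?_⟩ hg.2.2.2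
      intro h hh
      rw [mem_filter, hA, mem_filter, mem_Ioc] at hh
      exact ⟨hh.2, hh.1.1.2, hh.1.2⟩
  have h2 : (Ioc Z E).filter (Fol S' κ (fun _ => W) a lam k) ⊆ (Ioc Z E).filter (Fol S κ w a lam k) ∪ B := by
    intro g hg
    rw [mem_filter, fol_iff] at hg
    rw [mem_union, mem_filter]
    have hgI := mem_Ioc.1 hg.1
    have hgS : S g := (hS g hgI.1 hgI.2).2 hg.2.1
    have hgA : g ∈ A := by rw [hA, mem_filter]; exact ⟨hg.1, hgS⟩
    by_cases h2 : (A.filter (fun h => g < h)).card < k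
    · right
      rw [hB, mem_filter]
      exact ⟨hgA, h2⟩
    · left
      refine ⟨hg.1, ?_⟩
      rw [fol_iff]
      refine ⟨hgS, hg.2.2.1, ?_⟩
      refine PR_local S' S _ _ Z E (fun n h1 h2 => (hS n h1 h2).symm) (fun j u v h1 h2 h3 => (hR j u v h1 h2 h3).symm)
        k 0 g hgI.1 ⟨A.filter (fun h => g < h), by omega, ?_⟩ hg.2.2.2
      intro h hh
      rw [mem_filter, hA, mem_filter, mem_Ioc] at hh
      exact ⟨hh.2, hh.1.1.2, (hS h hh.1.1.1 hh.1.1.2).1 hh.1.2⟩
  constructor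
  · have h3 := (card_le_card h1).trans (card_union_le _ _)
    have h4 := (card_le_card h2).trans (card_union_le _ _)
    have h5 : (ct (Fol S κ w a lam k) Z E : ℝ) ≤ ct (Fol S' κ (fun _ => W) a lam k) Z E + k := by
      unfold ct
      exact_mod_cast h3.trans (by omega)
    have h6 : (ct (Fol S' κ (fun _ => W) a lam k) Z E : ℝ) ≤ ct (Fol S κ w a lam k) Z E + k := by
      unfold ct
      exact_mod_cast h4.trans (by omega)
    rw [abs_le]
    constructor <;> linarith
  · unfold ct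
    rw [hN]

/-- **The infinite sequence.** -/
theorem star (S : ℕ → ℕ → Prop) (W : ℕ → ℝ) (κ : ℕ → ℕ) (a : ℕ → ℕ) (lam : ℕ → ℝ) (k : ℕ) (P : ℝ) (hP0 : 0 ≤ P)
    (hP1 : P ≤ 1)
    (H : ∀ ε : ℝ, 0 < ε → ∃ K y0 : ℕ, ∀ y : ℕ, y0 ≤ y → 0 < W y ∧ ∀ Z Y : ℕ, y ^ K ≤ Y →
      |(ct (S y) Z (Z + Y) : ℝ) - Y * W y| ≤ ε * (Y * W y) ∧
      |(ct (Fol (S y) κ (fun _ => W y) a lam k) Z (Z + Y) : ℝ) - Y * W y * P| ≤ ε * (Y * W y))
    (E y1 : ℕ) (hE : ∀ y : ℕ, y1 ≤ y → 1 ≤ W y * (y : ℝ) ^ E)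
    (z : ℕ → ℕ) (hz : Monotone z) (hzt : Tendsto z atTop atTop) (hzs : ∀ K : ℕ, ∀ᶠ n in atTop, z n ^ K ≤ n) :
    Tendsto (fun x : ℕ => (ct (Fol (fun n => S (z n) n) κ (fun n => W (z n)) a lam k) 0 x : ℝ) /
      ct (fun n => S (z n) n) 0 x) atTop (nhds P) := by
  rw [Metric.tendsto_atTop]
  intro ε' hε'
  obtain ⟨ε, hε⟩ : ∃ ε : ℝ, ε = min (ε' / 2) 1 := ⟨_, rfl⟩
  have hε0 : 0 < ε := by rw [hε]; positivity
  have hε1 : ε ≤ 1 := by rw [hε]; exact min_le_right _ _
  have hεε : ε < ε' := by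
    have : ε ≤ ε' / 2 := by rw [hε]; exact min_le_left _ _
    linarith
  obtain ⟨K, y0, hK⟩ := H (ε / 8) (by positivity)
  obtain ⟨n1, hn1⟩ := (hzt.eventually_ge_atTop (max (y0 + 1) (y1 + 1))).exists_forall_of_atTop
  obtain ⟨c1, hc1⟩ : ∃ c : ℕ, 8 * (k : ℝ) / ε ≤ c := exists_nat_ge _
  obtain ⟨c2, hc2⟩ : ∃ c : ℕ, 8 / ε ≤ c := exists_nat_ge _
  obtain ⟨n2, hn2⟩ := (hzt.eventually_ge_atTop (c1 + c2 + n1 + 4)).exists_forall_of_atTop
  obtain ⟨n3, hn3⟩ := (hzs (2 * E + K + 6)).exists_forall_of_atTop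
  refine ⟨max n2 n3, ?_⟩
  intro x hx
  obtain ⟨ζ, hζ⟩ : ∃ ζ, ζ = z x := ⟨_, rfl⟩
  have hζ1 : c1 + c2 + n1 + 4 ≤ ζ := by rw [hζ]; exact hn2 x ((le_max_left _ _).trans hx)
  have hζ2 : ζ ^ (2 * E + K + 6) ≤ x := by rw [hζ]; exact hn3 x ((le_max_right _ _).trans hx)
  have hζ0 : 1 ≤ ζ := by omega
  have hζr : (1 : ℝ) ≤ ζ := by exact_mod_cast hζ0
  obtain ⟨L, hL⟩ : ∃ L, L = ζ ^ (K + E + 2) := ⟨_, rfl⟩
  have hL1 : 1 ≤ L := by rw [hL]; exact Nat.one_le_pow _ _ hζ0
  have hLr : (1 : ℝ) ≤ L := by exact_mod_cast hL1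
  obtain ⟨m, hm⟩ : ∃ m, m = x / L := ⟨_, rfl⟩
  have hmL : m * L ≤ x := by rw [hm]; exact Nat.div_mul_le_self _ _
  have hmL2 : x ≤ m * L + L := by
    have h1 := Nat.div_add_mod x L
    have h2 := Nat.mod_lt x (show 0 < L by omega)
    rw [← hm] at h1
    have h3 : L * m = m * L := mul_comm _ _
    omega
  have hmbig : ζ ^ (E + 4) ≤ m := by
    rw [hm, Nat.le_div_iff_mul_le (by omega), hL, ← pow_add]
    rw [show E + 4 + (K + E + 2) = 2 * E + K + 6 by ring]
    exact hζ2
  obtain ⟨SS, hSS⟩ : ∃ SS : ℕ → Prop, SS = fun n => S (z n) n := ⟨_, rfl⟩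
  obtain ⟨FF, hFF⟩ : ∃ FF : ℕ → Prop, FF = Fol (fun n => S (z n) n) κ (fun n => W (z n)) a lam k := ⟨_, rfl⟩
  rw [← hFF, ← hSS]
  -- good blocks
  obtain ⟨good, hgood⟩ : ∃ good : ℕ → Prop, good = fun i => z (i * L + 1) = z (i * L + L) ∧ n1 ≤ i * L + 1 := ⟨_, rfl⟩
  have hblock : ∀ i < m, good i →
      |(ct FF (i * L) (i * L + L) : ℝ) - P * ct SS (i * L) (i * L + L)| ≤ ε / 2 * ct SS (i * L) (i * L + L) ∧
      (L : ℝ) / (2 * ζ ^ E) ≤ ct SS (i * L) (i * L + L) := by
    intro i hi hgi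
    rw [hgood] at hgi
    obtain ⟨g1, g2⟩ := hgi
    obtain ⟨y, hy⟩ : ∃ y, y = z (i * L + 1) := ⟨_, rfl⟩
    have hconst : ∀ n, i * L < n → n ≤ i * L + L → z n = y := by
      intro n h1 h2
      have h3 := hz (show i * L + 1 ≤ n by omega)
      have h4 := hz (show n ≤ i * L + L by omega)
      rw [← g1] at h4
      rw [hy]
      exact le_antisymm h4 h3
    have hyn := hn1 (i * L + 1) g2
    rw [← hy] at hyn
    have hy0 : y0 ≤ y := by
      have := (le_max_left (y0 + 1) (y1 + 1)).trans hyn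
      omega
    have hy1 : y1 ≤ y := by
      have := (le_max_right (y0 + 1) (y1 + 1)).trans hyn
      omega
    have hyζ : y ≤ ζ := by
      rw [hy, hζ]
      apply hz
      have h5 : (i + 1) * L ≤ m * L := Nat.mul_le_mul_right _ (by omega)
      have h6 : (i + 1) * L = i * L + L := by ring
      omega
    have hyL : y ^ K ≤ L := by
      rw [hL]
      exact (Nat.pow_le_pow_left hyζ K).trans (Nat.pow_le_pow_right hζ0 (by omega))
    obtain ⟨hW0, hKy⟩ := hK y hy0
    obtain ⟨b1, b2⟩ := hKy (i * L) L hyL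
    obtain ⟨b3, b4⟩ := one_block (fun n => S (z n) n) (S y) κ (fun n => W (z n)) (W y) a lam k (i * L) (i * L + L)
      (fun n h1 h2 => by rw [hconst n h1 h2]) (fun n h1 h2 => by rw [hconst n h1 h2])
    rw [← hFF] at b3
    rw [← hSS] at b4
    rw [← b4] at b1
    have hEy := hE y hy1
    have hLW : (L : ℝ) / ζ ^ E ≤ L * W y := by
      rw [div_le_iff₀ (by positivity)]
      have h5 : (y : ℝ) ^ E ≤ (ζ : ℝ) ^ E := pow_le_pow_left₀ (Nat.cast_nonneg _) (by exact_mod_cast hyζ) E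
      have h6 : 1 ≤ W y * (ζ : ℝ) ^ E := hEy.trans (by gcongr)
      nlinarith
    obtain ⟨B, hB⟩ : ∃ B : ℝ, B = L * W y := ⟨_, rfl⟩
    rw [← hB] at b1 b2 hLW
    have hB0 : 0 < B := by rw [hB]; positivity
    have hkB : (k : ℝ) ≤ ε / 8 * B := by
      have h5 : (ζ : ℝ) ≤ B := by
        refine le_trans ?_ hLW
        rw [le_div_iff₀ (by positivity)]
        have h6 : ζ * ζ ^ E ≤ L := by
          rw [hL]
          calc ζ * ζ ^ E = ζ ^ (E + 1) := by ring
            _ ≤ ζ ^ (K + E + 2) := Nat.pow_le_pow_right hζ0 (by omega)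
        exact_mod_cast h6
      have h6 : 8 * (k : ℝ) / ε ≤ B := hc1.trans (le_trans (by exact_mod_cast (by omega : c1 ≤ ζ)) h5)
      rw [div_le_iff₀ hε0] at h6
      linarith
    have b1' := abs_le.1 b1
    refine ⟨?_, ?_⟩
    · obtain ⟨N, hN⟩ : ∃ N : ℝ, N = ct SS (i * L) (i * L + L) := ⟨_, rfl⟩
      rw [← hN] at b1' b1 ⊢
      have h5 : |P * N - B * P| ≤ ε / 8 * B := by
        have e1 : P * N - B * P = P * (N - B) := by ring
        rw [e1, abs_mul, abs_of_nonneg hP0]
        calc P * |N - B| ≤ 1 * (ε / 8 * B) := by gcongr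
          _ = _ := by ring
      have h6 : 3 * (ε / 8) * B ≤ ε / 2 * N := by
        have h7 : 7 / 8 * B ≤ N := by nlinarith [b1'.1]
        nlinarith
      rw [abs_le] at b2 b3 h5 ⊢
      constructor <;> linarith [b2.1, b2.2, b3.1, b3.2, h5.1, h5.2]
    · have h7 : B / 2 ≤ ct SS (i * L) (i * L + L) := by nlinarith [b1'.1]
      refine le_trans ?_ h7
      rw [mul_comm 2, ← div_div]
      gcongr
  -- the number of bad blocks
  classical
  obtain ⟨bad, hbad⟩ : ∃ bad, bad = (range m).filter (fun i => ¬ good i) := ⟨_, rfl⟩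
  have hbadcard : bad.card ≤ ζ + 1 + (n1 + 1) := by
    have h1 : bad ⊆ (range m).filter (fun i => z (i * L + 1) ≠ z (i * L + L)) ∪ range (n1 + 1) := by
      intro i hi
      rw [hbad, mem_filter, mem_range, hgood] at hi
      rw [mem_union, mem_filter, mem_range, mem_range]
      by_cases h2 : z (i * L + 1) = z (i * L + L)
      · right
        have h3 : ¬ n1 ≤ i * L + 1 := fun h => hi.2 ⟨h2, h⟩
        have h4 : i ≤ i * L := Nat.le_mul_of_pos_right i hL1
        omega
      · left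
        exact ⟨hi.1, h2⟩
    have h2 : ((range m).filter (fun i => z (i * L + 1) ≠ z (i * L + L))).card ≤ (range (ζ + 1)).card := by
      apply Finset.card_le_card_of_injOn (fun i => z (i * L + L))
      · intro i hi
        rw [Finset.mem_coe, mem_filter, mem_range] at hi
        rw [Finset.mem_coe, mem_range]
        show z (i * L + L) < ζ + 1
        have h5 : (i + 1) * L ≤ m * L := Nat.mul_le_mul_right _ (by omega)
        have h6 : (i + 1) * L = i * L + L := by ring
        have h7 := hz (show i * L + L ≤ x by omega)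
        rw [← hζ] at h7
        omega
      · have key : ∀ i j : ℕ, i < j → z (j * L + 1) ≠ z (j * L + L) → z (i * L + L) < z (j * L + L) := by
          intro i j hij hj
          have h5 : (i + 1) * L ≤ j * L := Nat.mul_le_mul_right _ (by omega)
          have h6 : (i + 1) * L = i * L + L := by ring
          have h7 := hz (show i * L + L ≤ j * L + 1 by omega)
          have h8 := hz (show j * L + 1 ≤ j * L + L by omega)
          omega
        intro i hi j hj hij
        rw [Finset.mem_coe, mem_filter] at hi hj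
        simp only at hij
        rcases Nat.lt_trichotomy i j with h | h | h
        · have := key i j h hj.2
          omega
        · exact h
        · have := key j i h hi.2
          omega
    rw [card_range] at h2
    have h3 := (card_le_card h1).trans (card_union_le _ _)
    rw [card_range] at h3
    omega
  have hbad2 : bad.card + 1 ≤ 2 * ζ := by omega
  have hbad2r : (bad.card : ℝ) + 1 ≤ 2 * ζ := by exact_mod_cast hbad2
  -- the sums
  obtain ⟨N, hN⟩ : ∃ N : ℝ, N = ct SS 0 x := ⟨_, rfl⟩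
  obtain ⟨C, hC⟩ : ∃ C : ℝ, C = ct FF 0 x := ⟨_, rfl⟩
  have hNsplit : N = ∑ i ∈ range m, (ct SS (i * L) (i * L + L) : ℝ) + ct SS (m * L) x := by
    rw [hN, ct_add SS 0 (m * L) x (Nat.zero_le _) hmL, ct_sum]
    push_cast
    rfl
  have hCsplit : C = ∑ i ∈ range m, (ct FF (i * L) (i * L + L) : ℝ) + ct FF (m * L) x := by
    rw [hC, ct_add FF 0 (m * L) x (Nat.zero_le _) hmL, ct_sum]
    push_cast
    rfl
  have hctL : ∀ (A : ℕ → Prop) (u v : ℕ), v ≤ u + L → (ct A u v : ℝ) ≤ L := by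
    intro A u v huv
    have := ct_le A u v
    exact_mod_cast (by omega : ct A u v ≤ L)
  have hct0 : ∀ (A : ℕ → Prop) (u v : ℕ), (0 : ℝ) ≤ ct A u v := fun A u v => Nat.cast_nonneg _
  have hdiff : ∀ u v : ℕ, v ≤ u + L → |(ct FF u v : ℝ) - P * ct SS u v| ≤ L := by
    intro u v huv
    have h1 := hctL FF u v huv
    have h2 := hctL SS u v huv
    have h3 := hct0 FF u v
    have h4 := hct0 SS u v
    have h5 : P * (ct SS u v : ℝ) ≤ L := by nlinarith
    have h6 : 0 ≤ P * (ct SS u v : ℝ) := by positivity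
    rw [abs_le]
    constructor <;> linarith
  have hmain : |C - P * N| ≤ ε / 2 * N + (bad.card + 1) * L := by
    have e1 : C - P * N = ∑ i ∈ range m, ((ct FF (i * L) (i * L + L) : ℝ) - P * ct SS (i * L) (i * L + L)) +
        ((ct FF (m * L) x : ℝ) - P * ct SS (m * L) x) := by
      rw [hNsplit, hCsplit, Finset.sum_sub_distrib, ← Finset.mul_sum]
      ring
    rw [e1]
    refine (abs_add_le _ _).trans ?_
    have h1 := hdiff (m * L) x hmL2
    have h2 : |∑ i ∈ range m, ((ct FF (i * L) (i * L + L) : ℝ) - P * ct SS (i * L) (i * L + L))| ≤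
        ∑ i ∈ range m, (ε / 2 * (ct SS (i * L) (i * L + L) : ℝ) + if good i then 0 else (L : ℝ)) := by
      refine (Finset.abs_sum_le_sum_abs _ _).trans ?_
      apply Finset.sum_le_sum
      intro i hi
      rw [mem_range] at hi
      split_ifs with hg
      · rw [add_zero]
        exact (hblock i hi hg).1
      · have h3 := hdiff (i * L) (i * L + L) le_rfl
        have h4 : 0 ≤ ε / 2 * (ct SS (i * L) (i * L + L) : ℝ) := by
          have := hct0 SS (i * L) (i * L + L)
          positivity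
        linarith
    rw [Finset.sum_add_distrib, ← Finset.mul_sum] at h2
    have h3 : ∑ i ∈ range m, (if good i then (0 : ℝ) else (L : ℝ)) = bad.card * L := by
      rw [hbad, Finset.sum_ite, Finset.sum_const_zero, zero_add, Finset.sum_const, nsmul_eq_mul]
    rw [h3] at h2
    have h4 : ε / 2 * ∑ i ∈ range m, (ct SS (i * L) (i * L + L) : ℝ) ≤ ε / 2 * N := by
      apply mul_le_mul_of_nonneg_left _ (by positivity)
      rw [hNsplit]
      have := hct0 SS (m * L) x
      linarith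
    linarith
  -- the lower bound for `N`
  have hNlow : ((m : ℝ) - bad.card) * (L / (2 * ζ ^ E)) ≤ N := by
    have h1 : ∑ i ∈ (range m).filter good, (L : ℝ) / (2 * ζ ^ E) ≤ N := by
      rw [hNsplit]
      have h2 : ∑ i ∈ (range m).filter good, (L : ℝ) / (2 * ζ ^ E) ≤
          ∑ i ∈ (range m).filter good, (ct SS (i * L) (i * L + L) : ℝ) := by
        apply Finset.sum_le_sum
        intro i hi
        rw [mem_filter, mem_range] at hi
        exact (hblock i hi.1 hi.2).2
      have h3 : ∑ i ∈ (range m).filter good, (ct SS (i * L) (i * L + L) : ℝ) ≤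
          ∑ i ∈ range m, (ct SS (i * L) (i * L + L) : ℝ) :=
        Finset.sum_le_sum_of_subset_of_nonneg (filter_subset _ _) (fun _ _ _ => hct0 _ _ _)
      have := hct0 SS (m * L) x
      linarith
    rw [Finset.sum_const, nsmul_eq_mul] at h1
    have h2 : (((range m).filter good).card : ℝ) = m - bad.card := by
      have h3 := Finset.card_filter_add_card_filter_not (s := range m) good
      rw [card_range, ← hbad] at h3
      have h4 : ((((range m).filter good).card + bad.card : ℕ) : ℝ) = m := by exact_mod_cast h3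
      push_cast at h4
      linarith
    rwa [h2] at h1
  have hmr : (ζ : ℝ) ^ (E + 4) ≤ m := by exact_mod_cast hmbig
  have hζE : (1 : ℝ) ≤ (ζ : ℝ) ^ E := one_le_pow₀ hζr
  have hbadL : (bad.card + 1) * (L : ℝ) ≤ ε / 2 * N := by
    have hζ8 : 8 / ε ≤ ζ := hc2.trans (by exact_mod_cast (by omega : c2 ≤ ζ))
    rw [div_le_iff₀ hε0] at hζ8
    have hζ4 : (4 : ℝ) ≤ ζ := by exact_mod_cast (by omega : 4 ≤ ζ)
    -- `m - bad ≥ ζ ^ (E + 3)`
    have h1 : (ζ : ℝ) ^ (E + 3) ≤ m - bad.card := by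
      have h2 : (ζ : ℝ) ^ (E + 4) = ζ * (ζ : ℝ) ^ (E + 3) := by ring
      have h3 : (ζ : ℝ) ≤ (ζ : ℝ) ^ (E + 3) := by
        calc (ζ : ℝ) = (ζ : ℝ) ^ 1 := (pow_one _).symm
          _ ≤ (ζ : ℝ) ^ (E + 3) := pow_le_pow_right₀ hζr (by omega)
      nlinarith
    have h2 : (bad.card + 1) * (L : ℝ) ≤ 2 * ζ * L := by gcongr
    refine h2.trans ?_
    have h3 : ε / 2 * ((ζ : ℝ) ^ (E + 3) * (L / (2 * ζ ^ E))) ≤ ε / 2 * N := by
      apply mul_le_mul_of_nonneg_left _ (by positivity)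
      refine le_trans ?_ hNlow
      gcongr
    refine le_trans ?_ h3
    have h4 : ε / 2 * ((ζ : ℝ) ^ (E + 3) * (L / (2 * ζ ^ E))) = ε * ζ / 4 * ζ ^ 2 * L := by
      rw [pow_add]
      field_simp
      ring
    rw [h4]
    have h5 : 2 ≤ ε * ζ / 4 := by linarith
    have h6 : (ζ : ℝ) ≤ ζ ^ 2 := by nlinarith
    have h7 : 2 * (ζ : ℝ) ≤ ε * ζ / 4 * ζ ^ 2 := mul_le_mul h5 h6 (by linarith) (by linarith)
    nlinarith
  have hN0 : 0 < N := by
    have h1 : 0 < (bad.card + 1) * (L : ℝ) := by positivity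
    by_contra hcon
    rw [not_lt] at hcon
    have h2 : ε / 2 * N ≤ 0 := mul_nonpos_of_nonneg_of_nonpos (by positivity) hcon
    linarith
  rw [← hC, ← hN, Real.dist_eq]
  have e1 : C / N - P = (C - P * N) / N := by
    field_simp
  rw [e1, abs_div, abs_of_pos hN0, div_lt_iff₀ hN0]
  calc |C - P * N| ≤ ε * N := by linarith
    _ < ε' * N := by gcongr

end Pool.Agent.V8H31.TP
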