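import Pool.Agent.V8H31.TP.LOne
import Pool.Agent.V8H31.TP.Eval

set_option autoImplicit false

/-!
# The sifted integers near a sifted integer look like a random thinning
-/

namespace Pool.Agent.V8H31.TP

open Finset Filter
open Pool.Agent.W123.RP Pool.Agent.H373R2.T7 Pool.Agent.W123.RU Pool.Agent.TH464.PO
open Pool.Agent.Y879.PR Pool.Agent.V11146.MK

open Classical in
/-- the base points of the model -/
noncomputable def Ra (Q : ℕ → ℕ → Prop) (l a w : ℕ) : Finset ℕ :=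
  (range (Mw w)).filter (fun m => Sf Q w m ∧ m % l = a)

lemma Ra_card (Q : ℕ → ℕ → Prop) (c : ℕ) (hQ : PerB Q c) (l a w : ℕ) (hl : l.Prime) (hlw : l ≤ w)
    (ha : a ∈ cls Q l) : ((Ra Q l a w).card : ℝ) * (cls Q l).card = Mw w * Vq Q w :=
  class_count Q c hQ l a w hl hlw ha

lemma Ra_card_eq (Q : ℕ → ℕ → Prop) (c : ℕ) (hQ : PerB Q c) (l a b w : ℕ) (hl : l.Prime) (hlw : l ≤ w)
    (ha : a ∈ cls Q l) (hb : b ∈ cls Q l) : (Ra Q l b w).card = (Ra Q l a w).card := by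
  have h1 := Ra_card Q c hQ l a w hl hlw ha
  have h2 := Ra_card Q c hQ l b w hl hlw hb
  have hA : (0 : ℝ) < (cls Q l).card := by exact_mod_cast Finset.card_pos.2 ⟨a, ha⟩
  rw [← h1] at h2
  have h3 := mul_right_cancel₀ hA.ne' h2
  exact_mod_cast h3

/-- the block structure of the sifted set -/
lemma blk (Q : ℕ → ℕ → Prop) (c : ℕ) (hQ : PerB Q c) (l a w m : ℕ) (hl : l.Prime) (hlw : l ≤ w)
    (ha : a ∈ cls Q l) :
    Blk (fun h => Sf Q w (m + h)) (fun h => (m + h) % l) (cls Q l) (Mw w) (Ra Q l a w).card where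
  hM := Mw_pos w
  cnt := by
    intro b hb s
    rw [block_count Q c hQ l b w m s hl hlw]
    exact Ra_card_eq Q c hQ l a b w hl hlw ha hb
  cls := by
    intro h hh
    exact mod_mem_cls Q c hQ l w (m + h) hl hlw hh

lemma Og_eq (Q : ℕ → ℕ → Prop) (y T g : ℕ) [DecidablePred (fun h => Sf Q y (g + h))] :
    Og Q y T g = (Ioc 0 T).filter (fun h => Sf Q y (g + h)) := by
  unfold Og
  congr

open Classical in
/-- **The sifted integers near a sifted integer look like a random thinning.** -/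
theorem thin (c l : ℕ) (hl : l.Prime) (Λ ε : ℝ) (hΛ : 1 ≤ Λ) (hε : 0 < ε) :
    ∃ (w0 K0 y0 R0 : ℕ) (η' : ℝ), 0 < η' ∧ l ≤ w0 ∧ ∀ w : ℕ, w0 ≤ w → ∃ T0 : ℕ, ∀ Z Y y T : ℕ, T0 ≤ T →
      T ^ R0 ≤ Y → y0 ≤ y → y ^ K0 ≤ Y → w ≤ y →
      ∀ Q : ℕ → ℕ → Prop, PerB Q c → (∀ p : ℕ, p.Prime → nuB Q p < p) → 1 ≤ T * Vq Q y → T * Vq Q y ≤ Λ →
      (∀ T' : ℕ, T ≤ 2 * T' → T' ≤ 2 * T →
        ∀ t ∈ Icc 1 T', ((((pz y).filter (fun p : ℕ => T' < p ∧ CoG Q p t)).card : ℕ) : ℝ) ≤ η' * T') →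
      ∀ a ∈ cls Q l, ∀ F : List ℕ → ℝ, (∀ t, |F t| ≤ 1) →
        |∑ g ∈ Oa Q l a y Z Y, F (res id (Og Q y T g)) -
          Y * Vt Q w y / Mw w * ∑ m ∈ Ra Q l a w, Ex (Vt Q w y) (res id (Og Q w T m)) F| ≤
          ε * (Y * Vq Q y) := by
  obtain ⟨J, η, hη, hcmp⟩ := cmp (2 * Λ) ε (by linarith) hε
  obtain ⟨E, hE⟩ : ∃ E : ℝ, E = Real.exp Λ := ⟨_, rfl⟩
  have hE0 : 0 < E := by rw [hE]; exact Real.exp_pos _
  have hl0 : (0 : ℝ) < l := by exact_mod_cast hl.pos
  obtain ⟨η2, hη2⟩ : ∃ η2 : ℝ, η2 = min 1 (η / (2 * l * E)) := ⟨_, rfl⟩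
  have hη20 : 0 < η2 := by rw [hη2]; positivity
  have hη21 : η2 ≤ 1 := by rw [hη2]; exact min_le_left _ _
  have hη22 : η2 * E ≤ η / 2 / l := by
    have : η2 ≤ η / (2 * l * E) := by rw [hη2]; exact min_le_right _ _
    rw [le_div_iff₀ (by positivity)] at this
    rw [le_div_iff₀ hl0]
    linarith
  choose w0 K0 y0 η' hη' hlw hmom using fun j => mom_LOne c j l hl η2 hη20 hη21
  obtain ⟨η0, hη00, hη0⟩ := exists_lower η' hη' (J + 1)
  obtain ⟨T1, hT1⟩ : ∃ T1 : ℕ, 2 * l / η ≤ T1 := exists_nat_ge _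
  refine ⟨∑ k ∈ range (J + 1), w0 k, (∑ k ∈ range (J + 1), K0 k), (∑ k ∈ range (J + 1), y0 k) + 1,
    2 * (J + 2), η0, hη00, ?_, ?_⟩
  · exact (hlw 0).trans (Finset.single_le_sum (fun _ _ => Nat.zero_le _) (mem_range.2 (by omega)))
  intro w hw
  have hww : ∀ j, j ≤ J → w0 j ≤ w := fun j hj =>
    (Finset.single_le_sum (fun _ _ => Nat.zero_le _) (mem_range.2 (by omega))).trans hw
  have hex : ∀ j : ℕ, ∃ T0 : ℕ, j ≤ J → ∀ Z Y y T : ℕ, T0 ≤ T →
      y0 j ≤ y → y ^ K0 j ≤ Y → w ≤ y →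
      ∀ Q : ℕ → ℕ → Prop, PerB Q c → (∀ p : ℕ, p.Prime → nuB Q p < p) →
      (∀ T' : ℕ, T ≤ 2 * T' → T' ≤ 2 * T →
        ∀ t ∈ Icc 1 T', ((((pz y).filter (fun p : ℕ => T' < p ∧ CoG Q p t)).card : ℕ) : ℝ) ≤ η' j * T') →
      ∀ a ∈ cls Q l,
        ∑ H ∈ powersetCard j (Xs Q l a T), |(((Oa Q l a y Z Y).filter (fun g => H ⊆ Og Q y T g)).card : ℝ) -
          Y * Vt Q w y ^ (j + 1) * Vq (QB Q l a H) w| ≤
          η2 * (Y * (Vq Q y * ((T * Vq Q y) ^ j / j.factorial))) + T ^ j * √(Y : ℝ) := by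
    intro j
    by_cases hj : j ≤ J
    · obtain ⟨T0, hT0⟩ := hmom j w (hww j hj)
      exact ⟨T0, fun _ => hT0⟩
    · exact ⟨0, fun h => absurd h hj⟩
  choose T0 hT0 using hex
  refine ⟨(∑ k ∈ range (J + 1), T0 k) + T1 + Mw w + 1, ?_⟩
  intro Z Y y T hT hTR hy hyY hwy Q hQ hadm hTV1 hTV2 hlarge a ha F hF
  have hlw' : l ≤ w := (hlw 0).trans (hww 0 (Nat.zero_le _))
  have hly : l ≤ y := hlw'.trans hwy
  have hV0 : 0 < Vq Q y := Vq_pos Q hadm y
  obtain ⟨V, hV⟩ : ∃ V, V = Vq Q y := ⟨_, rfl⟩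
  have hVs : V = Vq Q w * Vt Q w y := by rw [hV]; exact Vq_split Q w y hwy
  have hTr : (0 : ℝ) ≤ T := Nat.cast_nonneg _
  have hT1' : 1 ≤ T := by omega
  have hTr1 : (1 : ℝ) ≤ T := by exact_mod_cast hT1'
  have hy1 : 1 ≤ y := by omega
  have hY0 : (0 : ℝ) ≤ Y := Nat.cast_nonneg Y
  have hAcard : 0 < (cls Q l).card := Finset.card_pos.2 ⟨a, ha⟩
  obtain ⟨A, hA⟩ : ∃ A : ℝ, A = ((cls Q l).card : ℝ) := ⟨_, rfl⟩
  have hA0 : 0 < A := by rw [hA]; exact_mod_cast hAcard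
  have hA1 : 1 ≤ A := by rw [hA]; exact_mod_cast hAcard
  have hAl : A ≤ l := by
    rw [hA]
    have := card_cls Q l
    exact_mod_cast (by omega : (cls Q l).card ≤ l)
  have hMr : (0 : ℝ) < Mw w := by exact_mod_cast Mw_pos w
  obtain ⟨p, hp⟩ : ∃ p, p = Vt Q w y := ⟨_, rfl⟩
  have hp0 : 0 ≤ p := by rw [hp]; exact Vt_nonneg Q w y
  obtain ⟨κ, hκ⟩ : ∃ κ : ℝ, κ = Y * p / Mw w := ⟨_, rfl⟩
  have hκ0 : 0 ≤ κ := by rw [hκ]; positivity
  obtain ⟨N, hN⟩ : ∃ N : ℝ, N = Y * V / A := ⟨_, rfl⟩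
  rw [← hV] at hTV1 hTV2 hV0 ⊢
  have hN0 : 0 ≤ N := by rw [hN]; positivity
  have hNY : N ≤ Y * V := by rw [hN]; exact div_le_self (by positivity) hA1
  have hκN : κ * (Ra Q l a w).card ≤ N := by
    have h1 := Ra_card Q c hQ l a w hl hlw' ha
    rw [← hA] at h1
    apply le_of_eq
    rw [hκ, hN, hVs, ← hp, eq_div_iff hA0.ne']
    calc Y * p / (Mw w : ℝ) * ((Ra Q l a w).card : ℝ) * A = Y * p / Mw w * ((Ra Q l a w).card * A) := by ring
      _ = Y * p / Mw w * (Mw w * Vq Q w) := by rw [h1]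
      _ = Y * (Vq Q w * p) := by field_simp
  -- the sets
  have hOm : ∀ g ∈ Oa Q l a y Z Y, Og Q y T g ⊆ Xs Q l a T := by
    intro g hg h hh
    unfold Og at hh
    rw [mem_filter] at hh
    unfold Xs
    rw [mem_filter]
    refine ⟨hh.1, ?_⟩
    have h1 := mod_mem_cls Q c hQ l y (g + h) hl hly hh.2
    unfold Oa at hg
    rw [mem_filter] at hg
    rwa [← hg.2.2, Nat.mod_add_mod]
  have hR : ∀ m ∈ Ra Q l a w, Og Q w T m ⊆ Xs Q l a T := by
    intro g hg h hh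
    unfold Og at hh
    rw [mem_filter] at hh
    unfold Xs
    rw [mem_filter]
    refine ⟨hh.1, ?_⟩
    have h1 := mod_mem_cls Q c hQ l w (g + h) hl hlw' hh.2
    unfold Ra at hg
    rw [mem_filter] at hg
    rwa [← hg.2.2, Nat.mod_add_mod]
  -- the number of points of the model
  have hBx : ∀ m ∈ Ra Q l a w, ((Og Q w T m).card : ℝ) * p ≤ 2 * Λ := by
    intro m _
    have hb := blk Q c hQ l a w m hl hlw' ha
    obtain ⟨U, hU⟩ : ∃ U, U = T / Mw w + 1 := ⟨_, rfl⟩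
    have h1 : Og Q w T m ⊆ (Ioc 0 (0 + U * Mw w)).filter (fun h => Sf Q w (m + h)) := by
      rw [Og_eq]
      apply Finset.filter_subset_filter
      apply Finset.Ioc_subset_Ioc_right
      have h2 := Nat.div_add_mod T (Mw w)
      have h3 := Nat.mod_lt T (Mw_pos w)
      rw [hU, add_mul, one_mul, mul_comm]
      omega
    have h2 := card_le_card h1
    rw [hb.totU U 0] at h2
    have h3 := Ra_card Q c hQ l a w hl hlw' ha
    have h4 : ((Og Q w T m).card : ℝ) ≤ U * (Mw w * Vq Q w) := by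
      rw [← h3]
      have : ((Og Q w T m).card : ℝ) ≤ ((U * ((cls Q l).card * (Ra Q l a w).card) : ℕ) : ℝ) := by
        exact_mod_cast h2
      push_cast at this
      linarith
    have h5 : (U : ℝ) * Mw w ≤ 2 * T := by
      have h6 : U * Mw w ≤ 2 * T := by
        have := Nat.div_mul_le_self T (Mw w)
        rw [hU, add_mul, one_mul]
        omega
      exact_mod_cast h6
    calc ((Og Q w T m).card : ℝ) * p ≤ U * (Mw w * Vq Q w) * p := by gcongr
      _ = (U * Mw w) * V := by rw [hVs, ← hp]; ring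
      _ ≤ 2 * T * V := by gcongr
      _ ≤ 2 * Λ := by linarith
  -- the error term of the sieve
  have hTY : (T : ℝ) ^ J * √(Y : ℝ) ≤ η / 2 * N := by
    have h1 : (T : ℝ) ^ (J + 2) ≤ √(Y : ℝ) := by
      apply Real.le_sqrt_of_sq_le
      have : ((T ^ (2 * (J + 2)) : ℕ) : ℝ) ≤ Y := by exact_mod_cast hTR
      push_cast at this
      calc ((T : ℝ) ^ (J + 2)) ^ 2 = (T : ℝ) ^ (2 * (J + 2)) := by rw [← pow_mul]; ring_nf
        _ ≤ Y := this
    have h3 : 1 ≤ (T : ℝ) * (η / (2 * l)) := by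
      have h4 : 2 * l / η ≤ T := hT1.trans (by exact_mod_cast (by omega : T1 ≤ T))
      rw [div_le_iff₀ hη] at h4
      rw [mul_div_assoc', le_div_iff₀ (by positivity)]
      linarith
    have hsY : √(Y : ℝ) * √(Y : ℝ) = Y := Real.mul_self_sqrt hY0
    have hs0 := Real.sqrt_nonneg (Y : ℝ)
    calc (T : ℝ) ^ J * √(Y : ℝ) = (T : ℝ) ^ J * √(Y : ℝ) * (1 * 1) := by ring
      _ ≤ (T : ℝ) ^ J * √(Y : ℝ) * ((T * V) * (T * (η / (2 * l)))) := by gcongr
      _ = (T : ℝ) ^ (J + 2) * √(Y : ℝ) * (V * (η / (2 * l))) := by ring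
      _ ≤ √(Y : ℝ) * √(Y : ℝ) * (V * (η / (2 * l))) := by gcongr
      _ ≤ η / 2 * N := by
          rw [hsY, hN]
          have : (Y : ℝ) * (V * (η / (2 * l))) = η / 2 * (Y * V / l) := by field_simp
          rw [this]
          gcongr
  have hfin := hcmp (Oa Q l a y Z Y) (Ra Q l a w) (Og Q y T) (Og Q w T) (Xs Q l a T) κ p N hκ0 hp0 hN0 hOm hR
    hκN hBx (by
      intro j hj
      have hjr : j ∈ range (J + 1) := mem_range.2 (by omega)
      have hKk : K0 j ≤ ∑ k ∈ range (J + 1), K0 k := Finset.single_le_sum (fun _ _ => Nat.zero_le _) hjr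
      have hyk : y0 j ≤ ∑ k ∈ range (J + 1), y0 k := Finset.single_le_sum (fun _ _ => Nat.zero_le _) hjr
      have hTk : T0 j ≤ ∑ k ∈ range (J + 1), T0 k := Finset.single_le_sum (fun _ _ => Nat.zero_le _) hjr
      have h1 := hT0 j hj Z Y y T (by omega) (by omega) ((Nat.pow_le_pow_right hy1 (by omega)).trans hyY) hwy
        Q hQ hadm (fun T' h1 h2 t ht => (hlarge T' h1 h2 t ht).trans
          (mul_le_mul_of_nonneg_right (hη0 j (by omega)) (Nat.cast_nonneg _))) a ha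
      rw [← hV] at h1
      have h2 : ((T : ℝ) * V) ^ j / (j.factorial : ℝ) ≤ E := by
        rw [hE]
        exact (Real.pow_div_factorial_le_exp _ (by positivity) j).trans (Real.exp_le_exp.2 hTV2)
      have h3 : η2 * (Y * (V * ((T * V) ^ j / j.factorial))) ≤ η / 2 * N := by
        calc η2 * (Y * (V * ((T * V) ^ j / j.factorial))) ≤ η2 * (Y * (V * E)) := by gcongr
          _ = (η2 * E) * (Y * V) := by ring
          _ ≤ (η / 2 / l) * (Y * V) := by gcongr
          _ = η / 2 * (Y * V / l) := by field_simp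
          _ ≤ η / 2 * N := by
              rw [hN]
              gcongr
      have h4 : (T : ℝ) ^ j * √(Y : ℝ) ≤ (T : ℝ) ^ J * √(Y : ℝ) := by
        apply mul_le_mul_of_nonneg_right _ (Real.sqrt_nonneg _)
        exact pow_le_pow_right₀ hTr1 hj
      have h5 : ∑ H ∈ powersetCard j (Xs Q l a T), |(((Oa Q l a y Z Y).filter (fun g => H ⊆ Og Q y T g)).card : ℝ) -
          κ * p ^ j * (((Ra Q l a w).filter (fun m => H ⊆ Og Q w T m)).card : ℝ)| =
          ∑ H ∈ powersetCard j (Xs Q l a T), |(((Oa Q l a y Z Y).filter (fun g => H ⊆ Og Q y T g)).card : ℝ) -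
          Y * Vt Q w y ^ (j + 1) * Vq (QB Q l a H) w| := by
        apply Finset.sum_congr rfl
        intro H hH
        rw [mem_powersetCard] at hH
        have h6 := model_moment Q c hQ l a w T hl hlw' H (hH.1.trans (X_sub Q l a T))
        have h7 : (((Ra Q l a w).filter (fun m => H ⊆ Og Q w T m)).card : ℝ) = Mw w * Vq (QB Q l a H) w := by
          rw [← h6]
          rfl
        rw [h7, hκ, ← hp]
        congr 2
        rw [pow_succ]
        field_simp
      rw [h5]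
      linarith) F hF
  rw [hκ, hp] at hfin
  refine hfin.trans ?_
  gcongr

/-- after `g`, the next good integers lie in the classes of the list, with gaps below the thresholds -/
def PatT (G : ℕ → Prop) (κ : ℕ → ℕ) : List (ℕ × ℕ) → ℕ → Prop
  | [], _ => True
  | c :: β, g => ∃ g', g < g' ∧ g' ≤ g + c.1 ∧ G g' ∧ (∀ n, g < n → n < g' → ¬ G n) ∧ κ g' = c.2 ∧ PatT G κ β g'

open Classical in
lemma pt_iff (G : ℕ → Prop) (κ : ℕ → ℕ) (β : List (ℕ × ℕ)) (g : ℕ) : ∀ s T : ℕ, s + (β.map Prod.fst).sum ≤ T →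
    (Pt (fun h => κ (g + h)) β s (res id ((Ioc s T).filter (fun h => G (g + h)))) ↔ PatT G κ β (g + s)) := by
  induction β with
  | nil =>
    intro s T _
    constructor
    · intro _
      trivial
    · intro _
      cases res id ((Ioc s T).filter (fun h => G (g + h))) <;> trivial
  | cons c β ih =>
    intro s T hT
    simp only [List.map_cons, List.sum_cons] at hT
    obtain ⟨W, hW⟩ : ∃ W, W = (Ioc s T).filter (fun h => G (g + h)) := ⟨_, rfl⟩
    rw [← hW]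
    rcases W.eq_empty_or_nonempty with h0 | h0
    · rw [h0, res_empty]
      constructor
      · intro h
        exact h.elim
      · rintro ⟨g', h1, h2, h3, _⟩
        have h4 : g' - g ∈ W := by
          rw [hW, mem_filter, mem_Ioc, show g + (g' - g) = g' by omega]
          exact ⟨by omega, h3⟩
        rw [h0] at h4
        exact absurd h4 (notMem_empty _)
    · obtain ⟨u, hu, humin⟩ : ∃ u ∈ W, ∀ x ∈ W, u ≤ x := ⟨W.min' h0, W.min'_mem h0, fun x hx => W.min'_le x hx⟩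
      have hu' := hu
      rw [hW, mem_filter, mem_Ioc] at hu'
      have hWu : W = insert u ((Ioc u T).filter (fun h => G (g + h))) := by
        ext x
        rw [mem_insert, mem_filter, mem_Ioc]
        constructor
        · intro hx
          have h1 := humin x hx
          rw [hW, mem_filter, mem_Ioc] at hx
          rcases Nat.eq_or_lt_of_le h1 with h2 | h2
          · exact Or.inl h2.symm
          · exact Or.inr ⟨⟨h2, hx.1.2⟩, hx.2⟩
        · rintro (rfl | hx)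
          · exact hu
          · rw [hW, mem_filter, mem_Ioc]
            exact ⟨⟨by omega, hx.1.2⟩, hx.2⟩
      have hfirst : ∀ n, g + s < n → n < g + u → ¬ G n := by
        intro n hn1 hn2 hGn
        have h3 : n - g ∈ W := by
          rw [hW, mem_filter, mem_Ioc, show g + (n - g) = n by omega]
          exact ⟨by omega, hGn⟩
        have := humin _ h3
        omega
      rw [hWu, res_insert _ u _ (fun x hx => (mem_Ioc.1 (mem_filter.1 hx).1).1)]
      simp only [Pt, id]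
      constructor
      · rintro ⟨h1, h2, h3⟩
        refine ⟨g + u, by omega, by omega, hu'.2, hfirst, h2, (ih u T (by omega)).1 h3⟩
      · rintro ⟨g', h1, h2, h3, h4, h5, h6⟩
        have h7 : g' = g + u := by
          rcases Nat.lt_trichotomy g' (g + u) with h8 | h8 | h8
          · exact absurd h3 (hfirst g' h1 h8)
          · exact h8
          · exact absurd hu'.2 (h4 (g + u) (by omega) h8)
        subst h7
        exact ⟨by omega, h5, (ih u T (by omega)).2 h6⟩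

open Classical in
/-- **The joint law of the gaps and the classes of consecutive sifted integers.** -/
theorem gen_patT (c l k : ℕ) (hl : l.Prime) (Λ ε : ℝ) (hΛ : 1 ≤ Λ) (hε : 0 < ε) :
    ∃ (K0 y0 T0 R0 : ℕ) (η' : ℝ), 0 < η' ∧
      ∀ (Q : ℕ → ℕ → Prop) (Z Y y T : ℕ), PerB Q c → (∀ p : ℕ, p.Prime → nuB Q p < p) →
      y0 ≤ y → y ^ K0 ≤ Y → T0 ≤ T → T ^ R0 ≤ Y → 1 ≤ T * Vq Q y → T * Vq Q y ≤ Λ →
      (∀ T' : ℕ, T ≤ 2 * T' → T' ≤ 2 * T →
        ∀ t ∈ Icc 1 T', ((((pz y).filter (fun p : ℕ => T' < p ∧ CoG Q p t)).card : ℕ) : ℝ) ≤ η' * T') →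
      ∀ a ∈ cls Q l, ∀ β : List (ℕ × ℕ), β.length = k → (∀ b ∈ β, b.2 ∈ cls Q l) →
        2 * (β.map Prod.fst).sum ≤ T →
        |(((Oa Q l a y Z Y).filter (fun g => PatT (Sf Q y) (fun n => n % l) β g)).card : ℝ) -
          Y * Vq Q y / (cls Q l).card *
            (β.map (fun b => (1 - Real.exp (-(b.1 * Vq Q y))) / ((cls Q l).card : ℝ))).prod| ≤
          ε * (Y * Vq Q y) := by
  obtain ⟨w0, K0, y0, R0, η', hη', hlw0, hthin⟩ := thin c l hl Λ (ε / 2) hΛ (by positivity)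
  obtain ⟨T0, hT0⟩ := hthin w0 le_rfl
  obtain ⟨w, hw⟩ : ∃ w, w = w0 := ⟨_, rfl⟩
  rw [← hw] at hT0 hlw0
  -- the size of `T`
  obtain ⟨T1, hT1⟩ : ∃ T1 : ℕ, 2 * (Mw w : ℝ) * Λ * (1 + k * (7 + 4 * Λ)) * (1 + 1 / ε) ≤ T1 := exists_nat_ge _
  refine ⟨K0, y0 + w, T0 + T1 + 2 * (Mw w * k) + 1, R0, η', hη', ?_⟩
  intro Q Z Y y T hQ hadm hy hyY hT hTR hTV1 hTV2 hlarge a ha β hβk hβ hβT
  have hthin' := hT0 Z Y y T (by omega) hTR (by omega) hyY (by omega) Q hQ hadm hTV1 hTV2 hlarge a ha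
    (Fi (fun h => (a + h) % l) β 0) (Fi_bound _ _ _)
  have hlw : l ≤ w := hlw0
  have hwy : w ≤ y := by omega
  have hAcard : 0 < (cls Q l).card := Finset.card_pos.2 ⟨a, ha⟩
  have hcln : (cls Q l).Nonempty := ⟨a, ha⟩
  obtain ⟨A, hA⟩ : ∃ A : ℝ, A = ((cls Q l).card : ℝ) := ⟨_, rfl⟩
  have hA0 : 0 < A := by rw [hA]; exact_mod_cast hAcard
  have hA1 : 1 ≤ A := by rw [hA]; exact_mod_cast hAcard
  have hMr : (0 : ℝ) < Mw w := by exact_mod_cast Mw_pos w
  have hV0 : 0 < Vq Q y := Vq_pos Q hadm y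
  obtain ⟨V, hV⟩ : ∃ V, V = Vq Q y := ⟨_, rfl⟩
  have hVs : V = Vq Q w * Vt Q w y := by rw [hV]; exact Vq_split Q w y hwy
  obtain ⟨p, hp⟩ : ∃ p, p = Vt Q w y := ⟨_, rfl⟩
  have hp0 : 0 ≤ p := by rw [hp]; exact Vt_nonneg Q w y
  rw [← hV, ← hp] at hthin'
  rw [← hV] at hV0 hTV1 hTV2
  rw [← hV, ← hA]
  have hTr1 : (1 : ℝ) ≤ T := by exact_mod_cast (by omega : 1 ≤ T)
  have hY0 : (0 : ℝ) ≤ Y := Nat.cast_nonneg Y
  -- `δ = M V`
  obtain ⟨δ, hδ⟩ : ∃ δ : ℝ, δ = Mw w * V := ⟨_, rfl⟩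
  obtain ⟨D, hD⟩ : ∃ D, D = (Ra Q l a w).card := ⟨_, rfl⟩
  have hRc := Ra_card Q c hQ l a w hl hlw ha
  rw [← hD, ← hA] at hRc
  have hVw : 0 < Vq Q w := Vq_pos Q hadm w
  have hD0 : (0 : ℝ) < D := by
    by_contra hcon
    rw [not_lt] at hcon
    have h1 : (D : ℝ) * A ≤ 0 := mul_nonpos_of_nonpos_of_nonneg hcon hA0.le
    have h2 : 0 < (Mw w : ℝ) * Vq Q w := by positivity
    linarith
  have hD1 : 1 ≤ D := by exact_mod_cast hD0
  have hδ2 : δ = A * D * p := by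
    rw [hδ, hVs, ← hp, mul_comm A, hRc]
    ring
  have hδ0 : 0 ≤ δ := by rw [hδ]; positivity
  have hk0 : (0 : ℝ) ≤ k := Nat.cast_nonneg k
  have hδsmall : δ * (2 * (1 + k * (7 + 4 * Λ)) * (1 + 1 / ε)) ≤ 1 := by
    have h1 : 2 * (Mw w : ℝ) * Λ * (1 + k * (7 + 4 * Λ)) * (1 + 1 / ε) ≤ T := hT1.trans (by
      exact_mod_cast (by omega : T1 ≤ T))
    have h2 := mul_le_mul_of_nonneg_right h1 hV0.le
    have h3 : Λ * (δ * (2 * (1 + k * (7 + 4 * Λ)) * (1 + 1 / ε))) ≤ Λ * 1 := by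
      rw [hδ]
      calc Λ * (Mw w * V * (2 * (1 + k * (7 + 4 * Λ)) * (1 + 1 / ε))) =
          2 * (Mw w : ℝ) * Λ * (1 + k * (7 + 4 * Λ)) * (1 + 1 / ε) * V := by ring
        _ ≤ T * V := h2
        _ ≤ Λ * 1 := by linarith
    exact le_of_mul_le_mul_left h3 (by linarith)
  have hε1 : 0 ≤ 1 / ε := by positivity
  have hkΛ : 0 ≤ (k : ℝ) * (7 + 4 * Λ) := by positivity
  have hδhalf : δ ≤ 1 / 2 := by
    have h1 : (1 : ℝ) ≤ (1 + k * (7 + 4 * Λ)) * (1 + 1 / ε) := one_le_mul_of_one_le_of_one_le (by linarith) (by linarith)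
    nlinarith
  have hδε : k * (δ * (7 + 4 * Λ)) ≤ ε / 2 := by
    have h1 : k * (7 + 4 * Λ) * (1 / ε) ≤ (1 + k * (7 + 4 * Λ)) * (1 + 1 / ε) := by
      apply mul_le_mul (by linarith) (by linarith) hε1 (by linarith)
    have h2 : δ * (2 * (k * (7 + 4 * Λ) * (1 / ε))) ≤ 1 := by
      refine le_trans ?_ hδsmall
      have := mul_le_mul_of_nonneg_left h1 hδ0
      linarith
    have h3 : δ * (2 * (k * (7 + 4 * Λ) * (1 / ε))) = (2 * (k * (δ * (7 + 4 * Λ)))) / ε := by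
      field_simp
    rw [h3, div_le_one hε] at h2
    linarith
  have hpδ : p ≤ δ := by
    rw [hδ2]
    have h1 : (1 : ℝ) ≤ A * D := one_le_mul_of_one_le_of_one_le hA1 (by exact_mod_cast hD1)
    nlinarith
  -- the sum
  have hsum1 : ∑ g ∈ Oa Q l a y Z Y, Fi (fun h => (a + h) % l) β 0 (res id (Og Q y T g)) =
      (((Oa Q l a y Z Y).filter (fun g => PatT (Sf Q y) (fun n => n % l) β g)).card : ℝ) := by
    rw [Finset.card_filter]
    push_cast
    apply Finset.sum_congr rfl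
    intro g hg
    unfold Oa at hg
    rw [mem_filter] at hg
    have hres : (fun h => (a + h) % l) = (fun h => (g + h) % l) := by
      funext h
      rw [← hg.2.2, Nat.mod_add_mod]
    have h1 := pt_iff (Sf Q y) (fun n => n % l) β g 0 T (by omega)
    rw [add_zero] at h1
    unfold Fi
    rw [hres, Og_eq]
    by_cases h2 : PatT (Sf Q y) (fun n => n % l) β g
    · rw [if_pos (h1.2 h2), if_pos h2]
    · rw [if_neg (fun h3 => h2 (h1.1 h3)), if_neg h2]
  have hprod0 : 0 ≤ Y * V / A := by positivity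
  -- the model
  have hsum2 : |Y * p / Mw w * ∑ m ∈ Ra Q l a w, Ex p (res id (Og Q w T m)) (Fi (fun h => (a + h) % l) β 0) -
      Y * V / A * (β.map (fun b => (1 - Real.exp (-(b.1 * V))) / A)).prod| ≤ ε / 2 * (Y * V) := by
    have h1 : Y * V / A = Y * p / Mw w * D := by
      rw [div_eq_iff hA0.ne', hVs, ← hp]
      calc (Y : ℝ) * (Vq Q w * p) = Y * p / Mw w * (Mw w * Vq Q w) := by field_simp
        _ = Y * p / Mw w * D * A := by rw [← hRc]; ring
    have h2 : ∀ m ∈ Ra Q l a w, |Ex p (res id (Og Q w T m)) (Fi (fun h => (a + h) % l) β 0) -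
        (β.map (fun b => (1 - Real.exp (-(b.1 * V))) / A)).prod| ≤ ε / 2 := by
      intro m hm
      unfold Ra at hm
      rw [mem_filter] at hm
      have hres : (fun h => (a + h) % l) = (fun h => (m + h) % l) := by
        funext h
        rw [← hm.2.2, Nat.mod_add_mod]
      have h3 := model_est (blk Q c hQ l a w m hl hlw ha) p hp0 (by linarith) hcln (by rw [← hD]; exact hD1)
        δ Λ (by rw [hδ2, hA, hD]) (by linarith) (by linarith) T β (by
          intro b hb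
          refine ⟨hβ b hb, ?_⟩
          have h4 : (b.1 : ℝ) * δ / Mw w = b.1 * V := by
            rw [hδ]
            field_simp
          rw [h4]
          have h5 : b.1 ≤ (β.map Prod.fst).sum := List.single_le_sum (by simp) _ (List.mem_map_of_mem hb)
          have h6 : (b.1 : ℝ) ≤ T := by exact_mod_cast (by omega : b.1 ≤ T)
          calc (b.1 : ℝ) * V ≤ T * V := by gcongr
            _ ≤ Λ := hTV2) 0 (by rw [hβk]; omega)
      have e1 : (fun b : ℕ × ℕ => (1 - Real.exp (-(b.1 * δ / Mw w))) / ((cls Q l).card : ℝ)) =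
          (fun b : ℕ × ℕ => (1 - Real.exp (-(b.1 * V))) / A) := by
        funext b
        rw [← hA]
        congr 3
        rw [hδ]
        field_simp
      rw [e1] at h3
      unfold pr at h3
      rw [hres, Og_eq]
      refine h3.trans ?_
      rw [hβk]
      exact hδε
    rw [h1]
    have h3 : Y * p / Mw w * D * (β.map (fun b => (1 - Real.exp (-(b.1 * V))) / A)).prod =
        Y * p / Mw w * ∑ m ∈ Ra Q l a w, (β.map (fun b => (1 - Real.exp (-(b.1 * V))) / A)).prod := by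
      rw [Finset.sum_const, ← hD, nsmul_eq_mul]
      ring
    have hκ0 : 0 ≤ Y * p / (Mw w : ℝ) := by positivity
    rw [h3, ← mul_sub, ← Finset.sum_sub_distrib, abs_mul, abs_of_nonneg hκ0]
    have h4 := (Finset.abs_sum_le_sum_abs (fun m => Ex p (res id (Og Q w T m)) (Fi (fun h => (a + h) % l) β 0) -
        (β.map (fun b => (1 - Real.exp (-(b.1 * V))) / A)).prod) (Ra Q l a w)).trans
      (Finset.sum_le_card_nsmul _ _ _ h2)
    rw [← hD, nsmul_eq_mul] at h4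
    calc Y * p / (Mw w : ℝ) * |∑ m ∈ Ra Q l a w, (Ex p (res id (Og Q w T m)) (Fi (fun h => (a + h) % l) β 0) -
        (β.map (fun b => (1 - Real.exp (-(b.1 * V))) / A)).prod)| ≤ Y * p / (Mw w : ℝ) * (D * (ε / 2)) := by
          gcongr
      _ = ε / 2 * (Y * p / Mw w * D) := by ring
      _ = ε / 2 * (Y * V / A) := by rw [h1]
      _ ≤ ε / 2 * (Y * V) := by
          gcongr
          exact div_le_self (by positivity) hA1
  rw [hsum1] at hthin'
  rw [abs_le] at hthin' hsum2 ⊢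
  constructor <;> linarith [hthin'.1, hthin'.2, hsum2.1, hsum2.2]

end Pool.Agent.V8H31.TP
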