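import Pool.Agent.V8H31.TP.Thin
import Pool.Agent.V11146.MK.Transfer

set_option autoImplicit false

/-!
# Gaps and classes of consecutive almost prime values: systems of polynomials, changes of variables
-/

namespace Pool.Agent.V8H31.TP

open Polynomial Finset Filter
open Pool.Agent.W123.RP Pool.Agent.H373R2.T7 Pool.Agent.W123.RU Pool.Agent.W123.RU.Poly
open Pool.Agent.TH464.PW Pool.Agent.TH464.PO Pool.Agent.V11146.MK

open Classical in
/-- **Gaps and classes of consecutive almost prime values of a system of polynomials.** -/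
theorem poly_patT {ι : Type} [Fintype ι] [Nonempty ι] (f : ι → ℤ[X]) (hf : Sys f) (hT : NoTr f) (l k : ℕ)
    (hl : l.Prime) (Λ ρ ε : ℝ) (hΛ : 0 ≤ Λ) (hρ : 0 < ρ) (hε : 0 < ε) :
    ∃ K y0 : ℕ, ∀ y : ℕ, y0 ≤ y → Vq (Q f) y ≤ ρ ∧ ∀ Z Y : ℕ, y ^ K ≤ Y →
      ∀ a ∈ cls (Q f) l, ∀ β : List (ℕ × ℕ), β.length = k → (∀ b ∈ β, b.2 ∈ cls (Q f) l) →
        (∀ b ∈ β, b.1 * Vq (Q f) y ≤ Λ) →
        |(((Oa (Q f) l a y Z Y).filter (fun g => PatT (Sf (Q f) y) (fun n => n % l) β g)).card : ℝ) -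
          Y * Vq (Q f) y / (cls (Q f) l).card *
            (β.map (fun b => (1 - Real.exp (-(b.1 * Vq (Q f) y))) / ((cls (Q f) l).card : ℝ))).prod| ≤
          ε * (Y * Vq (Q f) y) := by
  obtain ⟨c, hc, hQ⟩ := exists_c f hf
  have hk0 : (0 : ℝ) ≤ k := Nat.cast_nonneg k
  obtain ⟨x, hx⟩ : ∃ x : ℝ, x = 2 * (k * Λ) + 1 := ⟨_, rfl⟩
  have hx1 : 1 ≤ x := by
    rw [hx]
    have : 0 ≤ (k : ℝ) * Λ := by positivity
    linarith
  obtain ⟨K0, y0, T0, R0, η', hη', hgen⟩ := gen_patT c l k hl (x + 1) ε (by linarith) hε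
  obtain ⟨T1, hT1⟩ : ∃ T1 : ℕ, (x + 1) / ρ ≤ T1 := exists_nat_ge _
  obtain ⟨y1, h1⟩ := sizes_y f hf hT (T0 + T1 + 1) R0 η' (x / 2) (2 * x + 2) hη' (by linarith) (by linarith)
  refine ⟨K0 + 1, y0 + y1 + 1, ?_⟩
  intro y hy
  have hadm : ∀ p : ℕ, p.Prime → nuB (Q f) p < p := fun p hp => Poly.adm f hf p hp
  have hV0 : 0 < Vq (Q f) y := Vq_pos (Q f) hadm y
  have hV1 : Vq (Q f) y ≤ 1 := Vq_le_one (Q f) y
  obtain ⟨V, hV⟩ : ∃ V, V = Vq (Q f) y := ⟨_, rfl⟩
  rw [← hV] at hV0 hV1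
  obtain ⟨T, hTdef⟩ : ∃ T : ℕ, T = ⌈x / V⌉₊ := ⟨_, rfl⟩
  have hTa : x ≤ T * V := by
    have := Nat.le_ceil (x / V)
    rw [← hTdef, div_le_iff₀ hV0] at this
    exact this
  have hTb : T * V ≤ x + 1 := by
    have h1 := Nat.ceil_lt_add_one (show 0 ≤ x / V by positivity)
    rw [← hTdef] at h1
    have h2 : (T : ℝ) * V ≤ (x / V + 1) * V := by gcongr
    rw [add_mul, div_mul_cancel₀ _ hV0.ne'] at h2
    linarith
  have hsz := h1 y (by omega)
  rw [← hV] at hsz
  have hTT := hsz T (by linarith) (by linarith)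
  have hy1 : 1 ≤ y := by omega
  rw [← hV]
  refine ⟨?_, ?_⟩
  · -- the density is small
    have h2 : (T1 : ℝ) ≤ T := by exact_mod_cast (by omega : T1 ≤ T)
    have h3 : (x + 1) / ρ ≤ T := hT1.trans h2
    rw [div_le_iff₀ hρ] at h3
    have h4 : (T : ℝ) * V ≤ T * ρ := by linarith
    have hTpos : (0 : ℝ) < T := by exact_mod_cast (by omega : 0 < T)
    exact le_of_mul_le_mul_left h4 hTpos
  intro Z Y hyY a ha β hβk hβ hβV
  have hyY1 : y ≤ Y := by
    calc y = y ^ 1 := (pow_one y).symm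
      _ ≤ y ^ (K0 + 1) := Nat.pow_le_pow_right hy1 (by omega)
      _ ≤ Y := hyY
  have hfin := hgen (Q f) Z Y y T hQ hadm (by omega)
    ((Nat.pow_le_pow_right hy1 (by omega)).trans hyY) (by omega) (hTT.2.1.trans hyY1)
    (by rw [← hV]; linarith) (by rw [← hV]; exact hTb)
    (by
      intro T' h2 h3
      have h2' : (T : ℝ) ≤ 2 * T' := by exact_mod_cast h2
      have h3' : (T' : ℝ) ≤ 2 * T := by exact_mod_cast h3
      have h4 : (T : ℝ) * V ≤ 2 * T' * V := by gcongr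
      have h5 : (T' : ℝ) * V ≤ 2 * T * V := by gcongr
      exact (hsz T' (by linarith) (by linarith)).2.2) a ha β hβk hβ
    (by
      have h6 : ∀ β' : List (ℕ × ℕ), (∀ b ∈ β', (b.1 : ℝ) * V ≤ Λ) →
          (((β'.map Prod.fst).sum : ℕ) : ℝ) * V ≤ β'.length * Λ := by
        intro β'
        induction β' with
        | nil => simp
        | cons c' β' ih =>
          intro h7
          simp only [List.map_cons, List.sum_cons, List.length_cons]
          rw [Nat.cast_add, Nat.cast_add, Nat.cast_one]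
          have h8 := ih (fun b hb => h7 b (by simp [hb]))
          have h9 := h7 c' (by simp)
          linarith
      have h7 := h6 β hβV
      rw [hβk] at h7
      have h8 : (((2 * (β.map Prod.fst).sum : ℕ) : ℝ)) * V ≤ T * V := by
        rw [Nat.cast_mul, Nat.cast_ofNat]
        rw [hx] at hTa
        linarith
      have h9 : (((2 * (β.map Prod.fst).sum : ℕ) : ℝ)) ≤ T := le_of_mul_le_mul_right h8 hV0
      exact_mod_cast h9)
  rw [← hV] at hfin
  exact hfin

/-- change of variables -/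
lemma patT_map (S G : ℕ → Prop) (κ κ' : ℕ → ℕ) (M c : ℕ) (hM : 0 < M)
    (hS : ∀ n, S n ↔ ∃ m, n = M * m + c ∧ G m) (enc : ℕ → ℕ) (β : List (ℕ × ℕ))
    (hκ : ∀ b ∈ β, ∀ m, κ (M * m + c) = b.2 ↔ κ' m = enc b.2) (m : ℕ) :
    PatT S κ β (M * m + c) ↔ PatT G κ' (β.map (fun b => (b.1 / M, enc b.2))) m := by
  induction β generalizing m with
  | nil => exact Iff.rfl
  | cons b β ih =>
    simp only [List.map_cons]
    unfold PatT
    constructor
    · rintro ⟨g', h1, h2, h3, h4, h5, h6⟩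
      obtain ⟨m', rfl, hG⟩ := (hS g').1 h3
      have h7 : m < m' := by
        by_contra hcon
        have := Nat.mul_le_mul_left M (not_lt.1 hcon)
        omega
      refine ⟨m', h7, ?_, hG, ?_, (hκ b (by simp) m').1 h5,
        (ih (fun b' hb' => hκ b' (by simp [hb'])) m').1 h6⟩
      · simp only
        have h8 : (m' - m) * M ≤ b.1 := by
          rw [Nat.sub_mul, mul_comm m' M, mul_comm m M]
          omega
        have := (Nat.le_div_iff_mul_le hM).2 h8
        omega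
      · intro n hn1 hn2 hGn
        have h8 := Nat.mul_lt_mul_of_pos_left hn1 hM
        have h9 := Nat.mul_lt_mul_of_pos_left hn2 hM
        exact h4 (M * n + c) (by omega) (by omega) ((hS _).2 ⟨n, rfl, hGn⟩)
    · rintro ⟨m', h1, h2, h3, h4, h5, h6⟩
      have h7 := Nat.mul_lt_mul_of_pos_left h1 hM
      refine ⟨M * m' + c, by omega, ?_, (hS _).2 ⟨m', rfl, h3⟩, ?_, (hκ b (by simp) m').2 h5,
        (ih (fun b' hb' => hκ b' (by simp [hb'])) m').2 h6⟩
      · simp only at h2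
        have h8 : m' - m ≤ b.1 / M := by omega
        have h9 := (Nat.le_div_iff_mul_le hM).1 h8
        rw [Nat.sub_mul, mul_comm m' M, mul_comm m M] at h9
        omega
      · intro n hn1 hn2 hSn
        obtain ⟨u, rfl, hG⟩ := (hS n).1 hSn
        have h8 : m < u := by
          by_contra hcon
          have := Nat.mul_le_mul_left M (not_lt.1 hcon)
          omega
        have h9 : u < m' := by
          by_contra hcon
          have := Nat.mul_le_mul_left M (not_lt.1 hcon)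
          omega
        exact h4 u h8 h9 hG

lemma exp_lip (x y : ℝ) (hx : 0 ≤ x) (hy : 0 ≤ y) : |Real.exp (-x) - Real.exp (-y)| ≤ |x - y| := by
  have h : ∀ u v : ℝ, 0 ≤ u → u ≤ v → Real.exp (-u) - Real.exp (-v) ≤ v - u := by
    intro u v hu huv
    have h1 := Real.add_one_le_exp (u - v)
    have h2 : Real.exp (-v) = Real.exp (-u) * Real.exp (u - v) := by
      rw [← Real.exp_add]
      congr 1
      ring
    have h3 : Real.exp (-u) ≤ 1 := Real.exp_le_one_iff.2 (by linarith)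
    have h4 := Real.exp_pos (-u)
    rw [h2]
    nlinarith
  rcases le_total x y with h1 | h1
  · have h2 := h x y hx h1
    have h3 : Real.exp (-y) ≤ Real.exp (-x) := Real.exp_le_exp.2 (by linarith)
    rw [abs_of_nonneg (by linarith), abs_of_nonpos (by linarith)]
    linarith
  · have h2 := h y x hy h1
    have h3 : Real.exp (-x) ≤ Real.exp (-y) := Real.exp_le_exp.2 (by linarith)
    rw [abs_of_nonpos (by linarith), abs_of_nonneg (by linarith)]
    linarith

/-- products of factors in `[0, 1]` -/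
lemma prod_close (A : ℝ) (hA : 1 ≤ A) (ρ : ℝ) (hρ : 0 ≤ ρ) (β : List (ℕ × ℕ)) (u v : ℕ × ℕ → ℝ)
    (hu : ∀ b ∈ β, 0 ≤ u b) (hv : ∀ b ∈ β, 0 ≤ v b) (h : ∀ b ∈ β, |u b - v b| ≤ ρ) :
    |(β.map (fun b => (1 - Real.exp (-(u b))) / A)).prod - (β.map (fun b => (1 - Real.exp (-(v b))) / A)).prod| ≤
      β.length * ρ ∧ 0 ≤ (β.map (fun b => (1 - Real.exp (-(u b))) / A)).prod ∧
      (β.map (fun b => (1 - Real.exp (-(u b))) / A)).prod ≤ 1 ∧
      0 ≤ (β.map (fun b => (1 - Real.exp (-(v b))) / A)).prod ∧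
      (β.map (fun b => (1 - Real.exp (-(v b))) / A)).prod ≤ 1 := by
  have hA0 : 0 < A := by linarith
  have hfac : ∀ x : ℝ, 0 ≤ x → 0 ≤ (1 - Real.exp (-x)) / A ∧ (1 - Real.exp (-x)) / A ≤ 1 := by
    intro x hx
    have h1 : Real.exp (-x) ≤ 1 := Real.exp_le_one_iff.2 (by linarith)
    have h2 := Real.exp_pos (-x)
    refine ⟨div_nonneg (by linarith) hA0.le, ?_⟩
    rw [div_le_one hA0]
    linarith
  induction β with
  | nil => simp
  | cons b β ih =>
    obtain ⟨i1, i2, i3, i4, i5⟩ := ih (fun b' hb' => hu b' (by simp [hb'])) (fun b' hb' => hv b' (by simp [hb']))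
      (fun b' hb' => h b' (by simp [hb']))
    simp only [List.map_cons, List.prod_cons, List.length_cons]
    obtain ⟨f1, f2⟩ := hfac (u b) (hu b (by simp))
    obtain ⟨g1, g2⟩ := hfac (v b) (hv b (by simp))
    have h1 : |(1 - Real.exp (-(u b))) / A - (1 - Real.exp (-(v b))) / A| ≤ ρ := by
      rw [← sub_div, abs_div, abs_of_pos hA0, div_le_iff₀ hA0]
      have h2 := exp_lip (v b) (u b) (hv b (by simp)) (hu b (by simp))
      have h3 := h b (by simp)
      rw [abs_sub_comm] at h3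
      have h4 : 1 - Real.exp (-(u b)) - (1 - Real.exp (-(v b))) = Real.exp (-(v b)) - Real.exp (-(u b)) := by ring
      rw [h4]
      nlinarith
    refine ⟨?_, mul_nonneg f1 i2, mul_le_one₀ f2 i2 i3, mul_nonneg g1 i4, mul_le_one₀ g2 i4 i5⟩
    obtain ⟨x, hx⟩ : ∃ x, x = (1 - Real.exp (-(u b))) / A := ⟨_, rfl⟩
    obtain ⟨y, hy⟩ : ∃ y, y = (1 - Real.exp (-(v b))) / A := ⟨_, rfl⟩
    obtain ⟨P, hP⟩ : ∃ P, P = (β.map (fun b => (1 - Real.exp (-(u b))) / A)).prod := ⟨_, rfl⟩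
    obtain ⟨R, hR⟩ : ∃ R, R = (β.map (fun b => (1 - Real.exp (-(v b))) / A)).prod := ⟨_, rfl⟩
    rw [← hx, ← hy, ← hP, ← hR]
    rw [← hP, ← hR] at i1
    rw [← hP] at i2 i3
    rw [← hx, ← hy] at h1
    rw [← hx] at f1 f2
    rw [← hy] at g1 g2
    have e : x * P - y * R = (x - y) * P + y * (P - R) := by ring
    rw [e]
    refine (abs_add_le _ _).trans ?_
    rw [abs_mul, abs_mul, abs_of_nonneg i2, abs_of_nonneg g1]
    push_cast
    have h5 : |x - y| * P ≤ ρ * 1 := mul_le_mul h1 i3 i2 hρ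
    have h6 : y * |P - R| ≤ 1 * (β.length * ρ) := mul_le_mul g2 i1 (abs_nonneg _) (by norm_num)
    linarith

open Classical in
/-- **Relative form**: gaps and classes of the consecutive elements of `{M m + c : G_y m}`. -/
theorem rel_patW {ι : Type} [Fintype ι] [Nonempty ι] (f : ι → ℤ[X]) (hf : Sys f) (hT : NoTr f) (l k : ℕ)
    (hl : l.Prime) (M c : ℕ) (hM : 0 < M) (S : ℕ → ℕ → Prop) (y1 : ℕ)
    (hS : ∀ y, y1 ≤ y → ∀ n, S y n ↔ ∃ m, n = M * m + c ∧ Sf (Q f) y m)
    (κ enc : ℕ → ℕ) (cl : Finset ℕ)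
    (hκ : ∀ b ∈ cl, ∀ m, κ (M * m + c) = b ↔ m % l = enc b) (henc : ∀ b ∈ cl, enc b ∈ cls (Q f) l)
    (Λ ε : ℝ) (hΛ : 0 ≤ Λ) (hε : 0 < ε) :
    ∃ K y0 : ℕ, ∀ y : ℕ, y0 ≤ y → ∀ W : ℝ, W = Vq (Q f) y / M → 0 < W ∧ W ≤ ε ∧
      ∀ Z Y : ℕ, y ^ K ≤ Y → (c ≤ Z ∨ ¬ S y c) →
      |(((Ioc Z (Z + Y)).filter (S y)).card : ℝ) - Y * W| ≤ ε * (Y * W) ∧
      ∀ a0 ∈ cl, ∀ β : List (ℕ × ℕ), β.length = k → (∀ b ∈ β, b.2 ∈ cl) →
        (∀ b ∈ β, (b.1 : ℝ) * W ≤ Λ) →
        |(((Ioc Z (Z + Y)).filter (fun g => S y g ∧ κ g = a0 ∧ PatT (S y) κ β g)).card : ℝ) -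
          Y * W / ((cls (Q f) l).card : ℝ) *
            (β.map (fun b => (1 - Real.exp (-(b.1 * W))) / ((cls (Q f) l).card : ℝ))).prod| ≤
          ε * (Y * W) := by
  obtain ⟨c0, hc0, hQ⟩ := exists_c f hf
  obtain ⟨A, hA⟩ : ∃ A, A = (cls (Q f) l).card := ⟨_, rfl⟩
  have hA1 : 1 ≤ A := by
    have h1 := card_cls (Q f) l
    have h2 := Poly.adm f hf l hl
    omega
  have hAr : (1 : ℝ) ≤ A := by exact_mod_cast hA1
  have hk0 : (0 : ℝ) ≤ k := Nat.cast_nonneg k
  have hMr : (0 : ℝ) < M := by exact_mod_cast hM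
  have hMr1 : (1 : ℝ) ≤ M := by exact_mod_cast hM
  obtain ⟨e, he⟩ : ∃ e : ℝ, e = min (min ε 1 / (4 * (A : ℝ))) (ε / (8 * (A : ℝ) * (1 + k))) := ⟨_, rfl⟩
  have he0 : 0 < e := by rw [he]; positivity
  have he1' : A * e ≤ min ε 1 / 4 := by
    have : e ≤ min ε 1 / (4 * A) := by rw [he]; exact min_le_left _ _
    rw [le_div_iff₀ (by positivity)] at this
    linarith
  have he1 : A * e ≤ 1 / 4 := by
    have := min_le_right ε 1
    linarith
  have he1e : A * e ≤ ε / 4 := by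
    have := min_le_left ε 1
    linarith
  have heA : e ≤ A * e := by nlinarith
  have he2 : A * e * (1 + k) ≤ ε / 8 := by
    have : e ≤ ε / (8 * (A : ℝ) * (1 + k)) := by rw [he]; exact min_le_right _ _
    rw [le_div_iff₀ (by positivity)] at this
    linarith
  obtain ⟨K1, y01, h1⟩ := poly_patT f hf hT l 0 hl 0 1 e le_rfl one_pos he0
  obtain ⟨K2, y02, h2⟩ := poly_patT f hf hT l k hl Λ e e hΛ he0 he0
  obtain ⟨y03, hy03⟩ : ∃ y : ℕ, ((M : ℝ) + c) / e ≤ y := exists_nat_ge _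
  refine ⟨K1 + K2 + 2, y01 + y02 + y03 + y1 + M + c + l + 1, ?_⟩
  intro y hy W hW
  obtain ⟨V, hV⟩ : ∃ V : ℝ, V = Vq (Q f) y := ⟨_, rfl⟩
  have hV0 : 0 < V := by rw [hV]; exact Vq_pos (Q f) (fun p hp => Poly.adm f hf p hp) y
  have hVe : V ≤ e := by rw [hV]; exact (h2 y (by omega)).1
  rw [← hV] at hW
  have hW0 : 0 < W := by rw [hW]; positivity
  have hWV : W ≤ V := by rw [hW]; exact div_le_self hV0.le hMr1
  have hWM : W * M = V := by rw [hW]; field_simp
  refine ⟨hW0, by linarith, ?_⟩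
  intro Z Y hyY hcZ
  have hy1 : 1 ≤ y := by omega
  have hly : l ≤ y := by omega
  obtain ⟨φ, hφdef⟩ : ∃ φ : ℕ → ℕ, φ = fun m => M * m + c := ⟨_, rfl⟩
  have hφ : StrictMono φ := by
    intro u v huv
    rw [hφdef]
    simp only
    have := Nat.mul_lt_mul_of_pos_left huv hM
    omega
  have hSy : ∀ n, S y n ↔ ∃ m, n = φ m ∧ Sf (Q f) y m := by
    intro n
    rw [hφdef]
    exact hS y (by omega) n
  obtain ⟨Z', hZ'⟩ : ∃ Z', Z' = (Z - c) / M := ⟨_, rfl⟩
  obtain ⟨W', hW'⟩ : ∃ W', W' = (Z + Y - c) / M := ⟨_, rfl⟩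
  have hZW : Z' ≤ W' := by
    rw [hZ', hW']
    exact Nat.div_le_div_right (by omega)
  obtain ⟨Y', hY'⟩ : ∃ Y', W' = Z' + Y' := ⟨W' - Z', by omega⟩
  have hbigY : M * y ^ (K1 + K2 + 1) + c ≤ Y := by
    have h4 : 1 ≤ y ^ (K1 + K2 + 1) := Nat.one_le_pow _ _ hy1
    calc M * y ^ (K1 + K2 + 1) + c ≤ M * y ^ (K1 + K2 + 1) + c * y ^ (K1 + K2 + 1) := by
          have := Nat.le_mul_of_pos_right c h4
          omega
      _ = (M + c) * y ^ (K1 + K2 + 1) := by ring
      _ ≤ y * y ^ (K1 + K2 + 1) := Nat.mul_le_mul_right _ (by omega)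
      _ = y ^ (K1 + K2 + 2) := by ring
      _ ≤ Y := hyY
  have hbig1 : y ^ (K1 + K2 + 1) ≤ Y' := by
    have h5 : Z' + y ^ (K1 + K2 + 1) ≤ W' := by
      rw [hZ', hW', Nat.le_div_iff_mul_le hM]
      have h6 : (Z - c) / M * M ≤ Z - c := Nat.div_mul_le_self _ _
      calc ((Z - c) / M + y ^ (K1 + K2 + 1)) * M = (Z - c) / M * M + M * y ^ (K1 + K2 + 1) := by ring
        _ ≤ Z + Y - c := by omega
    omega
  have hbig : y ^ (K1 + K2) ≤ Y' := (Nat.pow_le_pow_right hy1 (by omega)).trans hbig1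
  have hyY' : y ≤ Y' := by
    refine le_trans ?_ hbig1
    calc y = y ^ 1 := (pow_one y).symm
      _ ≤ y ^ (K1 + K2 + 1) := Nat.pow_le_pow_right hy1 (by omega)
  -- the length of the new interval
  have hMY1 : M * Y' ≤ Y + M + c := by
    have h3 := Nat.div_add_mod (Z - c) M
    have h4 := Nat.mod_lt (Z - c) hM
    have h5 := Nat.div_mul_le_self (Z + Y - c) M
    rw [← hZ'] at h3
    rw [← hW', hY'] at h5
    have h6 : (Z' + Y') * M = M * Z' + M * Y' := by ring
    omega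
  have hMY2 : Y ≤ M * Y' + M + c := by
    have h3 := Nat.div_add_mod (Z + Y - c) M
    have h4 := Nat.mod_lt (Z + Y - c) hM
    have h5 := Nat.div_mul_le_self (Z - c) M
    rw [← hW', hY'] at h3
    rw [← hZ'] at h5
    have h6 : M * (Z' + Y') = M * Z' + M * Y' := by ring
    have h7 : Z' * M = M * Z' := by ring
    omega
  have hmem : ∀ m, Sf (Q f) y m → (φ m ∈ Ioc Z (Z + Y) ↔ m ∈ Ioc Z' (Z' + Y')) := by
    intro m hm
    rw [← hY', mem_Ioc, mem_Ioc]
    have hφm : φ m = M * m + c := by rw [hφdef]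
    rcases Nat.eq_zero_or_pos m with rfl | hm0
    · have hc : S y c := (hSy c).2 ⟨0, by rw [hφm]; ring, hm⟩
      have hcZ' : c ≤ Z := by
        rcases hcZ with h | h
        · exact h
        · exact absurd hc h
      rw [hφm, mul_zero, zero_add]
      constructor
      · rintro ⟨h, _⟩
        omega
      · rintro ⟨h, _⟩
        omega
    · rw [hφm, hZ', hW', Nat.div_lt_iff_lt_mul hM, Nat.le_div_iff_mul_le hM]
      have h7 : 0 < M * m := Nat.mul_pos hM hm0
      rw [mul_comm m M]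
      omega
  have hcard : ∀ (P P' : ℕ → Prop) (i1 : DecidablePred P) (i2 : DecidablePred P'), (∀ m, P (φ m) ↔ P' m) → (∀ n, P n → S y n) → (∀ m, P' m → Sf (Q f) y m) →
      ((Ioc Z (Z + Y)).filter P).card = ((Ioc Z' (Z' + Y')).filter P').card := by
    intro P P' i1 i2 h3 h4 h5
    symm
    apply Finset.card_bij (fun m _ => φ m)
    · intro m hm
      rw [mem_filter] at hm ⊢
      exact ⟨(hmem m (h5 m hm.2)).2 hm.1, (h3 m).2 hm.2⟩
    · intro u _ v _ huv
      exact hφ.injective huv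
    · intro n hn
      rw [mem_filter] at hn
      obtain ⟨m, rfl, hG⟩ := (hSy n).1 (h4 n hn.2)
      exact ⟨m, mem_filter.2 ⟨(hmem m hG).1 hn.1, (h3 m).1 hn.2⟩, rfl⟩
  -- the total number
  obtain ⟨tot, htot⟩ : ∃ tot, tot = ((Ioc Z (Z + Y)).filter (S y)).card := ⟨_, rfl⟩
  obtain ⟨B, hB⟩ : ∃ B : ℝ, B = Y' * V := ⟨_, rfl⟩
  have hY'1 : 1 ≤ Y' := (Nat.one_le_pow _ _ hy1).trans hbig
  have hY'r : (0 : ℝ) < Y' := by exact_mod_cast hY'1
  have hB0 : 0 < B := by
    rw [hB]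
    positivity
  have htot1 : tot = ((Ioc Z' (Z' + Y')).filter (Sf (Q f) y)).card := by
    rw [htot]
    apply hcard (S y) (Sf (Q f) y) _ _
    · intro m
      constructor
      · intro h
        obtain ⟨m', h6, h7⟩ := (hSy _).1 h
        rwa [hφ.injective h6]
      · intro h
        exact (hSy _).2 ⟨m, rfl, h⟩
    · exact fun _ h => h
    · exact fun _ h => h
  have htot2 : (tot : ℝ) = ∑ a ∈ cls (Q f) l, ((Oa (Q f) l a y Z' Y').card : ℝ) := by
    rw [htot1, ← Nat.cast_sum]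
    congr 1
    rw [Finset.card_eq_sum_card_fiberwise (f := fun g => g % l) (t := cls (Q f) l)]
    · apply Finset.sum_congr rfl
      intro a _
      unfold Oa
      rw [Finset.filter_filter]
    · intro g hg
      rw [Finset.mem_coe, mem_filter] at hg
      exact mod_mem_cls (Q f) c0 hQ l y g hl hly hg.2
  have hone : ∀ a ∈ cls (Q f) l, |((Oa (Q f) l a y Z' Y').card : ℝ) - B / A| ≤ e * B := by
    intro a ha
    have h3 := (h1 y (by omega)).2 Z' Y' ((Nat.pow_le_pow_right hy1 (by omega)).trans hbig) a ha [] rfl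
      (by simp) (by simp)
    rw [← hV, ← hB, ← hA] at h3
    simp only [List.map_nil, List.prod_nil, mul_one] at h3
    have h4 : (Oa (Q f) l a y Z' Y').filter (fun g => PatT (Sf (Q f) y) (fun n => n % l) [] g) = Oa (Q f) l a y Z' Y' := by
      apply Finset.filter_true_of_mem
      intro g _
      trivial
    rwa [h4] at h3
  have htot3 : |(tot : ℝ) - B| ≤ A * e * B := by
    have h3 : B = ∑ a ∈ cls (Q f) l, B / A := by
      rw [Finset.sum_const, ← hA, nsmul_eq_mul]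
      field_simp
    rw [htot2]
    conv_lhs => rw [h3]
    rw [← Finset.sum_sub_distrib]
    refine (Finset.abs_sum_le_sum_abs _ _).trans ?_
    refine (Finset.sum_le_card_nsmul _ _ _ hone).trans (le_of_eq ?_)
    rw [← hA, nsmul_eq_mul]
    ring
  -- `B` and `Y W`
  obtain ⟨C, hC⟩ : ∃ C : ℝ, C = Y * W := ⟨_, rfl⟩
  have hYr : (0 : ℝ) < Y := by
    have : 0 < Y := lt_of_lt_of_le (by positivity) hyY
    exact_mod_cast this
  have hC0 : 0 < C := by rw [hC]; positivity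
  have hBC : |B - C| ≤ e * B := by
    have e1 : B - C = (M * Y' - Y) * W := by
      rw [hB, hC, ← hWM]
      ring
    have h4 : |(M : ℝ) * Y' - Y| ≤ M + c := by
      have h5 : (M : ℝ) * Y' ≤ Y + M + c := by exact_mod_cast hMY1
      have h6 : (Y : ℝ) ≤ M * Y' + M + c := by exact_mod_cast hMY2
      rw [abs_le]
      constructor <;> linarith
    have h6 : ((M : ℝ) + c) ≤ e * Y' := by
      have h7 : ((M : ℝ) + c) / e ≤ Y' := hy03.trans (by exact_mod_cast (by omega : y03 ≤ Y'))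
      rw [div_le_iff₀ he0] at h7
      linarith
    rw [e1, abs_mul, abs_of_pos hW0]
    calc |(M : ℝ) * Y' - Y| * W ≤ (e * Y') * V := by
          apply mul_le_mul (h4.trans h6) hWV hW0.le (by positivity)
      _ = e * B := by rw [hB]; ring
  have hB2 : B ≤ 2 * C := by
    have := (abs_le.1 hBC).2
    nlinarith
  rw [← htot, ← hC]
  refine ⟨?_, ?_⟩
  · have h3 := abs_sub_le (tot : ℝ) B C
    have h4 : A * e * B + e * B ≤ 2 * (A * e) * (2 * C) := by
      calc A * e * B + e * B ≤ A * e * B + A * e * B := by gcongr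
        _ = 2 * (A * e) * B := by ring
        _ ≤ _ := by gcongr
    have h5 : 2 * (A * e) * (2 * C) ≤ ε * C := by
      have : 4 * (A * e) ≤ ε := by linarith
      nlinarith
    linarith
  intro a0 ha0 β hβk hβcl hβΛ
  -- the exponents
  have hexp : ∀ q : ℕ, ((q / M : ℕ) : ℝ) * V ≤ q * W ∧ |((q / M : ℕ) : ℝ) * V - q * W| ≤ e := by
    intro q
    have h6 : ((q / M : ℕ) : ℝ) ≤ q / M := Nat.cast_div_le
    have h7 : (q : ℝ) / M ≤ ((q / M : ℕ) : ℝ) + 1 := by
      rw [div_le_iff₀ hMr]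
      have h3 : q < (q / M + 1) * M := by
        have := Nat.div_add_mod q M
        have := Nat.mod_lt q hM
        nlinarith
      exact_mod_cast h3.le
    have e1 : (q : ℝ) * W = q / M * V := by rw [hW]; ring
    rw [e1]
    refine ⟨by gcongr, ?_⟩
    rw [← sub_mul, abs_mul, abs_of_pos hV0]
    have h8 : |((q / M : ℕ) : ℝ) - q / M| ≤ 1 := by
      rw [abs_le]
      constructor <;> linarith
    calc |((q / M : ℕ) : ℝ) - q / M| * V ≤ 1 * V := by gcongr
      _ = V := one_mul V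
      _ ≤ e := hVe
  have hb0 := henc a0 ha0
  have h3 := (h2 y (by omega)).2 Z' Y' ((Nat.pow_le_pow_right hy1 (by omega)).trans hbig) (enc a0) hb0
    (β.map (fun b => (b.1 / M, enc b.2))) (by rw [List.length_map, hβk]) (by
      intro b hb
      rw [List.mem_map] at hb
      obtain ⟨b', hb', rfl⟩ := hb
      exact henc _ (hβcl b' hb')) (by
      intro b hb
      rw [List.mem_map] at hb
      obtain ⟨b', hb', rfl⟩ := hb
      simp only
      rw [← hV]
      exact (hexp b'.1).1.trans (hβΛ b' hb'))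
  rw [← hV, ← hB, ← hA] at h3
  have hcnt : ((Ioc Z (Z + Y)).filter (fun g => S y g ∧ κ g = a0 ∧ PatT (S y) κ β g)).card =
      ((Oa (Q f) l (enc a0) y Z' Y').filter (fun g => PatT (Sf (Q f) y) (fun n => n % l)
        (β.map (fun b => (b.1 / M, enc b.2))) g)).card := by
    unfold Oa
    rw [Finset.filter_filter]
    apply hcard
    · intro m
      have h5 := patT_map (S y) (Sf (Q f) y) κ (fun n => n % l) M c hM (hS y (by omega)) enc β (by
        intro b hb m
        exact hκ _ (hβcl b hb) m) m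
      have h6 : S y (φ m) ↔ Sf (Q f) y m := by
        constructor
        · intro h
          obtain ⟨m', h6, h7⟩ := (hSy _).1 h
          rwa [hφ.injective h6]
        · intro h
          exact (hSy _).2 ⟨m, rfl, h⟩
      have h7 : κ (φ m) = a0 ↔ m % l = enc a0 := by
        rw [hφdef]
        exact hκ _ ha0 m
      have h8 : φ m = M * m + c := by rw [hφdef]
      rw [h6, h7, h8, h5]
      tauto
    · intro n hn
      exact hn.1
    · intro m hm
      exact hm.1.1
  rw [hcnt, ← hA]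
  rw [List.map_map] at h3
  have hpc := prod_close A hAr e he0.le β
    (fun b => ((b.1 / M : ℕ) : ℝ) * V) (fun b => b.1 * W)
    (fun b _ => by positivity) (fun b _ => by positivity) (fun b _ => (hexp b.1).2)
  obtain ⟨p1, p2, p3, p4, p5⟩ := hpc
  rw [hβk] at p1
  obtain ⟨P, hP⟩ : ∃ P, P = (β.map (fun b => (1 - Real.exp (-(((b.1 / M : ℕ) : ℝ) * V))) / (A : ℝ))).prod := ⟨_, rfl⟩
  obtain ⟨R, hR⟩ : ∃ R, R = (β.map (fun b => (1 - Real.exp (-(b.1 * W))) / (A : ℝ))).prod := ⟨_, rfl⟩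
  rw [← hP, ← hR] at p1
  rw [← hP] at p2 p3
  rw [← hR] at p4 p5
  rw [← hR]
  have h3' : |(((Oa (Q f) l (enc a0) y Z' Y').filter (fun g => PatT (Sf (Q f) y) (fun n => n % l)
        (β.map (fun b => (b.1 / M, enc b.2))) g)).card : ℝ) - B / A * P| ≤ e * B := by
    rw [hP]
    exact h3
  obtain ⟨N, hN⟩ : ∃ N : ℝ, N = (((Oa (Q f) l (enc a0) y Z' Y').filter (fun g => PatT (Sf (Q f) y) (fun n => n % l)
        (β.map (fun b => (b.1 / M, enc b.2))) g)).card : ℝ) := ⟨_, rfl⟩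
  rw [← hN] at h3' ⊢
  have hA0 : (0 : ℝ) < A := by linarith
  have h8 : |B / A * P - C / A * R| ≤ k * e * B + e * B := by
    have e1 : B / A * P - C / A * R = (B * (P - R) + (B - C) * R) / A := by ring
    rw [e1, abs_div, abs_of_pos hA0]
    refine (div_le_self (abs_nonneg _) hAr).trans ?_
    refine (abs_add_le _ _).trans ?_
    rw [abs_mul, abs_mul, abs_of_pos hB0, abs_of_nonneg p4]
    have h9 : B * |P - R| ≤ B * (k * e) := by gcongr
    have h10 : |B - C| * R ≤ e * B * 1 := by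
      apply mul_le_mul hBC p5 p4 (by positivity)
    linarith
  have h12 : (k * e + 2 * e) * B ≤ ε / 2 * B := by
    apply mul_le_mul_of_nonneg_right _ hB0.le
    have h13 : k * e ≤ k * (A * e) := by gcongr
    nlinarith
  have h13 : ε / 2 * B ≤ ε * C := by
    calc ε / 2 * B ≤ ε / 2 * (2 * C) := by gcongr
      _ = _ := by ring
  have h14 := abs_sub_le N (B / A * P) (C / A * R)
  linarith

end Pool.Agent.V8H31.TP
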